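import Pool.Agent.H978R2.Hex.Defs2

set_option autoImplicit false

/-! Bridge mass at most one, from the mass identity and the classification of landing walks. -/

namespace H978R2.Hex

open Complex

lemma bc_P_succ {Om : V → Prop} [DecidablePred Om] {m : ℕ} {l : List V} (h : l ∈ P Om (m + 1)) :
    ∃ z v x t, l = z :: v :: x :: t ∧ z ∈ (nbrs v).erase x ∧ Om v ∧ v ∉ x :: t ∧
      v :: x :: t ∈ P Om m := by
  rw [P, Finset.mem_biUnion] at h
  obtain ⟨l', hl', hl⟩ := h
  match l', hl', hl with
  | [], _, hl => simp at hl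
  | [_], _, hl => simp at hl
  | z :: y :: t, hl', hl =>
    simp only at hl
    split_ifs at hl with hc
    · rw [Finset.mem_image] at hl
      obtain ⟨z', hz', rfl⟩ := hl
      exact ⟨z', z, y, t, rfl, hz', hc.1, hc.2, hl'⟩
    · simp at hl

lemma bc_succ_P {Om : V → Prop} [DecidablePred Om] {m : ℕ} {z v x : V} {t : List V}
    (hz : z ∈ (nbrs v).erase x) (hO : Om v) (hv : v ∉ x :: t) (hl : v :: x :: t ∈ P Om m) :
    z :: v :: x :: t ∈ P Om (m + 1) := by
  rw [P, Finset.mem_biUnion]
  refine ⟨v :: x :: t, hl, ?_⟩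
  simp only
  rw [if_pos ⟨hO, hv⟩, Finset.mem_image]
  exact ⟨z, hz, rfl⟩

lemma bc_tail {Om : V → Prop} [DecidablePred Om] (m : ℕ) (l : List V) (h : l ∈ P Om m) :
    (1, 0) ∈ l ∧ (l.tail = [(0, 0)] ∨ (1, 0) ∈ l.tail) := by
  induction m generalizing l with
  | zero =>
    rw [P, Finset.mem_singleton] at h
    subst h
    simp
  | succ m ih =>
    obtain ⟨z, v, x, t, rfl, -, -, -, hl⟩ := bc_P_succ h
    have := (ih _ hl).1
    refine ⟨List.mem_cons_of_mem _ this, Or.inr ?_⟩
    simpa using this

/-- coordinates of a neighbour -/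
lemma bc_nbr {v z : V} (h : z ∈ nbrs v) :
    (z.1 = v.1 + 1 ∧ z.2 = v.2) ∨ (z.1 = v.1 - 1 ∧ z.2 = v.2) ∨
    ((v.1 + v.2) % 2 = 0 ∧ z.1 = v.1 ∧ z.2 = v.2 + 1) ∨
    ((v.1 + v.2) % 2 = 1 ∧ z.1 = v.1 ∧ z.2 = v.2 - 1) := by
  unfold nbrs at h
  simp only [Finset.mem_insert, Finset.mem_singleton] at h
  rcases h with h | h | h
  · left; rw [h]; exact ⟨rfl, rfl⟩
  · right; left; rw [h]; exact ⟨rfl, rfl⟩
  · split_ifs at h with he
    · right; right; left
      rw [h]
      exact ⟨Int.even_iff.mp he, rfl, rfl⟩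
    · right; right; right
      rw [h]
      exact ⟨Int.not_even_iff.mp he, rfl, rfl⟩

/-- the rectangle-like domain approximating the strip -/
def bcPar (T n : ℕ) : Par where
  a4 := -2 * ((n : ℤ) + 3) - 2
  c3 := 1
  R := (n : ℤ) + 3
  b := 2 * (T : ℤ) + 2 * ((n : ℤ) + 3) + 1
  d := 2 * (T : ℤ)
  Q := (n : ℤ) + 3
  a2 := -2 * ((n : ℤ) + 3) - 2
  c1 := 1

lemma bc_ok (T n : ℕ) (hT : 1 ≤ T) : Ok (bcPar T n) := by
  constructor <;> simp only [bcPar] <;> omega

lemma bc_om_iff (T n : ℕ) (v : V) : Om (bcPar T n) v ↔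
    1 ≤ v.1 - v.2 ∧ v.1 - v.2 ≤ 2 * (T : ℤ) ∧ v.2 ≤ (n : ℤ) + 3 ∧ -((n : ℤ) + 3) ≤ v.2 := by
  unfold Om
  simp only [bcPar]
  constructor
  · rintro ⟨h1, h2, h3, h4, h5, h6, h7⟩
    rcases lt_trichotomy v.2 0 with h | h | h
    · have := h7 (by omega); omega
    · have := h6 h; omega
    · have := h5 (by omega); omega
  · rintro ⟨h1, h2, h3, h4⟩
    refine ⟨h3, h4, by omega, by omega, fun _ => ⟨by omega, by omega⟩, fun _ => by omega,
      fun _ => ⟨by omega, by omega⟩⟩

lemma bc_strip_P (T n m : ℕ) (l : List V) (h : l ∈ P (Strip T) m) (hm : m ≤ n) :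
    l ∈ P (Om (bcPar T n)) m ∧ |(l.headD (0, 0)).2| ≤ m := by
  induction m generalizing l with
  | zero =>
    rw [P, Finset.mem_singleton] at h
    subst h
    refine ⟨by rw [P, Finset.mem_singleton], by simp⟩
  | succ m ih =>
    obtain ⟨z, v, x, t, rfl, hz, hv, hvn, hl⟩ := bc_P_succ h
    obtain ⟨ih1, ih2⟩ := ih _ hl (by omega)
    simp only [List.headD_cons] at ih2 ⊢
    have hv2 := abs_le.mp ih2
    refine ⟨bc_succ_P hz ?_ hvn ih1, ?_⟩
    · rw [bc_om_iff]
      unfold Strip at hv
      refine ⟨hv.1, hv.2, by omega, by omega⟩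
    · have := bc_nbr (Finset.mem_of_mem_erase hz)
      rw [abs_le]
      push_cast
      omega

/-- bridge mass from the identity and the classification -/
theorem bridge_mass_of (T n : ℕ) (hT : 1 ≤ T)
    (hclass : ∀ (m : ℕ) (l : List V), l ∈ P (Om (bcPar T n)) m →
      ¬ Om (bcPar T n) (l.headD (0, 0)) → Out (bcPar T n) (W l) (l.headD (0, 0)))
    (hid : ∀ (S : Finset V), (∀ v, Om (bcPar T n) v → v ∈ S) → ∀ N : ℕ, S.card ≤ N →
      ∑ k ∈ Finset.Icc (-4 : ℤ) 5, exp ((k : ℂ) * (Real.pi / 8) * I) *
        (Mass (Om (bcPar T n)) N k : ℂ) = 1) :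
    ∑ m ∈ Finset.range (n + 1),
      (((P (Strip T) m).filter (fun l => 2 * (T : ℤ) < (l.headD (0, 0)).1 - (l.headD (0, 0)).2)).card
        : ℝ) * (mu0⁻¹) ^ m ≤ 1 := by
  classical
  have hmu : 0 < mu0 := by
    unfold mu0; positivity
  -- no landing on the slit
  have h5 : ∀ N : ℕ, Mass (Om (bcPar T n)) N 5 = 0 := by
    intro N
    unfold Mass
    apply Finset.sum_eq_zero
    intro m _
    have : Land (Om (bcPar T n)) m 5 = ∅ := by
      rw [Finset.eq_empty_iff_forall_notMem]
      intro l hl
      unfold Land at hl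
      rw [Finset.mem_filter] at hl
      obtain ⟨hl1, hl2, hl3⟩ := hl
      have hc := hclass m l hl1 hl2
      rw [hl3] at hc
      have hslit : Slit (l.headD (0, 0)) := by
        unfold Out at hc
        rcases hc with h | h | h | h | h | h | h | h | h | h
        · exact h.2
        all_goals (exfalso; have := h.1; omega)
      cases m with
      | zero =>
        rw [P, Finset.mem_singleton] at hl1
        subst hl1
        unfold Slit at hslit
        simp at hslit
      | succ m =>
        obtain ⟨z, v, x, t, rfl, hz, hv, hvn, hl⟩ := bc_P_succ hl1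
        simp only [List.headD_cons] at hslit
        rw [bc_om_iff] at hv
        unfold Slit at hslit
        have hzn := bc_nbr (Finset.mem_of_mem_erase hz)
        have hzx := Finset.ne_of_mem_erase hz
        have hvz : v = (1, 0) ∧ z = (0, 0) := by
          refine ⟨?_, ?_⟩
          · apply Prod.ext <;> simp only <;> omega
          · apply Prod.ext <;> simp only <;> omega
        have htl := (bc_tail m _ hl).2
        simp only [List.tail_cons] at htl
        rcases htl with h | h
        · have : x = (0, 0) := by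
            have := List.head_eq_of_cons_eq h
            exact this
          exact hzx (by rw [this]; exact hvz.2)
        · exact hvn (by rw [hvz.1]; exact h)
    rw [this]
    simp
  -- comparison of the masses
  obtain ⟨S, hS⟩ : ∃ S : Finset V, ∀ v, Om (bcPar T n) v → v ∈ S := by
    refine ⟨Finset.Icc (-((n : ℤ) + 3)) (2 * T + (n : ℤ) + 3) ×ˢ
      Finset.Icc (-((n : ℤ) + 3)) ((n : ℤ) + 3), ?_⟩
    intro v hv
    rw [bc_om_iff] at hv
    rw [Finset.mem_product, Finset.mem_Icc, Finset.mem_Icc]
    omega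
  set N : ℕ := max n S.card with hN
  have hidN := hid S hS N (le_max_right _ _)
  have hnn : ∀ k, 0 ≤ Mass (Om (bcPar T n)) N k := by
    intro k
    unfold Mass
    apply Finset.sum_nonneg
    intro m _
    positivity
  have hle : ∑ m ∈ Finset.range (n + 1),
      (((P (Strip T) m).filter (fun l => 2 * (T : ℤ) < (l.headD (0, 0)).1 - (l.headD (0, 0)).2)).card
        : ℝ) * (mu0⁻¹) ^ m ≤ Mass (Om (bcPar T n)) N 0 := by
    unfold Mass
    calc _ ≤ ∑ m ∈ Finset.range (n + 1), ((Land (Om (bcPar T n)) m 0).card : ℝ) * (mu0⁻¹) ^ m := by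
          apply Finset.sum_le_sum
          intro m hm
          have hm' : m ≤ n := by have := Finset.mem_range.mp hm; omega
          apply mul_le_mul_of_nonneg_right _ (by positivity)
          have : (P (Strip T) m).filter
              (fun l => 2 * (T : ℤ) < (l.headD (0, 0)).1 - (l.headD (0, 0)).2)
              ⊆ Land (Om (bcPar T n)) m 0 := by
            intro l hl
            rw [Finset.mem_filter] at hl
            obtain ⟨hl1, hl2⟩ := hl
            obtain ⟨hP, hr⟩ := bc_strip_P T n m l hl1 hm'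
            have hnO : ¬ Om (bcPar T n) (l.headD (0, 0)) := by
              rw [bc_om_iff]; omega
            have hc := hclass m l hP hnO
            have hup : (l.headD (0, 0)).1 - (l.headD (0, 0)).2 ≤ 2 * (T : ℤ) + 1 := by
              cases m with
              | zero =>
                rw [P, Finset.mem_singleton] at hl1
                subst hl1
                simp
              | succ m =>
                obtain ⟨z, v, x, t, rfl, hz, hv, hvn, hl⟩ := bc_P_succ hl1
                simp only [List.headD_cons]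
                have hzn := bc_nbr (Finset.mem_of_mem_erase hz)
                unfold Strip at hv
                omega
            have hr' := abs_le.mp hr
            unfold Land
            rw [Finset.mem_filter]
            refine ⟨hP, hnO, ?_⟩
            unfold Out Slit at hc
            simp only [bcPar] at hc
            omega
          exact_mod_cast Finset.card_le_card this
      _ ≤ _ := by
          apply Finset.sum_le_sum_of_subset_of_nonneg
          · intro m hm
            rw [Finset.mem_range] at hm ⊢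
            have : n ≤ N := le_max_left _ _
            omega
          · intro m _ _
            positivity
  refine hle.trans ?_
  -- real part of the identity
  have hre := congrArg Complex.re hidN
  rw [Complex.re_sum] at hre
  have hterm : ∀ k ∈ Finset.Icc (-4 : ℤ) 5,
      (exp ((k : ℂ) * (Real.pi / 8) * I) * (Mass (Om (bcPar T n)) N k : ℂ)).re
      = Real.cos ((k : ℝ) * (Real.pi / 8)) * Mass (Om (bcPar T n)) N k := by
    intro k _
    have : (k : ℂ) * (Real.pi / 8) * I = (((k : ℝ) * (Real.pi / 8) : ℝ) : ℂ) * I := by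
      push_cast; ring
    rw [this, Complex.re_mul_ofReal, Complex.exp_ofReal_mul_I_re]
  rw [Finset.sum_congr rfl hterm] at hre
  have hcos : ∀ k ∈ Finset.Icc (-4 : ℤ) 4, 0 ≤ Real.cos ((k : ℝ) * (Real.pi / 8)) := by
    intro k hk
    rw [Finset.mem_Icc] at hk
    have h1 : (-4 : ℝ) ≤ k := by exact_mod_cast hk.1
    have h2 : (k : ℝ) ≤ 4 := by exact_mod_cast hk.2
    apply Real.cos_nonneg_of_neg_pi_div_two_le_of_le
    · nlinarith [Real.pi_pos]
    · nlinarith [Real.pi_pos]
  have hsplit : ∑ k ∈ Finset.Icc (-4 : ℤ) 5, Real.cos ((k : ℝ) * (Real.pi / 8)) *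
      Mass (Om (bcPar T n)) N k
      = ∑ k ∈ Finset.Icc (-4 : ℤ) 4, Real.cos ((k : ℝ) * (Real.pi / 8)) *
      Mass (Om (bcPar T n)) N k := by
    have : Finset.Icc (-4 : ℤ) 5 = insert 5 (Finset.Icc (-4 : ℤ) 4) := by
      ext k; simp only [Finset.mem_Icc, Finset.mem_insert]; omega
    rw [this, Finset.sum_insert (by simp), h5 N, mul_zero, zero_add]
  rw [hsplit] at hre
  have hsingle : Real.cos (((0 : ℤ) : ℝ) * (Real.pi / 8)) * Mass (Om (bcPar T n)) N 0 ≤
      ∑ k ∈ Finset.Icc (-4 : ℤ) 4, Real.cos ((k : ℝ) * (Real.pi / 8)) *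
      Mass (Om (bcPar T n)) N k := by
    apply Finset.single_le_sum (f := fun k : ℤ => Real.cos ((k : ℝ) * (Real.pi / 8)) *
      Mass (Om (bcPar T n)) N k)
    · intro k hk
      exact mul_nonneg (hcos k hk) (hnn k)
    · simp
  rw [hre] at hsingle
  simpa using hsingle

end H978R2.Hex
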