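import Pool.Agent.H978R2.Hex.UpperCore

set_option autoImplicit false

/-! The connective constant is at most `mu0`, assuming summability of half-plane walks. -/

namespace H978R2.Hex
namespace HP

theorem saws_le_SL (n : ℕ) (hfin : (SL n).Finite) : (saws n).ncard ≤ (SL n).ncard := by
  refine Set.ncard_le_ncard_of_injOn (fun f => (List.ofFn f).reverse) ?_ ?_ hfin
  · rintro f ⟨h0, hinj, hadj⟩
    refine ⟨by simp, ?_, ?_, ?_⟩
    · unfold Ch
      rw [List.isChain_reverse, List.isChain_ofFn]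
      intro i hi
      have := hadj ⟨i, by omega⟩
      simpa using this
    · rw [List.nodup_reverse]
      exact List.nodup_ofFn.2 hinj
    · rw [List.getLast?_reverse, List.head?_eq_getElem?]
      simp only [List.getElem?_ofFn, Nat.zero_lt_succ, dite_true, Option.some.injEq]
      exact h0
  · intro f _ g _ hfg
    simp only at hfg
    exact List.ofFn_injective (List.reverse_injective hfg)

/-- the finite set of data -/
noncomputable def dat (N : ℕ) : Finset (List V × List V × List V) :=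
  ({[]} ∪ HL N) ×ˢ (HL N ×ˢ ({[]} ∪ HL N))

theorem SL_sub (n : ℕ) : SL n ⊆ (((dat (n + 2)).filter
    (fun d => d.1.length + d.2.1.length + d.2.2.length = n + 2)).image bld : Finset (List V)) := by
  intro l hl
  obtain ⟨R, b, c, hR, hb, hc, hlen, rfl⟩ := saw_decomp hl
  rw [Finset.mem_coe, Finset.mem_image]
  refine ⟨(R, b, c), ?_, rfl⟩
  rw [Finset.mem_filter]
  refine ⟨?_, hlen⟩
  unfold dat
  rw [Finset.mem_product, Finset.mem_product, Finset.mem_union, Finset.mem_union, mem_HL, mem_HL,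
    mem_HL]
  simp only
  refine ⟨?_, ⟨by omega, hb⟩, ?_⟩
  · rcases hR with h | h
    · left; simpa using h
    · right; exact ⟨by omega, h⟩
  · rcases hc with h | h
    · left; simpa using h
    · right; exact ⟨by omega, h⟩

theorem saws_bound (x K : ℝ) (hx : 0 ≤ x) (hK : 0 ≤ K) (n : ℕ) (h : wt x (HL (n + 2)) ≤ K) :
    ((saws n).ncard : ℝ) * x ^ (n + 2) ≤ (1 + K) * (K * (1 + K)) := by
  classical
  have hfin : (SL n).Finite := (Finset.finite_toSet _).subset (SL_sub n)
  have h1 : (saws n).ncard ≤ ((dat (n + 2)).filter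
      (fun d => d.1.length + d.2.1.length + d.2.2.length = n + 2)).card := by
    refine (saws_le_SL n hfin).trans ?_
    refine (Set.ncard_le_ncard (SL_sub n) (Finset.finite_toSet _)).trans ?_
    rw [Set.ncard_coe_finset]
    exact Finset.card_image_le
  have h2 : ((saws n).ncard : ℝ) * x ^ (n + 2) ≤ ∑ d ∈ (dat (n + 2)).filter
      (fun d => d.1.length + d.2.1.length + d.2.2.length = n + 2),
        x ^ d.1.length * (x ^ d.2.1.length * x ^ d.2.2.length) := by
    have h3 : ∀ d ∈ (dat (n + 2)).filter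
        (fun d => d.1.length + d.2.1.length + d.2.2.length = n + 2),
          x ^ d.1.length * (x ^ d.2.1.length * x ^ d.2.2.length) = x ^ (n + 2) := by
      intro d hd
      rw [Finset.mem_filter] at hd
      rw [← hd.2, pow_add, pow_add, mul_assoc]
    rw [Finset.sum_congr rfl h3, Finset.sum_const, nsmul_eq_mul]
    exact mul_le_mul_of_nonneg_right (by exact_mod_cast h1) (pow_nonneg hx _)
  have h4 : ∑ d ∈ (dat (n + 2)).filter
      (fun d => d.1.length + d.2.1.length + d.2.2.length = n + 2),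
        x ^ d.1.length * (x ^ d.2.1.length * x ^ d.2.2.length) ≤
      ∑ d ∈ dat (n + 2), x ^ d.1.length * (x ^ d.2.1.length * x ^ d.2.2.length) := by
    refine Finset.sum_le_sum_of_subset_of_nonneg (Finset.filter_subset _ _) fun d _ _ => ?_
    positivity
  have h5 : ∑ d ∈ dat (n + 2), x ^ d.1.length * (x ^ d.2.1.length * x ^ d.2.2.length) =
      wt x ({[]} ∪ HL (n + 2)) * (wt x (HL (n + 2)) * wt x ({[]} ∪ HL (n + 2))) := by
    unfold dat wt
    rw [Finset.sum_product, Finset.sum_mul]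
    refine Finset.sum_congr rfl fun a _ => ?_
    rw [Finset.sum_product, Finset.sum_mul, Finset.mul_sum]
    refine Finset.sum_congr rfl fun b _ => ?_
    rw [Finset.mul_sum, Finset.mul_sum]
  have h6 : wt x ({[]} ∪ HL (n + 2)) ≤ 1 + K := by
    have := wt_union hx ({[]} : Finset (List V)) (HL (n + 2))
    have e : wt x ({[]} : Finset (List V)) = 1 := by simp [wt]
    linarith
  have h7 := wt_nonneg hx (HL (n + 2))
  have h8 := wt_nonneg hx (({[]} : Finset (List V)) ∪ HL (n + 2))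
  refine h2.trans (h4.trans ?_)
  rw [h5]
  refine mul_le_mul h6 (mul_le_mul h h6 h8 hK) (mul_nonneg h7 h8) (by linarith)

theorem connective_le_of (hH : ∀ x : ℝ, 0 < x → x * mu0 < 1 →
    ∃ K : ℝ, ∀ n : ℕ, ∑ m ∈ Finset.range (n + 1), ((HPset m).ncard : ℝ) * x ^ m ≤ K) :
    (⨅ n : {n : ℕ // 1 ≤ n}, ((Set.ncard (saws n.1) : ℝ) ^ ((1 : ℝ) / (n.1 : ℝ)))) ≤ mu0 := by
  have hmu : 0 < mu0 := by
    unfold mu0
    positivity
  refine le_of_forall_gt_imp_ge_of_dense ?_
  intro y hy
  have hy0 : 0 < y := hmu.trans hy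
  -- choose `x` with `1 / y < x < 1 / mu0`
  obtain ⟨z, hz1, hz2⟩ := exists_between hy
  have hz0 : 0 < z := hmu.trans hz1
  obtain ⟨K, hK⟩ := hH z⁻¹ (by positivity) (by
    rw [inv_mul_lt_iff₀ hz0]
    linarith)
  have hK0 : 0 ≤ K := by
    refine le_trans ?_ (hK 0)
    positivity
  obtain ⟨C, hC⟩ : ∃ C, C = (1 + K) * (K * (1 + K)) * z ^ 2 + 1 := ⟨_, rfl⟩
  have hC1 : 1 ≤ C := by
    rw [hC]
    have : 0 ≤ (1 + K) * (K * (1 + K)) * z ^ 2 := by positivity
    linarith
  have hb : ∀ n : ℕ, ((saws n).ncard : ℝ) ≤ C * z ^ n := by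
    intro n
    have h1 := saws_bound z⁻¹ K (by positivity) hK0 n (by rw [← sum_HF]; exact hK (n + 2))
    rw [inv_pow, ← div_eq_mul_inv, div_le_iff₀ (by positivity)] at h1
    refine h1.trans ?_
    have h0 : 0 ≤ z ^ n := by positivity
    have e : z ^ (n + 2) = z ^ 2 * z ^ n := by ring
    rw [hC, e]
    nlinarith
  have hlim : Filter.Tendsto (fun n : ℕ => C ^ ((1 : ℝ) / (n : ℝ)) * z) Filter.atTop (nhds z) := by
    have h1 : Filter.Tendsto (fun n : ℕ => (1 : ℝ) / (n : ℝ)) Filter.atTop (nhds 0) :=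
      tendsto_one_div_atTop_nhds_zero_nat
    have h2 : Filter.Tendsto (fun n : ℕ => C ^ ((1 : ℝ) / (n : ℝ))) Filter.atTop (nhds 1) := by
      have h3 := (Real.continuousAt_const_rpow (a := C) (b := 0) (by positivity)).tendsto.comp h1
      simpa [Function.comp_def] using h3
    simpa using h2.mul_const z
  have hev : ∀ᶠ n : ℕ in Filter.atTop, C ^ ((1 : ℝ) / (n : ℝ)) * z < y := hlim.eventually_lt_const hz2
  obtain ⟨n, hn1, hn2⟩ := (hev.and (Filter.eventually_ge_atTop 1)).exists
  have hbdd : BddBelow (Set.range (fun n : {n : ℕ // 1 ≤ n} =>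
      ((Set.ncard (saws n.1) : ℝ) ^ ((1 : ℝ) / (n.1 : ℝ))))) := by
    refine ⟨0, ?_⟩
    rintro _ ⟨m, rfl⟩
    positivity
  refine (ciInf_le hbdd ⟨n, hn2⟩).trans ?_
  have hn0 : (0 : ℝ) < n := by exact_mod_cast hn2
  have h4 : ((saws n).ncard : ℝ) ^ ((1 : ℝ) / (n : ℝ)) ≤ (C * z ^ n) ^ ((1 : ℝ) / (n : ℝ)) :=
    Real.rpow_le_rpow (by positivity) (hb n) (by positivity)
  have h5 : (C * z ^ n) ^ ((1 : ℝ) / (n : ℝ)) = C ^ ((1 : ℝ) / (n : ℝ)) * z := by
    rw [Real.mul_rpow (by positivity) (by positivity), one_div, Real.pow_rpow_inv_natCast hz0.le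
      (by omega)]
  rw [h5] at h4
  exact h4.trans hn1.le

end HP
end H978R2.Hex
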