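import Pool.Agent.H978R2.Hex.MassLemmas
import Pool.Agent.H978R2.Hex.BridgeCore
import Pool.Agent.H978R2.Hex.UpperFin

set_option autoImplicit false

/-! Bridge mass, half-plane walks and the connective constant: the unconditional statements. -/

namespace H978R2.Hex

theorem connective_le :
    (⨅ n : {n : ℕ // 1 ≤ n}, ((Set.ncard (saws n.1) : ℝ) ^ ((1 : ℝ) / (n.1 : ℝ)))) ≤ mu0 :=
  HP.connective_le_of fun x hx hx1 => HP.half_plane_sum_of (fun T n hT =>
    bridge_mass_of T n hT (fun m l hl h => class_om _ (bc_ok T n hT) m l hl h)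
      (fun S hS N hN => mass_identity _ (bc_ok T n hT) S hS N hN)) x hx hx1

end H978R2.Hex
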