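import Pool.Agent.H978R2.Hex.Defs

set_option autoImplicit false

/-! Self-avoiding walks from the origin and strips. -/

namespace H978R2.Hex

/-- self-avoiding walks with `n` steps from the origin -/
def saws (n : ℕ) : Set (Fin (n + 1) → V) :=
  {f | f 0 = 0 ∧ Function.Injective f ∧ ∀ i : Fin n, Adj (f i.castSucc) (f i.succ)}

/-- strips -/
def Strip (T : ℕ) (v : V) : Prop := 1 ≤ v.1 - v.2 ∧ v.1 - v.2 ≤ 2 * T

instance (T : ℕ) : DecidablePred (Strip T) := fun v => by unfold Strip; infer_instance

end H978R2.Hex
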