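import Pool.Agent.H978R2.Hex.Hopf

set_option autoImplicit false

/-! Total turning of a lasso. -/

namespace H978R2.Hex

open Complex

theorem wind_append (b : V) (L : List V) (u v : V) :
    wind b (L ++ [u, v]) = wind b (L ++ [u]) + ang b u v := by
  induction L with
  | nil => simp [wind]
  | cons x L ih =>
    cases L with
    | nil => simp [wind]
    | cons y L =>
      have e1 : wind b ((x :: y :: L) ++ [u, v]) = ang b x y + wind b ((y :: L) ++ [u, v]) := rfl
      have e2 : wind b ((x :: y :: L) ++ [u]) = ang b x y + wind b ((y :: L) ++ [u]) := rfl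
      rw [e1, e2, ih]
      ring

/-- the ratio of two consecutive steps -/
theorem ratio_turn {x y z : V} (h1 : Adj x y) (h2 : Adj y z) (h3 : x ≠ z) :
    (pos z - pos y) / (pos y - pos x) =
      ⟨1 / 2, (turn x y z : ℝ) * (Real.sqrt 3 / 2)⟩ := by
  have ha := arg_turn h1 h2 h3
  have hn : ‖(pos z - pos y) / (pos y - pos x)‖ = 1 := by
    rw [norm_div, norm_of_adj (adj_symm h2), norm_of_adj (adj_symm h1), div_one]
  have h := Complex.norm_mul_exp_arg_mul_I ((pos z - pos y) / (pos y - pos x))
  rw [hn, ha, Complex.ofReal_one, one_mul] at h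
  rw [← h]
  rcases turn_pm h1 h2 h3 with h | h <;> rw [h]
  · apply Complex.ext
    · rw [Complex.exp_ofReal_mul_I_re]; norm_num
    · rw [Complex.exp_ofReal_mul_I_im]; norm_num
  · apply Complex.ext
    · rw [Complex.exp_ofReal_mul_I_re]; norm_num
    · rw [Complex.exp_ofReal_mul_I_im]; norm_num

theorem arg_w (t : ℤ) (ht : t = 1 ∨ t = -1) :
    arg ⟨3 / 2, (t : ℝ) * (Real.sqrt 3 / 2)⟩ = (t : ℝ) * (Real.pi / 6) := by
  have h3 : Real.sqrt 3 * Real.sqrt 3 = 3 := Real.mul_self_sqrt (by norm_num)
  have e : (⟨3 / 2, (t : ℝ) * (Real.sqrt 3 / 2)⟩ : ℂ) =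
      ((Real.sqrt 3 : ℝ) : ℂ) * (Real.cos ((t : ℝ) * (Real.pi / 6)) +
        Real.sin ((t : ℝ) * (Real.pi / 6)) * I) := by
    rcases ht with h | h <;> rw [h]
    · apply Complex.ext
      · simp
        nlinarith
      · simp
        ring
    · apply Complex.ext
      · simp
        nlinarith
      · simp
        ring
  rw [e, Complex.ofReal_cos, Complex.ofReal_sin,
    Complex.arg_mul_cos_add_sin_mul_I (by positivity)]
  rcases ht with h | h <;> rw [h] <;> constructor <;> push_cast <;> linarith [Real.pi_pos]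

/-- the angle at `x` of the triangle `x → y → z` -/
theorem ang_first {x y z : V} (h1 : Adj x y) (h2 : Adj y z) (h3 : x ≠ z) :
    ang x z y = (turn x y z : ℝ) * (Real.pi / 6) := by
  have hr := ratio_turn h1 h2 h3
  have hxy : pos y - pos x ≠ 0 := pos_sub_ne (Ne.symm (adj_ne h1))
  have e : (pos z - pos x) / (pos y - pos x) =
      ⟨3 / 2, (turn x y z : ℝ) * (Real.sqrt 3 / 2)⟩ := by
    have : pos z - pos x = (pos z - pos y) + (pos y - pos x) := by ring
    rw [this, add_div, div_self hxy, hr]
    apply Complex.ext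
    · simp; norm_num
    · simp
  unfold ang
  rw [e]
  exact arg_w _ (turn_pm h1 h2 h3)

/-- the angle at `z` of the triangle `x → y → z` -/
theorem ang_last {x y z : V} (h1 : Adj x y) (h2 : Adj y z) (h3 : x ≠ z) :
    arg ((pos z - pos y) / (pos z - pos x)) = (turn x y z : ℝ) * (Real.pi / 6) := by
  have h := arg_triangle h1 h2 h3
  have ha := arg_turn h1 h2 h3
  have hf := ang_first h1 h2 h3
  have e1 : arg ((pos x - pos z) / (pos x - pos y)) = ang x z y := by
    unfold ang
    rw [← neg_div_neg_eq, neg_sub, neg_sub]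
  have e2 : ang z y x = arg ((pos z - pos y) / (pos z - pos x)) := by
    unfold ang
    rw [← neg_div_neg_eq, neg_sub, neg_sub]
  rw [ha, e1, hf, e2] at h
  linarith

theorem arg_inv_small {u : ℂ} (h : |arg u| < Real.pi / 2) : arg u⁻¹ = - arg u := by
  rw [Complex.arg_inv, if_neg]
  intro h2
  rw [h2, abs_of_pos Real.pi_pos] at h
  linarith [Real.pi_pos]

/-- no triangles -/
theorem no_triangle {x y z : V} (h1 : Adj x y) (h2 : Adj y z) (h3 : Adj x z) : False := by
  have par : ∀ {p q : V}, Adj p q → (p.1 + p.2 + q.1 + q.2) % 2 = 1 := by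
    intro p q h
    obtain ⟨p1, p2⟩ := p
    obtain ⟨q1, q2⟩ := q
    simp only [Adj, Prod.mk_sub_mk, Prod.mk.injEq] at h
    simp only
    omega
  have a1 := par h1
  have a2 := par h2
  have a3 := par h3
  omega

theorem lasso (q c a e : V) (M : List V)
    (hc : (e :: (M ++ [a, c, q])).IsChain (fun x y => Adj y x))
    (hn : (e :: (M ++ [a, c, q])).Nodup) (hce : Adj e c) :
    (W (c :: e :: (M ++ [a, c, q])) : ℝ) * (Real.pi / 3) =
      2 * (wind q (e :: (M ++ [a, c])) + ang q c e) - 4 * (turn q c a : ℝ) * (Real.pi / 3) := by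
  -- structure of the path
  have hsplit : (e :: (M ++ [a, c, q])) = (e :: M) ++ (a :: c :: [q]) := by simp
  have hc0 := hc
  rw [hsplit] at hc0
  have hcr : (a :: c :: [q]).IsChain (fun x y => Adj y x) := (List.isChain_append.mp hc0).2.1
  have hca : Adj c a := (List.isChain_cons_cons.mp hcr).1
  have hqc : Adj q c := (List.isChain_cons_cons.mp (List.isChain_cons_cons.mp hcr).2).1
  cases M with
  | nil =>
    exfalso
    have hae : Adj a e := (List.isChain_cons_cons.mp hc).1
    exact no_triangle hca hae (adj_symm hce)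
  | cons y M =>
  have hye : Adj y e := (List.isChain_cons_cons.mp hc).1
  -- distinctness
  have hnd := List.nodup_cons.mp hn
  have hmem : ∀ x, x ∈ (y :: M) ++ [a, c, q] ↔ x ∈ y :: M ∨ x = a ∨ x = c ∨ x = q := by
    intro x; simp [or_assoc]
  have hea : e ≠ a := fun h => hnd.1 ((hmem e).mpr (Or.inr (Or.inl h)))
  have hec : e ≠ c := fun h => hnd.1 ((hmem e).mpr (Or.inr (Or.inr (Or.inl h))))
  have heq : e ≠ q := fun h => hnd.1 ((hmem e).mpr (Or.inr (Or.inr (Or.inr h))))
  have hey : e ≠ y := fun h => hnd.1 ((hmem e).mpr (Or.inl (by rw [h]; exact List.mem_cons_self)))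
  have hn2 := List.nodup_append.mp hnd.2
  have hacq : a ≠ c ∧ a ≠ q ∧ c ≠ q := by
    have := hn2.2.1
    simp at this
    exact ⟨this.1.1, this.1.2, this.2⟩
  have hMa : ∀ x ∈ y :: M, x ≠ a ∧ x ≠ c ∧ x ≠ q := by
    intro x hx
    refine ⟨?_, ?_, ?_⟩
    · exact hn2.2.2 x hx a (by simp)
    · exact hn2.2.2 x hx c (by simp)
    · exact hn2.2.2 x hx q (by simp)
  have hy := hMa y List.mem_cons_self
  -- (1) Hopf
  have h1 := hopf e q ((y :: M) ++ [a, c]) (by simpa using hc) (by simpa using hn)
  have hl1 : ((y :: M) ++ [a, c]) ++ [q] = (y :: M) ++ [a, c, q] := by simp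
  rw [hl1] at h1
  -- (2) the last turn
  have h2 : W (c :: e :: ((y :: M) ++ [a, c, q])) =
      turn y e c + W (e :: ((y :: M) ++ [a, c, q])) := rfl
  have h2' := arg_turn hye hce hy.2.1
  have h2'' := arg_triangle hye hce hy.2.1
  -- (3) winding around the end
  have h3 : wind e ((y :: M) ++ [a, c, q]) = wind e ((y :: M) ++ [a]) + ang e a c + ang e c q := by
    have e1 : (y :: M) ++ [a, c, q] = ((y :: M) ++ [a]) ++ [c, q] := by simp
    have e2 : ((y :: M) ++ [a]) ++ [c] = (y :: M) ++ [a, c] := by simp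
    rw [e1, wind_append, e2, wind_append]
  have hlast : (y :: (M ++ [a])).getLast (by simp) = a := by
    have h : (y :: (M ++ [a])) = (y :: M) ++ [a] := rfl
    have : ((y :: M) ++ [a]).getLast (by simp) = a := List.getLast_append_singleton (y :: M)
    simpa only [h] using this
  have hchain : (y :: (M ++ [a])).IsChain (fun x y => Adj y x) := by
    have h := (List.isChain_cons_cons.mp hc).2
    have e1 : (y :: (M.append [a, c, q])) = (y :: (M ++ [a])) ++ [c, q] := by simp
    have h' : ((y :: (M ++ [a])) ++ [c, q]).IsChain (fun x y => Adj y x) := by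
      rw [← e1]; exact h
    exact (List.isChain_append.mp h').1
  have hmemA : ∀ x ∈ y :: (M ++ [a]), x ≠ c ∧ x ≠ q ∧ x ≠ e := by
    intro x hx
    have hx' : x ∈ y :: M ∨ x = a := by
      have : x ∈ (y :: M) ++ [a] := hx
      simpa [or_assoc] using this
    rcases hx' with hx' | hx'
    · refine ⟨(hMa x hx').2.1, (hMa x hx').2.2, fun h => hnd.1 ((hmem e).mpr (Or.inl (h ▸ hx')))⟩
    · subst hx'
      exact ⟨hacq.1, hacq.2.1, Ne.symm hea⟩
  have h4 := wind_base_change (b := c) (b' := e) (adj_symm hce) y (M ++ [a]) hchain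
    (fun h => (hmemA c h).1 rfl) (fun h => (hmemA e h).2.2 rfl)
  have h5 := wind_base_change (b := q) (b' := c) hqc y (M ++ [a]) hchain
    (fun h => (hmemA q h).2.1 rfl) (fun h => (hmemA c h).1 rfl)
  rw [hlast] at h4 h5
  -- (4) the winding around the tail
  have h6 : wind q (e :: ((y :: M) ++ [a, c])) =
      ang q e y + wind q (y :: (M ++ [a])) + ang q a c := by
    have e1 : wind q (e :: ((y :: M) ++ [a, c])) = ang q e y + wind q ((y :: M) ++ [a, c]) := rfl
    rw [e1, wind_append]
    have e2 : (y :: M) ++ [a] = y :: (M ++ [a]) := rfl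
    rw [e2]
    ring
  -- (5) local terms at `y`
  have h7 := ang_base (b := q) (b' := c) (p := e) (q := y) hqc (adj_symm hye) heq hy.2.2 hec
    hy.2.1
  -- explicit angles
  have ht := turn_other hqc hca (adj_symm hce) (Ne.symm hacq.2.1) (Ne.symm heq) (Ne.symm hea)
  have ht2 := turn_other (adj_symm hca) (adj_symm hqc) (adj_symm hce) hacq.2.1 (Ne.symm hea)
    (Ne.symm heq)
  have ht3 := turn_rev hqc hca (Ne.symm hacq.2.1)
  have ht4 := turn_rev (adj_symm hca) (adj_symm hce) (Ne.symm hea)
  have ht5 := turn_rev hqc (adj_symm hce) (Ne.symm heq)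
  have x1 := ang_last hqc (adj_symm hce) (Ne.symm heq)
  have x2 := ang_first hqc hca (Ne.symm hacq.2.1)
  have x3 := ang_last hqc hca (Ne.symm hacq.2.1)
  have x4 := ang_last hce hca hea
  have x5 := ang_first hce hca hea
  have x6 := ang_first hce (adj_symm hqc) heq
  have x7 := ang_first hqc (adj_symm hce) (Ne.symm heq)
  -- inverse angles
  have small : ∀ {x y z : V}, Adj x y → Adj y z → x ≠ z →
      |(turn x y z : ℝ) * (Real.pi / 6)| < Real.pi / 2 := by
    intro x y z g1 g2 g3
    rcases turn_pm g1 g2 g3 with h | h <;> rw [h] <;> push_cast <;> rw [abs_lt] <;>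
      constructor <;> linarith [Real.pi_pos]
  have y4 : arg ((pos a - pos e) / (pos a - pos c)) = -((turn e c a : ℝ) * (Real.pi / 6)) := by
    have h := arg_inv_small (u := (pos a - pos c) / (pos a - pos e))
      (by rw [x4]; exact small hce hca hea)
    rw [inv_div, x4] at h
    exact h
  have y6 : ang e c q = -((turn e c q : ℝ) * (Real.pi / 6)) := by
    have h := arg_inv_small (u := (pos q - pos e) / (pos c - pos e))
      (by
        have : arg ((pos q - pos e) / (pos c - pos e)) = _ := x6
        rw [this]; exact small hce (adj_symm hqc) heq)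
    rw [inv_div] at h
    have h' : arg ((pos q - pos e) / (pos c - pos e)) = _ := x6
    rw [h'] at h
    exact h
  have y7 : ang q c e = -((turn q c e : ℝ) * (Real.pi / 6)) := by
    have h := arg_inv_small (u := (pos e - pos q) / (pos c - pos q))
      (by
        have : arg ((pos e - pos q) / (pos c - pos q)) = _ := x7
        rw [this]; exact small hqc (adj_symm hce) (Ne.symm heq))
    rw [inv_div] at h
    have h' : arg ((pos e - pos q) / (pos c - pos q)) = _ := x7
    rw [h'] at h
    exact h
  have y8 : arg ((pos y - pos e) / (pos y - pos c)) = - arg ((pos y - pos c) / (pos y - pos e)) := by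
    have hs : |arg ((pos y - pos c) / (pos y - pos e))| < Real.pi / 2 := by
      have : arg ((pos y - pos c) / (pos y - pos e)) = ang y c e := by
        unfold ang
        rw [← neg_div_neg_eq, neg_sub, neg_sub]
      rw [this]
      exact abs_ang_lt (b := y) (p := c) (q := e) (adj_symm hce) (Ne.symm hy.2.1) hey
    have h := arg_inv_small hs
    rw [inv_div] at h
    exact h
  have y9 : ang q a c = (turn q c a : ℝ) * (Real.pi / 6) := x2
  have y10 : ang e a c = (turn e c a : ℝ) * (Real.pi / 6) := x5
  -- real versions of the sign relations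
  have r1 : (turn q c e : ℝ) = -(turn q c a : ℝ) := by
    have := congrArg (Int.cast : ℤ → ℝ) ht
    push_cast at this
    linarith
  have r3 : (turn a c q : ℝ) = -(turn q c a : ℝ) := by
    have := congrArg (Int.cast : ℤ → ℝ) ht3
    push_cast at this
    linarith
  have r2 : (turn a c e : ℝ) = (turn q c a : ℝ) := by
    have := congrArg (Int.cast : ℤ → ℝ) ht2
    push_cast at this
    linarith
  have r4 : (turn e c a : ℝ) = -(turn q c a : ℝ) := by
    have := congrArg (Int.cast : ℤ → ℝ) ht4
    push_cast at this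
    linarith
  have r5 : (turn e c q : ℝ) = (turn q c a : ℝ) := by
    have := congrArg (Int.cast : ℤ → ℝ) ht5
    push_cast at this
    linarith
  have e34 : wind e ((y :: M) ++ [a]) = wind e (y :: (M ++ [a])) := rfl
  have e61 : wind q (e :: ((y :: M) ++ [a, c])) = wind q (e :: (y :: M ++ [a, c])) := rfl
  rw [h2]
  push_cast
  rw [add_mul, h1, ← h2', h2'', h3, e34, h4, h5, h6, y9, y10, y6, y7, y4, x3, y8]
  rw [h7, x1] 
  rw [r1, r4, r5]
  ring

end H978R2.Hex
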