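import Pool.Agent.H978R2.Hex.Hopf

set_option autoImplicit false

/-! A loop in the slit plane has winding 0 around the tail. -/

namespace H978R2.Hex

open Complex

theorem pos_zero : pos (0, 0) = 0 := by
  apply Complex.ext <;> simp [pos, ht]

theorem pos_im_pos {v : V} (h : 1 ≤ v.2) : 0 < (pos v).im := by
  have h1 : 0 < ht v := by unfold ht; omega
  have : (0 : ℝ) < (ht v : ℝ) := by exact_mod_cast h1
  change 0 < (ht v : ℝ) / 2
  linarith

theorem pos_im_neg {v : V} (h : v.2 ≤ -1) : (pos v).im < 0 := by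
  have h1 : ht v < 0 := by unfold ht; omega
  have : (ht v : ℝ) < 0 := by exact_mod_cast h1
  change (ht v : ℝ) / 2 < 0
  linarith

theorem pos_re_pos {v : V} (h : 1 ≤ v.1) : 0 < (pos v).re := by
  have h1 : (0 : ℝ) < (v.1 : ℝ) := by exact_mod_cast (by omega : (0 : ℤ) < v.1)
  have h3 : 0 < Real.sqrt 3 := Real.sqrt_pos.mpr (by norm_num)
  change 0 < Real.sqrt 3 / 2 * (v.1 : ℝ)
  positivity

/-- the three regions of the slit plane -/
theorem arg_region {v : V} (h : ¬ Slit v) :
    (1 ≤ v.2 ∧ 0 < arg (pos v) ∧ arg (pos v) < Real.pi) ∨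
    (v.2 = 0 ∧ -(Real.pi / 2) < arg (pos v) ∧ arg (pos v) < Real.pi / 2) ∨
    (v.2 ≤ -1 ∧ -Real.pi < arg (pos v) ∧ arg (pos v) < 0) := by
  rcases lt_trichotomy v.2 0 with h0 | h0 | h0
  · right; right
    have h1 := pos_im_neg (v := v) (by omega)
    exact ⟨by omega, Complex.neg_pi_lt_arg _, Complex.arg_neg_iff.mpr h1⟩
  · right; left
    have h1 : 1 ≤ v.1 := by
      by_contra hc
      exact h ⟨h0, by omega⟩
    have h2 := pos_re_pos h1
    have h3 := (Complex.abs_arg_lt_pi_div_two_iff (z := pos v)).mpr (Or.inl h2)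
    rw [abs_lt] at h3
    exact ⟨h0, h3.1, h3.2⟩
  · left
    have h1 := pos_im_pos (v := v) (by omega)
    refine ⟨by omega, ?_, ?_⟩
    · rcases (Complex.arg_nonneg_iff.mpr h1.le).lt_or_eq with h2 | h2
      · exact h2
      · exfalso
        have := Complex.arg_eq_zero_iff.mp h2.symm
        linarith [this.2]
    · rcases (Complex.arg_le_pi (pos v)).lt_or_eq with h2 | h2
      · exact h2
      · exfalso
        have := Complex.arg_eq_pi_iff.mp h2
        linarith [this.2]

theorem adj_rows {p q : V} (h : Adj p q) : p.2 ≤ q.2 + 1 ∧ q.2 ≤ p.2 + 1 := by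
  obtain ⟨p1, p2⟩ := p
  obtain ⟨q1, q2⟩ := q
  simp only [Adj, Prod.mk_sub_mk, Prod.mk.injEq] at h
  simp only
  omega

theorem slit_ne {v : V} (h : ¬ Slit v) : v ≠ (0, 0) := by
  intro h0
  apply h
  rw [h0]
  exact ⟨rfl, le_refl _⟩

/-- two real numbers which differ by a multiple of `2π` and by less than `2π` are equal -/
theorem eq_of_angle {x y : ℝ} (h : (x : Real.Angle) = (y : Real.Angle))
    (h1 : |x - y| < 2 * Real.pi) : x = y := by
  obtain ⟨k, hk⟩ := Real.Angle.angle_eq_iff_two_pi_dvd_sub.mp h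
  have hpi := Real.pi_pos
  have hk0 : k = 0 := by
    rw [hk, abs_mul, abs_of_pos (by linarith : (0 : ℝ) < 2 * Real.pi)] at h1
    have h2 : |(k : ℝ)| < 1 := by
      have h3 : 2 * Real.pi * |(k : ℝ)| < 2 * Real.pi * 1 := by linarith
      exact lt_of_mul_lt_mul_left h3 (by linarith)
    have h4 : |k| < 1 := by
      have : ((|k| : ℤ) : ℝ) < 1 := by push_cast; exact h2
      exact_mod_cast this
    exact Int.abs_lt_one_iff.mp h4
  rw [hk0] at hk
  simp at hk
  linarith

/-- a step of the slit plane seen from the origin -/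
theorem ang_origin {p q : V} (h : Adj p q) (hp : ¬ Slit p) (hq : ¬ Slit q) :
    ang (0, 0) p q = arg (pos p) - arg (pos q) := by
  have hp0 := slit_ne hp
  have hq0 := slit_ne hq
  have h1 := abs_ang_lt h hp0 hq0
  have hpn : pos p ≠ 0 := by
    have := pos_sub_ne hp0
    rwa [pos_zero, sub_zero] at this
  have hqn : pos q ≠ 0 := by
    have := pos_sub_ne hq0
    rwa [pos_zero, sub_zero] at this
  apply eq_of_angle
  · have e : ang (0, 0) p q = arg (pos p / pos q) := by
      unfold ang
      rw [pos_zero, sub_zero, sub_zero]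
    rw [e, Complex.arg_div_coe_angle hpn hqn]
    push_cast
    rfl
  · have hr := adj_rows h
    have hpi := Real.pi_pos
    rw [abs_lt] at h1
    rcases arg_region hp with ⟨a1, a2, a3⟩ | ⟨a1, a2, a3⟩ | ⟨a1, a2, a3⟩ <;>
      rcases arg_region hq with ⟨b1, b2, b3⟩ | ⟨b1, b2, b3⟩ | ⟨b1, b2, b3⟩ <;>
      first
      | (exfalso; omega)
      | (rw [abs_lt]; constructor <;> linarith [h1.1, h1.2])

theorem wind_origin (p : V) (L : List V) (hc : (p :: L).IsChain (fun x y => Adj y x))
    (hs : ∀ v ∈ p :: L, ¬ Slit v) :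
    wind (0, 0) (p :: L) = arg (pos p) - arg (pos ((p :: L).getLast (by simp))) := by
  induction L generalizing p with
  | nil => simp [wind]
  | cons q L ih =>
    have hc' := List.isChain_cons_cons.mp hc
    have h := ih q hc'.2 (fun v hv => hs v (List.mem_cons_of_mem _ hv))
    have e1 : wind (0, 0) (p :: q :: L) = ang (0, 0) p q + wind (0, 0) (q :: L) := rfl
    have e3 : (p :: q :: L).getLast (by simp) = (q :: L).getLast (by simp) :=
      List.getLast_cons (by simp)
    rw [e1, e3, h, ang_origin (adj_symm hc'.1) (hs p List.mem_cons_self)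
      (hs q (List.mem_cons_of_mem _ List.mem_cons_self))]
    ring

/-- moving the base point outside the closed loop -/
theorem loop_base_change {b b' : V} (hb : Adj b b') (e c : V) (K : List V)
    (hc : (e :: (K ++ [c])).IsChain (fun x y => Adj y x)) (hce : Adj e c)
    (h1 : b ∉ e :: (K ++ [c])) (h2 : b' ∉ e :: (K ++ [c])) :
    wind b' (e :: (K ++ [c])) + ang b' c e = wind b (e :: (K ++ [c])) + ang b c e := by
  have h := wind_base_change hb e (K ++ [c]) hc h1 h2
  have hlast : (e :: (K ++ [c])).getLast (by simp) = c := by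
    have : ((e :: K) ++ [c]).getLast (by simp) = c := List.getLast_append_singleton (e :: K)
    exact this
  rw [hlast] at h
  have hmc : c ∈ e :: (K ++ [c]) := by simp
  have hme : e ∈ e :: (K ++ [c]) := List.mem_cons_self
  have h3 := ang_base hb (adj_symm hce) (p := c) (q := e)
    (fun h => h1 (h ▸ hmc)) (fun h => h1 (h ▸ hme)) (fun h => h2 (h ▸ hmc))
    (fun h => h2 (h ▸ hme))
  rw [h, h3]
  ring

theorem wind_loop_zero (e c : V) (K B : List V) (q : V)
    (hc : (e :: (K ++ [c])).IsChain (fun x y => Adj y x)) (hce : Adj e c)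
    (hslit : ∀ v ∈ e :: (K ++ [c]), ¬ Slit v)
    (hB : (q :: B).IsChain (fun x y => Adj y x)) (hlast : (q :: B).getLast (by simp) = (0, 0))
    (hdis : ∀ v ∈ q :: B, v ∉ e :: (K ++ [c])) :
    wind q (e :: (K ++ [c])) + ang q c e = 0 := by
  induction B generalizing q with
  | nil =>
    have hq : q = (0, 0) := by simpa using hlast
    subst hq
    rw [wind_origin e (K ++ [c]) hc hslit]
    have hl : (e :: (K ++ [c])).getLast (by simp) = c := by
      have : ((e :: K) ++ [c]).getLast (by simp) = c := List.getLast_append_singleton (e :: K)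
      exact this
    rw [hl, ang_origin (adj_symm hce) (hslit c (by simp)) (hslit e List.mem_cons_self)]
    ring
  | cons r B ih =>
    have hB' := List.isChain_cons_cons.mp hB
    have e3 : (q :: r :: B).getLast (by simp) = (r :: B).getLast (by simp) :=
      List.getLast_cons (by simp)
    have h := ih r hB'.2 (by rw [← e3]; exact hlast)
      (fun v hv => hdis v (List.mem_cons_of_mem _ hv))
    rw [← h]
    exact loop_base_change hB'.1 e c K hc hce (hdis r (List.mem_cons_of_mem _ List.mem_cons_self))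
      (hdis q List.mem_cons_self)

end H978R2.Hex
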