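import Pool.Agent.H978R2.Hex.ValP
import Pool.Agent.H978R2.Hex.Lasso
import Pool.Agent.H978R2.Hex.WindZero

set_option autoImplicit false

/-! Section G: the winding index of a landing walk is determined by the landing side. -/

namespace H978R2.Hex

open Complex

/-! ### Regions -/

/-- the argument of a difference of two lattice points: row above, same row, row below -/
theorem argdiff {a b : V} (h : a.2 = b.2 → b.1 < a.1) :
    (b.2 < a.2 ∧ 0 < arg (pos a - pos b) ∧ arg (pos a - pos b) < Real.pi) ∨
    (a.2 = b.2 ∧ -(Real.pi / 2) < arg (pos a - pos b) ∧ arg (pos a - pos b) < Real.pi / 2) ∨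
    (a.2 < b.2 ∧ -Real.pi < arg (pos a - pos b) ∧ arg (pos a - pos b) < 0) := by
  rcases lt_trichotomy a.2 b.2 with h0 | h0 | h0
  · right; right
    have h1 : (pos a - pos b).im < 0 := by
      rw [pos_sub_im]
      have h2 : ht a - ht b < 0 := by unfold ht; omega
      have h3 : ((ht a - ht b : ℤ) : ℝ) < 0 := by exact_mod_cast h2
      linarith
    exact ⟨h0, Complex.neg_pi_lt_arg _, Complex.arg_neg_iff.mpr h1⟩
  · right; left
    have h1 : 0 < (pos a - pos b).re := by
      rw [pos_sub_re]
      have h2 : (0 : ℤ) < a.1 - b.1 := by have := h h0; omega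
      have h3 : (0 : ℝ) < ((a.1 - b.1 : ℤ) : ℝ) := by exact_mod_cast h2
      have h4 : 0 < Real.sqrt 3 := Real.sqrt_pos.mpr (by norm_num)
      positivity
    have h3 := (Complex.abs_arg_lt_pi_div_two_iff (z := pos a - pos b)).mpr (Or.inl h1)
    rw [abs_lt] at h3
    exact ⟨h0, h3.1, h3.2⟩
  · left
    have h1 : 0 < (pos a - pos b).im := by
      rw [pos_sub_im]
      have h2 : 0 < ht a - ht b := by unfold ht; omega
      have h3 : (0 : ℝ) < ((ht a - ht b : ℤ) : ℝ) := by exact_mod_cast h2
      linarith
    refine ⟨h0, ?_, ?_⟩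
    · rcases (Complex.arg_nonneg_iff.mpr h1.le).lt_or_eq with h2 | h2
      · exact h2
      · exfalso
        have := Complex.arg_eq_zero_iff.mp h2.symm
        linarith [this.2]
    · rcases (Complex.arg_le_pi (pos a - pos b)).lt_or_eq with h2 | h2
      · exact h2
      · exfalso
        have := Complex.arg_eq_pi_iff.mp h2
        linarith [this.2]

/-- telescoping along a path -/
theorem wind_tel (z : V) (g : V → ℝ) (S : V → Prop)
    (hstep : ∀ p q, Adj q p → S p → S q → ang z p q = g p - g q) (p : V) (L : List V)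
    (hc : (p :: L).IsChain (fun x y => Adj y x)) (hS : ∀ v ∈ p :: L, S v) :
    wind z (p :: L) = g p - g ((p :: L).getLast (by simp)) := by
  induction L generalizing p with
  | nil => simp [wind]
  | cons q L ih =>
    have hc' := List.isChain_cons_cons.mp hc
    have h := ih q hc'.2 (fun v hv => hS v (List.mem_cons_of_mem _ hv))
    have e1 : wind z (p :: q :: L) = ang z p q + wind z (q :: L) := rfl
    have e3 : (p :: q :: L).getLast (by simp) = (q :: L).getLast (by simp) :=
      List.getLast_cons (by simp)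
    rw [e1, e3, h, hstep p q hc'.1 (hS p List.mem_cons_self)
      (hS q (List.mem_cons_of_mem _ List.mem_cons_self))]
    ring

/-- a step seen from `z`, with the arguments measured after multiplication by `κ` -/
theorem ang_kappa {z p q : V} (κ : ℂ) (hκ : κ ≠ 0) (hp : p ≠ z) (hq : q ≠ z)
    (h : |ang z p q - (arg (κ * (pos p - pos z)) - arg (κ * (pos q - pos z)))| < 2 * Real.pi) :
    ang z p q = arg (κ * (pos p - pos z)) - arg (κ * (pos q - pos z)) := by
  apply eq_of_angle _ h
  have hpn := mul_ne_zero hκ (pos_sub_ne hp)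
  have hqn := mul_ne_zero hκ (pos_sub_ne hq)
  have e : ang z p q = arg ((κ * (pos p - pos z)) / (κ * (pos q - pos z))) := by
    unfold ang
    rw [mul_div_mul_left _ _ hκ]
  rw [e, Complex.arg_div_coe_angle hpn hqn]
  rfl

/-- all vertices of the row of `z` are to the right of `z` -/
theorem step_right {z p q : V} (h : Adj q p) (hp : p ≠ z ∧ (p.2 = z.2 → z.1 < p.1))
    (hq : q ≠ z ∧ (q.2 = z.2 → z.1 < q.1)) :
    ang z p q = arg (pos p - pos z) - arg (pos q - pos z) := by
  have key := ang_kappa (z := z) (p := p) (q := q) 1 one_ne_zero hp.1 hq.1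
  rw [one_mul, one_mul] at key
  apply key
  have h1 := abs_ang_lt (adj_symm h) hp.1 hq.1
  have hr := adj_rows h
  have hpi := Real.pi_pos
  rw [abs_lt] at h1
  rcases argdiff hp.2 with ⟨a1, a2, a3⟩ | ⟨a1, a2, a3⟩ | ⟨a1, a2, a3⟩ <;>
    rcases argdiff hq.2 with ⟨b1, b2, b3⟩ | ⟨b1, b2, b3⟩ | ⟨b1, b2, b3⟩ <;>
    first
    | (exfalso; omega)
    | (rw [abs_lt]; constructor <;> linarith [h1.1, h1.2])

/-- all vertices of the row of `z` are to the left of `z` -/
theorem step_left {z p q : V} (h : Adj q p) (hp : p ≠ z ∧ (z.2 = p.2 → p.1 < z.1))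
    (hq : q ≠ z ∧ (z.2 = q.2 → q.1 < z.1)) :
    ang z p q = arg (pos z - pos p) - arg (pos z - pos q) := by
  have key := ang_kappa (z := z) (p := p) (q := q) (-1) (by norm_num) hp.1 hq.1
  rw [neg_one_mul, neg_one_mul, neg_sub, neg_sub] at key
  apply key
  have h1 := abs_ang_lt (adj_symm h) hp.1 hq.1
  have hr := adj_rows h
  have hpi := Real.pi_pos
  rw [abs_lt] at h1
  rcases argdiff hp.2 with ⟨a1, a2, a3⟩ | ⟨a1, a2, a3⟩ | ⟨a1, a2, a3⟩ <;>
    rcases argdiff hq.2 with ⟨b1, b2, b3⟩ | ⟨b1, b2, b3⟩ | ⟨b1, b2, b3⟩ <;>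
    first
    | (exfalso; omega)
    | (rw [abs_lt]; constructor <;> linarith [h1.1, h1.2])

/-- all vertices are below the row of `z` -/
theorem step_up {z p q : V} (h : Adj q p) (hp : p.2 < z.2) (hq : q.2 < z.2) :
    ang z p q = arg (I * (pos p - pos z)) - arg (I * (pos q - pos z)) := by
  have hp0 : p ≠ z := by rintro rfl; omega
  have hq0 : q ≠ z := by rintro rfl; omega
  apply ang_kappa (z := z) (p := p) (q := q) I I_ne_zero hp0 hq0
  have h1 := abs_ang_lt (adj_symm h) hp0 hq0
  have hg : ∀ w : V, w.2 < z.2 → |arg (I * (pos w - pos z))| < Real.pi / 2 := by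
    intro w hw
    rw [Complex.abs_arg_lt_pi_div_two_iff]
    left
    rw [Complex.mul_re, Complex.I_re, Complex.I_im, pos_sub_im]
    have h2 : ht w - ht z < 0 := by unfold ht; omega
    have h3 : ((ht w - ht z : ℤ) : ℝ) < 0 := by exact_mod_cast h2
    linarith
  have h2 := hg p hp
  have h3 := hg q hq
  have hpi := Real.pi_pos
  rw [abs_lt] at h1 h2 h3 ⊢
  constructor <;> linarith [h1.1, h1.2, h2.1, h2.2, h3.1, h3.2]

/-- all vertices are above the row of `z` -/
theorem step_down {z p q : V} (h : Adj q p) (hp : z.2 < p.2) (hq : z.2 < q.2) :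
    ang z p q = arg (-I * (pos p - pos z)) - arg (-I * (pos q - pos z)) := by
  have hp0 : p ≠ z := by rintro rfl; omega
  have hq0 : q ≠ z := by rintro rfl; omega
  apply ang_kappa (z := z) (p := p) (q := q) (-I) (neg_ne_zero.mpr I_ne_zero) hp0 hq0
  have h1 := abs_ang_lt (adj_symm h) hp0 hq0
  have hg : ∀ w : V, z.2 < w.2 → |arg (-I * (pos w - pos z))| < Real.pi / 2 := by
    intro w hw
    rw [Complex.abs_arg_lt_pi_div_two_iff]
    left
    rw [Complex.mul_re, Complex.neg_re, Complex.neg_im, Complex.I_re, Complex.I_im, pos_sub_im]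
    have h2 : 0 < ht w - ht z := by unfold ht; omega
    have h3 : (0 : ℝ) < ((ht w - ht z : ℤ) : ℝ) := by exact_mod_cast h2
    linarith
  have h2 := hg p hp
  have h3 := hg q hq
  have hpi := Real.pi_pos
  rw [abs_lt] at h1 h2 h3 ⊢
  constructor <;> linarith [h1.1, h1.2, h2.1, h2.2, h3.1, h3.2]

/-! ### Explicit arguments -/

theorem arg_plus : arg ⟨Real.sqrt 3 / 2, 1 / 2⟩ = Real.pi / 6 := by
  have e : (⟨Real.sqrt 3 / 2, 1 / 2⟩ : ℂ) =
      ((Real.cos (Real.pi / 6) : ℝ) : ℂ) + ((Real.sin (Real.pi / 6) : ℝ) : ℂ) * I := by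
    apply Complex.ext
    · simp
    · simp
  rw [e, Complex.ofReal_cos, Complex.ofReal_sin]
  apply Complex.arg_cos_add_sin_mul_I
  constructor <;> linarith [Real.pi_pos]

theorem arg_minus : arg ⟨Real.sqrt 3 / 2, -1 / 2⟩ = -(Real.pi / 6) := by
  have e : (⟨Real.sqrt 3 / 2, -1 / 2⟩ : ℂ) =
      ((Real.cos (-(Real.pi / 6)) : ℝ) : ℂ) + ((Real.sin (-(Real.pi / 6)) : ℝ) : ℂ) * I := by
    apply Complex.ext
    · simp
    · simp
      norm_num
  rw [e, Complex.ofReal_cos, Complex.ofReal_sin]
  apply Complex.arg_cos_add_sin_mul_I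
  constructor <;> linarith [Real.pi_pos]

/-- difference of positions -/
theorem pos_sub_eq {a b : V} {x h : ℤ} (h1 : a.1 - b.1 = x) (h2 : ht a - ht b = h) :
    pos a - pos b = ⟨Real.sqrt 3 / 2 * (x : ℝ), (h : ℝ) / 2⟩ := by
  apply Complex.ext
  · rw [pos_sub_re, h1]
  · rw [pos_sub_im, h2]

theorem arg_step_plus {a b : V} (h1 : a.1 - b.1 = 1) (h2 : ht a - ht b = 1) :
    arg (pos a - pos b) = Real.pi / 6 := by
  rw [pos_sub_eq h1 h2]
  have : (⟨Real.sqrt 3 / 2 * ((1 : ℤ) : ℝ), ((1 : ℤ) : ℝ) / 2⟩ : ℂ) = ⟨Real.sqrt 3 / 2, 1 / 2⟩ := by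
    push_cast
    rw [mul_one]
  rw [this, arg_plus]

theorem arg_step_minus {a b : V} (h1 : a.1 - b.1 = 1) (h2 : ht a - ht b = -1) :
    arg (pos a - pos b) = -(Real.pi / 6) := by
  rw [pos_sub_eq h1 h2]
  have : (⟨Real.sqrt 3 / 2 * ((1 : ℤ) : ℝ), ((-1 : ℤ) : ℝ) / 2⟩ : ℂ) =
      ⟨Real.sqrt 3 / 2, -1 / 2⟩ := by
    push_cast
    rw [mul_one]
  rw [this, arg_minus]

theorem arg_one_zero : arg (pos (1, 0)) = -(Real.pi / 6) := by
  have h := arg_step_minus (a := (1, 0)) (b := (0, 0)) (by simp) (by simp [ht])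
  rwa [pos_zero, sub_zero] at h

/-! ### Structure of walks -/

theorem Val_chain {Om : V → Prop} : ∀ {l : List V}, Val Om l →
    l.IsChain (fun x y => Adj y x) ∧ l.tail.Nodup ∧ (∀ v ∈ l.tail.dropLast, Om v) ∧
      ∃ M, l = M ++ [(1, 0), (0, 0)]
  | [], hl => hl.elim
  | [_], hl => hl.elim
  | [z, y], hl => by
    obtain ⟨rfl, rfl⟩ := hl
    refine ⟨?_, by simp, by simp, [], rfl⟩
    refine List.isChain_cons_cons.mpr ⟨?_, List.isChain_singleton _⟩
    rw [adj_iff]
    simp
  | z :: y :: x :: t, hl => by
    obtain ⟨h1, h2, h3, h4, h5⟩ := hl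
    obtain ⟨i1, i2, i3, M, i4⟩ := Val_chain h5
    refine ⟨List.isChain_cons_cons.mpr ⟨h1, i1⟩, ?_, ?_, z :: M, ?_⟩
    · simp only [List.tail_cons] at i2 ⊢
      exact List.nodup_cons.mpr ⟨h4, i2⟩
    · simp only [List.tail_cons] at i3 ⊢
      intro v hv
      rw [List.dropLast_cons_of_ne_nil (by simp)] at hv
      rcases List.mem_cons.1 hv with rfl | hv
      · exact h3
      · exact i3 v hv
    · rw [i4, List.cons_append]

/-- the data of a landing walk -/
theorem land_struct {Om : V → Prop} (h1 : Om (1, 0)) {l : List V} (hl : Val Om l)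
    (hz : ¬ Om (l.headD (0, 0))) :
    ∃ z v K, l = z :: v :: (K ++ [(0, 0)]) ∧ Adj v z ∧
      (v :: (K ++ [(0, 0)])).IsChain (fun x y => Adj y x) ∧
      (v :: (K ++ [(0, 0)])).Nodup ∧ (∀ w ∈ v :: K, Om w) ∧
      (v :: K).getLast (by simp) = (1, 0) ∧ (K = [] → z ≠ (0, 0)) := by
  match l, hl, hz with
  | [z, y], hl, hz =>
    obtain ⟨rfl, rfl⟩ := hl
    exact absurd h1 hz
  | z :: v :: x :: t, hl, hz =>
    obtain ⟨a1, a2, a3, a4, a5⟩ := hl
    obtain ⟨i1, i2, i3, M, i4⟩ := Val_chain a5
    simp only [List.tail_cons] at i2 i3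
    have hK : x :: t = (x :: t).dropLast ++ [(0, 0)] := by
      have e : (x :: t).getLast (by simp) = (0, 0) := by
        have e1 : (v :: x :: t).getLast (by simp) = (x :: t).getLast (by simp) :=
          List.getLast_cons (by simp)
        have e2 : (v :: x :: t).getLast (by simp) = (0, 0) := by
          simp only [i4]
          rw [List.getLast_append_of_ne_nil _ (by simp)]
          rfl
        rw [← e1, e2]
      have := List.dropLast_append_getLast (l := x :: t) (by simp)
      rw [e] at this
      exact this.symm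
    refine ⟨z, v, (x :: t).dropLast, ?_, a1, ?_, ?_, ?_, ?_, ?_⟩
    · rw [← hK]
    · rw [← hK]; exact i1
    · rw [← hK]; exact List.nodup_cons.mpr ⟨a4, i2⟩
    · intro w hw
      rcases List.mem_cons.1 hw with rfl | hw
      · exact a3
      · exact i3 w hw
    · have e3 : v :: (x :: t).dropLast = M ++ [(1, 0)] := by
        have e4 : (v :: (x :: t).dropLast) ++ [(0, 0)] = (M ++ [(1, 0)]) ++ [(0, 0)] := by
          rw [List.cons_append, ← hK, i4]
          simp
        exact List.append_cancel_right e4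
      simp only [e3]
      exact List.getLast_append_singleton M
    · intro h0 hz0
      rw [h0, List.nil_append] at hK
      have hx : x = (0, 0) := (List.cons.inj hK).1
      exact a2 (hz0.trans hx.symm)

/-- the Hopf formula for a landing walk which does not land at the origin -/
theorem land_formula {Om : V → Prop} (hO : ∀ v, Om v → ¬ Slit v) {z v : V} {K : List V}
    (h2 : Adj v z) (h3 : (v :: (K ++ [(0, 0)])).IsChain (fun x y => Adj y x))
    (h4 : (v :: (K ++ [(0, 0)])).Nodup) (h5 : ∀ w ∈ v :: K, Om w)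
    (h6 : (v :: K).getLast (by simp) = (1, 0)) (hz : ¬ Om z) (hz0 : z ≠ (0, 0)) :
    (W (z :: v :: (K ++ [(0, 0)])) : ℝ) * (Real.pi / 3) =
      ang (0, 0) z v + arg (pos v) + Real.pi / 6 + wind z (v :: (K ++ [(0, 0)])) := by
  have hc : (z :: ((v :: K) ++ [(0, 0)])).IsChain (fun x y => Adj y x) := by
    rw [List.cons_append]
    exact List.isChain_cons_cons.mpr ⟨h2, h3⟩
  have hn : (z :: ((v :: K) ++ [(0, 0)])).Nodup := by
    rw [List.cons_append]
    refine List.nodup_cons.mpr ⟨?_, h4⟩
    intro hm
    have : z ∈ (v :: K) ++ [(0, 0)] := hm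
    rcases List.mem_append.1 this with h | h
    · exact hz (h5 z h)
    · exact hz0 (List.mem_singleton.1 h)
  have h := hopf z (0, 0) (v :: K) hc hn
  have e : z :: ((v :: K) ++ [(0, 0)]) = z :: v :: (K ++ [(0, 0)]) := rfl
  have e' : (v :: K) ++ [(0, 0)] = v :: (K ++ [(0, 0)]) := rfl
  rw [e, e'] at h
  rw [h]
  have hcK : (v :: K).IsChain (fun x y => Adj y x) := by
    have : ((v :: K) ++ [(0, 0)]).IsChain (fun x y => Adj y x) := h3
    exact (List.isChain_append.mp this).1
  have h7 := wind_origin v K hcK (fun w hw => hO w (h5 w hw))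
  rw [h6, arg_one_zero] at h7
  have e2 : wind (0, 0) (z :: v :: K) = ang (0, 0) z v + wind (0, 0) (v :: K) := rfl
  rw [e2, h7]
  ring

theorem W_of {w k : ℤ} (h : (w : ℝ) * (Real.pi / 3) = (k : ℝ) * (Real.pi / 3)) : w = k := by
  have hpi : Real.pi / 3 ≠ 0 := by
    have := Real.pi_pos
    positivity
  have := mul_right_cancel₀ hpi h
  exact_mod_cast this

/-- the data of a landing walk (landing at `z`, coming from `v`) -/
structure LandD (Om : V → Prop) (z v : V) (K : List V) : Prop where
  h2 : Adj v z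
  h3 : (v :: (K ++ [(0, 0)])).IsChain (fun x y => Adj y x)
  h4 : (v :: (K ++ [(0, 0)])).Nodup
  h5 : ∀ w ∈ v :: K, Om w
  h6 : (v :: K).getLast (by simp) = (1, 0)
  hz : ¬ Om z
  h7 : K = [] → z ≠ (0, 0)

theorem last_zero (v : V) (K : List V) : (v :: (K ++ [(0, 0)])).getLast (by simp) = (0, 0) :=
  List.getLast_append_singleton (v :: K)

theorem mem_ext {Om S : V → Prop} {v : V} {K : List V} (h5 : ∀ w ∈ v :: K, Om w)
    (h : ∀ w, Om w → S w) (h0 : S (0, 0)) : ∀ w ∈ v :: (K ++ [(0, 0)]), S w := by
  intro w hw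
  have : w ∈ (v :: K) ++ [(0, 0)] := hw
  rcases List.mem_append.1 this with h' | h'
  · exact h w (h5 w h')
  · rw [List.mem_singleton.1 h']; exact h0

theorem land_right {Om : V → Prop} (hO : ∀ v, Om v → ¬ Slit v) {z v : V} {K : List V}
    (D : LandD Om z v K) (h1 : z.1 - v.1 = 1) (h2 : z.2 = v.2)
    (hrow : ∀ w, Om w → w.2 = z.2 → w.1 < z.1) :
    ((v.1 + v.2) % 2 = 1 → W (z :: v :: (K ++ [(0, 0)])) = 1) ∧
    ((v.1 + v.2) % 2 = 0 → W (z :: v :: (K ++ [(0, 0)])) = 0) := by
  have hOv := D.h5 v List.mem_cons_self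
  have hsv := hO v hOv
  have hzs : ¬ Slit z := by
    unfold Slit at hsv ⊢
    omega
  have hz0 : z ≠ (0, 0) := slit_ne hzs
  have hf := land_formula hO D.h2 D.h3 D.h4 D.h5 D.h6 D.hz hz0
  rw [ang_origin (adj_symm D.h2) hzs hsv] at hf
  have hw := wind_tel z (fun w => arg (pos z - pos w)) (fun w => w ≠ z ∧ (z.2 = w.2 → w.1 < z.1))
    (fun p q h hp hq => step_left h hp hq) v (K ++ [(0, 0)]) D.h3
    (mem_ext D.h5 (fun w hw => ⟨fun e => D.hz (e ▸ hw), fun e => hrow w hw e.symm⟩)
      ⟨hz0.symm, fun e => by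
        unfold Slit at hzs
        simp only at e ⊢
        omega⟩)
  rw [last_zero] at hw
  simp only [pos_zero, sub_zero] at hw
  rw [hw] at hf
  constructor
  · intro hodd
    apply W_of
    rw [hf, arg_step_plus h1 (by unfold ht; omega)]
    push_cast
    ring
  · intro heven
    apply W_of
    rw [hf, arg_step_minus h1 (by unfold ht; omega)]
    push_cast
    ring

theorem arg_neg_up {z : V} (h : 1 ≤ z.2) : arg (-pos z) = arg (pos z) - Real.pi :=
  Complex.arg_neg_eq_arg_sub_pi_of_im_pos (pos_im_pos h)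

theorem arg_neg_down {z : V} (h : z.2 ≤ -1) : arg (-pos z) = arg (pos z) + Real.pi :=
  Complex.arg_neg_eq_arg_add_pi_of_im_neg (pos_im_neg h)

theorem wind_right {Om : V → Prop} {z v : V} {K : List V}
    (D : LandD Om z v K) (hz0 : z ≠ (0, 0))
    (hrow : ∀ w, Om w → w.2 = z.2 → z.1 < w.1) (h0 : 0 = z.2 → z.1 < 0) :
    wind z (v :: (K ++ [(0, 0)])) = arg (pos v - pos z) - arg (-pos z) := by
  have hw := wind_tel z (fun w => arg (pos w - pos z)) (fun w => w ≠ z ∧ (w.2 = z.2 → z.1 < w.1))
    (fun p q h hp hq => step_right h hp hq) v (K ++ [(0, 0)]) D.h3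
    (mem_ext D.h5 (fun w hw => ⟨fun e => D.hz (e ▸ hw), fun e => hrow w hw e⟩)
      ⟨hz0.symm, fun e => h0 e⟩)
  rw [last_zero] at hw
  simp only [pos_zero, zero_sub] at hw
  exact hw

theorem land_left_up {Om : V → Prop} (hO : ∀ v, Om v → ¬ Slit v) {z v : V} {K : List V}
    (D : LandD Om z v K) (h1 : v.1 - z.1 = 1) (h2 : z.2 = v.2) (hr : 1 ≤ z.2)
    (hrow : ∀ w, Om w → w.2 = z.2 → z.1 < w.1) :
    ((v.1 + v.2) % 2 = 0 → W (z :: v :: (K ++ [(0, 0)])) = 4) ∧
    ((v.1 + v.2) % 2 = 1 → W (z :: v :: (K ++ [(0, 0)])) = 3) := by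
  have hOv := D.h5 v List.mem_cons_self
  have hsv := hO v hOv
  have hzs : ¬ Slit z := by
    unfold Slit
    omega
  have hz0 : z ≠ (0, 0) := slit_ne hzs
  have hf := land_formula hO D.h2 D.h3 D.h4 D.h5 D.h6 D.hz hz0
  rw [ang_origin (adj_symm D.h2) hzs hsv, wind_right D hz0 hrow (fun e => by omega),
    arg_neg_up hr] at hf
  constructor
  · intro heven
    apply W_of
    rw [hf, arg_step_plus h1 (by unfold ht; omega)]
    push_cast
    ring
  · intro hodd
    apply W_of
    rw [hf, arg_step_minus h1 (by unfold ht; omega)]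
    push_cast
    ring

theorem land_left_down {Om : V → Prop} (hO : ∀ v, Om v → ¬ Slit v) {z v : V} {K : List V}
    (D : LandD Om z v K) (h1 : v.1 - z.1 = 1) (h2 : z.2 = v.2) (hr : z.2 ≤ -1)
    (hrow : ∀ w, Om w → w.2 = z.2 → z.1 < w.1) :
    ((v.1 + v.2) % 2 = 0 → W (z :: v :: (K ++ [(0, 0)])) = -2) ∧
    ((v.1 + v.2) % 2 = 1 → W (z :: v :: (K ++ [(0, 0)])) = -3) := by
  have hOv := D.h5 v List.mem_cons_self
  have hsv := hO v hOv
  have hzs : ¬ Slit z := by
    unfold Slit
    omega
  have hz0 : z ≠ (0, 0) := slit_ne hzs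
  have hf := land_formula hO D.h2 D.h3 D.h4 D.h5 D.h6 D.hz hz0
  rw [ang_origin (adj_symm D.h2) hzs hsv, wind_right D hz0 hrow (fun e => by omega),
    arg_neg_down hr] at hf
  constructor
  · intro heven
    apply W_of
    rw [hf, arg_step_plus h1 (by unfold ht; omega)]
    push_cast
    ring
  · intro hodd
    apply W_of
    rw [hf, arg_step_minus h1 (by unfold ht; omega)]
    push_cast
    ring

/-- vertical steps -/
theorem vert_up {z v : V} (h : Adj v z) (h1 : z.1 = v.1) (h2 : z.2 = v.2 + 1) :
    pos v - pos z = -I := by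
  rw [adj_iff] at h
  rw [pos_sub_eq (x := 0) (h := -2) (by omega) (by unfold ht; omega)]
  apply Complex.ext
  · simp
  · simp

theorem vert_down {z v : V} (h : Adj v z) (h1 : z.1 = v.1) (h2 : z.2 = v.2 - 1) :
    pos v - pos z = I := by
  rw [adj_iff] at h
  rw [pos_sub_eq (x := 0) (h := 2) (by omega) (by unfold ht; omega)]
  apply Complex.ext
  · simp
  · simp

theorem arg_rot_up {u : ℂ} (h : 0 < u.im) : arg (-I * u) = arg u - Real.pi / 2 := by
  have hu : u ≠ 0 := by rintro rfl; simp at h
  have h1 : 0 ≤ arg u := Complex.arg_nonneg_iff.mpr h.le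
  have h2 := Complex.arg_le_pi u
  rw [Complex.arg_mul (neg_ne_zero.mpr I_ne_zero) hu, Complex.arg_neg_I]
  · ring
  · rw [Complex.arg_neg_I]
    constructor <;> linarith [Real.pi_pos]

theorem arg_rot_down {u : ℂ} (h : u.im < 0) : arg (I * u) = arg u + Real.pi / 2 := by
  have hu : u ≠ 0 := by rintro rfl; simp at h
  have h1 : arg u < 0 := Complex.arg_neg_iff.mpr h
  have h2 := Complex.neg_pi_lt_arg u
  rw [Complex.arg_mul I_ne_zero hu, Complex.arg_I]
  · ring
  · rw [Complex.arg_I]
    constructor <;> linarith [Real.pi_pos]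

theorem land_up {Om : V → Prop} (hO : ∀ v, Om v → ¬ Slit v) {z v : V} {K : List V}
    (D : LandD Om z v K) (h1 : z.1 = v.1) (h2 : z.2 = v.2 + 1) (hr : 1 ≤ z.2)
    (hrow : ∀ w, Om w → w.2 < z.2) : W (z :: v :: (K ++ [(0, 0)])) = 2 := by
  have hOv := D.h5 v List.mem_cons_self
  have hsv := hO v hOv
  have hzs : ¬ Slit z := by
    unfold Slit
    omega
  have hz0 : z ≠ (0, 0) := slit_ne hzs
  have hf := land_formula hO D.h2 D.h3 D.h4 D.h5 D.h6 D.hz hz0
  rw [ang_origin (adj_symm D.h2) hzs hsv] at hf
  have hw := wind_tel z (fun w => arg (I * (pos w - pos z))) (fun w => w.2 < z.2)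
    (fun p q h hp hq => step_up h hp hq) v (K ++ [(0, 0)]) D.h3
    (mem_ext D.h5 hrow (by simp only; omega))
  rw [last_zero] at hw
  simp only [pos_zero, zero_sub] at hw
  have e1 : I * (pos v - pos z) = 1 := by
    rw [vert_up D.h2 h1 h2, mul_neg, I_mul_I, neg_neg]
  have e2 : I * (-pos z) = -I * pos z := by ring
  rw [hw, e1, e2, Complex.arg_one, arg_rot_up (pos_im_pos hr)] at hf
  apply W_of
  rw [hf]
  push_cast
  ring

theorem land_down {Om : V → Prop} (hO : ∀ v, Om v → ¬ Slit v) {z v : V} {K : List V}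
    (D : LandD Om z v K) (h1 : z.1 = v.1) (h2 : z.2 = v.2 - 1) (hr : z.2 ≤ -1)
    (hrow : ∀ w, Om w → z.2 < w.2) : W (z :: v :: (K ++ [(0, 0)])) = -1 := by
  have hOv := D.h5 v List.mem_cons_self
  have hsv := hO v hOv
  have hzs : ¬ Slit z := by
    unfold Slit
    omega
  have hz0 : z ≠ (0, 0) := slit_ne hzs
  have hf := land_formula hO D.h2 D.h3 D.h4 D.h5 D.h6 D.hz hz0
  rw [ang_origin (adj_symm D.h2) hzs hsv] at hf
  have hw := wind_tel z (fun w => arg (-I * (pos w - pos z))) (fun w => z.2 < w.2)
    (fun p q h hp hq => step_down h hp hq) v (K ++ [(0, 0)]) D.h3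
    (mem_ext D.h5 hrow (by simp only; omega))
  rw [last_zero] at hw
  simp only [pos_zero, zero_sub] at hw
  have e1 : -I * (pos v - pos z) = 1 := by
    rw [vert_down D.h2 h1 h2, neg_mul, I_mul_I, neg_neg]
  have e2 : -I * (-pos z) = I * pos z := by ring
  rw [hw, e1, e2, Complex.arg_one, arg_rot_down (pos_im_neg hr)] at hf
  apply W_of
  rw [hf]
  push_cast
  ring

/-- landing on the slit from above -/
theorem land_slit_above {Om : V → Prop} (hO : ∀ v, Om v → ¬ Slit v) {z v : V} {K : List V}
    (D : LandD Om z v K) (h1 : z.1 = v.1) (h2 : z.2 = v.2 - 1) (hs : Slit z)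
    (hz0 : z ≠ (0, 0)) : W (z :: v :: (K ++ [(0, 0)])) = 5 := by
  have hOv := D.h5 v List.mem_cons_self
  obtain ⟨s1, s2⟩ := hs
  have hneg : z.1 < 0 := by
    rcases s2.lt_or_eq with h | h
    · exact h
    · exact absurd (Prod.ext h s1) hz0
  have hf := land_formula hO D.h2 D.h3 D.h4 D.h5 D.h6 D.hz hz0
  have hadj := D.h2
  rw [adj_iff] at hadj
  have hpz : pos z = (((Real.sqrt 3 / 2 * (z.1 : ℝ) : ℝ)) : ℂ) := by
    have := pos_sub_eq (a := z) (b := (0, 0)) (x := z.1) (h := 0) (by simp) (by
      unfold ht; simp only; omega)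
    rw [pos_zero, sub_zero] at this
    rw [this]
    apply Complex.ext <;> simp
  have hneg' : Real.sqrt 3 / 2 * (z.1 : ℝ) < 0 := by
    have h3 : (z.1 : ℝ) < 0 := by exact_mod_cast hneg
    have h4 : 0 < Real.sqrt 3 := Real.sqrt_pos.mpr (by norm_num)
    nlinarith
  have ha1 : arg (pos z) = Real.pi := by
    rw [hpz]; exact Complex.arg_ofReal_of_neg hneg'
  have ha2 : arg (-pos z) = 0 := by
    rw [hpz, ← Complex.ofReal_neg]
    exact Complex.arg_ofReal_of_nonneg (by linarith)
  have hang : ang (0, 0) z v = arg (pos z) - arg (pos v) := by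
    have key := ang_kappa (z := (0, 0)) (p := z) (q := v) 1 one_ne_zero hz0
      (slit_ne (hO v hOv))
    rw [one_mul, one_mul, pos_zero, sub_zero, sub_zero] at key
    apply key
    have a1 := abs_ang_lt (adj_symm D.h2) hz0 (slit_ne (hO v hOv))
    have hpi := Real.pi_pos
    rcases arg_region (hO v hOv) with ⟨b1, b2, b3⟩ | ⟨b1, b2, b3⟩ | ⟨b1, b2, b3⟩
    · rw [ha1]
      rw [abs_lt] at a1 ⊢
      constructor <;> linarith [a1.1, a1.2]
    · exfalso; omega
    · exfalso; omega
  rw [hang, wind_right D hz0 (fun w hw e => by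
      have h3 := hO w hw
      unfold Slit at h3
      omega) (fun _ => hneg), ha2, ha1, vert_down D.h2 h1 h2, Complex.arg_I] at hf
  apply W_of
  rw [hf]
  push_cast
  ring

/-- landing on the slit from below -/
theorem land_slit_below {Om : V → Prop} (hO : ∀ v, Om v → ¬ Slit v) {z v : V} {K : List V}
    (D : LandD Om z v K) (h1 : z.1 = v.1) (h2 : z.2 = v.2 + 1) (hs : Slit z) :
    W (z :: v :: (K ++ [(0, 0)])) = -4 := by
  have hOv := D.h5 v List.mem_cons_self
  obtain ⟨s1, s2⟩ := hs
  have hadj := D.h2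
  rw [adj_iff] at hadj
  have hneg : z.1 < 0 := by omega
  have hz0 : z ≠ (0, 0) := by
    intro e
    rw [e] at hneg
    simp at hneg
  have hf := land_formula hO D.h2 D.h3 D.h4 D.h5 D.h6 D.hz hz0
  have him : (pos z).im < 0 := by
    have h3 : ht z < 0 := by unfold ht; omega
    have h4 : (ht z : ℝ) < 0 := by exact_mod_cast h3
    change (ht z : ℝ) / 2 < 0
    linarith
  have ha1 : arg (pos z) < 0 := Complex.arg_neg_iff.mpr him
  have ha2 : arg (-pos z) = arg (pos z) + Real.pi :=
    Complex.arg_neg_eq_arg_add_pi_of_im_neg him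
  have ha3 := Complex.neg_pi_lt_arg (pos z)
  have hang : ang (0, 0) z v = arg (pos z) - arg (pos v) := by
    have key := ang_kappa (z := (0, 0)) (p := z) (q := v) 1 one_ne_zero hz0
      (slit_ne (hO v hOv))
    rw [one_mul, one_mul, pos_zero, sub_zero, sub_zero] at key
    apply key
    have a1 := abs_ang_lt (adj_symm D.h2) hz0 (slit_ne (hO v hOv))
    have hpi := Real.pi_pos
    rcases arg_region (hO v hOv) with ⟨b1, b2, b3⟩ | ⟨b1, b2, b3⟩ | ⟨b1, b2, b3⟩
    · exfalso; omega
    · exfalso; omega
    · rw [abs_lt] at a1 ⊢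
      constructor <;> linarith [a1.1, a1.2]
  rw [hang, wind_right D hz0 (fun w hw e => by
      have h3 := hO w hw
      unfold Slit at h3
      omega) (fun _ => hneg), ha2, vert_up D.h2 h1 h2, Complex.arg_neg_I] at hf
  apply W_of
  rw [hf]
  push_cast
  ring

/-- adding a vertex at the end of a reversed path -/
theorem W_append_end (L : List V) (a c q : V) :
    W (L ++ [a, c, q]) = W (L ++ [a, c]) + turn q c a := by
  induction L with
  | nil => simp [W]
  | cons x L ih =>
    cases L with
    | nil => simp [W]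
    | cons y L =>
      cases L with
      | nil =>
        have e1 : W ([x, y] ++ [a, c, q]) = turn a y x + W ([y] ++ [a, c, q]) := rfl
        have e2 : W ([x, y] ++ [a, c]) = turn a y x + W ([y] ++ [a, c]) := rfl
        rw [e1, e2, ih]
        ring
      | cons z L =>
        have e1 : W ((x :: y :: z :: L) ++ [a, c, q]) =
          turn z y x + W ((y :: z :: L) ++ [a, c, q]) := rfl
        have e2 : W ((x :: y :: z :: L) ++ [a, c]) =
          turn z y x + W ((y :: z :: L) ++ [a, c]) := rfl
        rw [e1, e2, ih]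
        ring

/-- landing at the origin -/
theorem land_zero {Om : V → Prop} (hO : ∀ v, Om v → ¬ Slit v) {z v : V} {K : List V}
    (D : LandD Om z v K) (hz0 : z = (0, 0)) : W (z :: v :: (K ++ [(0, 0)])) = 5 := by
  subst hz0
  have hK : K ≠ [] := fun e => D.h7 e rfl
  obtain ⟨M, hM⟩ : ∃ M, K = M ++ [(1, 0)] := by
    refine ⟨K.dropLast, ?_⟩
    have e := D.h6
    have e1 : (v :: K).getLast (by simp) = K.getLast hK := List.getLast_cons hK
    rw [e1] at e
    have := List.dropLast_append_getLast hK
    rw [e] at this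
    exact this.symm
  have hS : ∀ w ∈ v :: (K ++ [(0, 0)]),
      (fun w : V => w ≠ (-1, 0) ∧ (w.2 = ((-1, 0) : V).2 → ((-1, 0) : V).1 < w.1)) w := by
    refine mem_ext D.h5 ?_ ?_
    · intro w hw
      have h3 := hO w hw
      unfold Slit at h3
      refine ⟨?_, ?_⟩
      · rintro rfl
        exact h3 ⟨rfl, by norm_num⟩
      · intro e
        simp only at e ⊢
        omega
    · refine ⟨by simp, fun _ => by norm_num⟩
  have e0 : (v :: (M ++ [(1, 0), (0, 0), (-1, 0)])) = (v :: (K ++ [(0, 0)])) ++ [(-1, 0)] := by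
    rw [hM]; simp
  have e0' : (v :: (M ++ [(1, 0), (0, 0)])) = v :: (K ++ [(0, 0)]) := by
    rw [hM]; simp
  have hadj0 : Adj (-1, 0) (0, 0) := by rw [adj_iff]; simp
  have hc : (v :: (M ++ [(1, 0), (0, 0), (-1, 0)])).IsChain (fun x y => Adj y x) := by
    rw [e0]
    refine List.isChain_append.mpr ⟨D.h3, List.isChain_singleton _, ?_⟩
    intro x hx y hy
    have hx' : x = (0, 0) := by
      rw [List.getLast?_eq_getLast_of_ne_nil (by simp), Option.mem_some_iff] at hx
      rw [← hx]
      exact last_zero v K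
    have hy' : y = (-1, 0) := by simpa using hy.symm
    rw [hx', hy']
    exact hadj0
  have hn : (v :: (M ++ [(1, 0), (0, 0), (-1, 0)])).Nodup := by
    rw [e0]
    rw [List.nodup_append]
    refine ⟨D.h4, List.nodup_singleton _, ?_⟩
    intro a ha b hb
    rw [List.mem_singleton.1 hb]
    exact (hS a ha).1
  have hl := lasso (-1, 0) (0, 0) (1, 0) v M hc hn D.h2
  have hw := wind_tel (-1, 0) (fun w => arg (pos w - pos (-1, 0)))
    (fun w : V => w ≠ (-1, 0) ∧ (w.2 = ((-1, 0) : V).2 → ((-1, 0) : V).1 < w.1))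
    (fun p q h hp hq => step_right h hp hq) v (K ++ [(0, 0)]) D.h3 hS
  rw [last_zero] at hw
  have hw2 : ang (-1, 0) (0, 0) v = arg (pos (0, 0) - pos (-1, 0)) - arg (pos v - pos (-1, 0)) :=
    step_right (z := (-1, 0)) (p := (0, 0)) (q := v) D.h2
      (hS (0, 0) (by simp)) (hS v List.mem_cons_self)
  rw [e0', hw, hw2] at hl
  have ht1 : turn (-1, 0) (0, 0) (1, 0) = -1 := by decide
  have hWa := W_append_end ((0, 0) :: v :: M) (1, 0) (0, 0) (-1, 0)
  have e1 : ((0, 0) :: v :: M) ++ [(1, 0), (0, 0), (-1, 0)] =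
    (0, 0) :: v :: (M ++ [(1, 0), (0, 0), (-1, 0)]) := rfl
  have e2 : ((0, 0) :: v :: M) ++ [(1, 0), (0, 0)] = (0, 0) :: v :: (K ++ [(0, 0)]) := by
    rw [← e0']; rfl
  rw [e1, e2, ht1] at hWa
  rw [hWa, ht1] at hl
  have hfin : W ((0, 0) :: v :: (K ++ [(0, 0)])) + -1 = 4 := by
    apply W_of
    rw [hl]
    push_cast
    ring
  omega

/-! ### The classification -/

theorem classify {Om : V → Prop} [DecidablePred Om] (h1 : Om (1, 0)) {m : ℕ} {l : List V}
    (hl : l ∈ P Om m) (hz : ¬ Om (l.headD (0, 0))) :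
    ∃ z v K, l = z :: v :: (K ++ [(0, 0)]) ∧ LandD Om z v K := by
  obtain ⟨z, v, K, e, a1, a2, a3, a4, a5, a6⟩ := land_struct h1 (mem_P.1 hl).1 hz
  refine ⟨z, v, K, e, a1, a2, a3, a4, a5, ?_, a6⟩
  rw [e] at hz
  exact hz

theorem class_slit (m : ℕ) (l : List V) (hl : l ∈ P SlitPlane m)
    (h : ¬ SlitPlane (l.headD (0, 0))) : W l = 5 ∨ W l = -4 := by
  have hO : ∀ v, SlitPlane v → ¬ Slit v := fun v hv => hv
  obtain ⟨z, v, K, rfl, D⟩ := classify (by unfold SlitPlane Slit; simp) hl h
  have hs : Slit z := by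
    by_contra hc
    exact D.hz hc
  by_cases hz0 : z = (0, 0)
  · exact Or.inl (land_zero hO D hz0)
  · have hv := hO v (D.h5 v List.mem_cons_self)
    have ha := D.h2
    have hs' := hs
    have hz1 : z.1 ≠ 0 := fun e => hz0 (Prod.ext e hs.1)
    rw [adj_iff] at ha
    unfold Slit at hv hs'
    rcases ha with ha | ha | ha | ha
    · exfalso; omega
    · exfalso; omega
    · exact Or.inr (land_slit_below hO D (by omega) (by omega) hs)
    · exact Or.inl (land_slit_above hO D (by omega) (by omega) hs hz0)

theorem class_om (p : Par) (hp : Ok p) (m : ℕ) (l : List V) (hl : l ∈ P (Om p) m)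
    (h : ¬ Om p (l.headD (0, 0))) : Out p (W l) (l.headD (0, 0)) := by
  have hO : ∀ v, Om p v → ¬ Slit v := by
    intro v hv hs
    obtain ⟨-, -, -, -, -, o6, -⟩ := hv
    have := o6 hs.1
    have := hs.2
    omega
  obtain ⟨hb, hd, ha4, hc3, ha2, hc1, hR, hQ, b1, d2, a42, c31, a20, c11⟩ := hp
  have hbase : Om p (1, 0) := by
    refine ⟨hR, by simp only; omega, by simp only; omega, by simp only; omega, ?_, ?_, ?_⟩
    · intro h; simp only at h; omega
    · intro _; exact le_refl _
    · intro h; simp only at h; omega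
  obtain ⟨z, v, K, rfl, D⟩ := classify hbase hl h
  clear hl h
  have hOv := D.h5 v List.mem_cons_self
  have hz := D.hz
  have ha := D.h2
  rw [adj_iff] at ha
  simp only [List.headD_cons]
  by_cases hs : Slit z
  · by_cases hz0 : z = (0, 0)
    · left
      exact ⟨land_zero hO D hz0, hs⟩
    · have hv := hO v hOv
      have hs1 := hs.1
      have hs2 := hs.2
      have hz1 : z.1 ≠ 0 := fun e => hz0 (Prod.ext e hs.1)
      unfold Slit at hv
      clear hOv hz
      rcases ha with ha | ha | ha | ha
      · exfalso; omega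
      · exfalso; omega
      · exact Or.inr (Or.inl ⟨land_slit_below hO D (by omega) (by omega) hs, hs⟩)
      · exact Or.inl ⟨land_slit_above hO D (by omega) (by omega) hs hz0, hs⟩
  · unfold Slit at hs
    obtain ⟨o1, o2, o3, o4, o5, o6, o7⟩ := hOv
    rcases ha with ha | ha | ha | ha
    · -- right landing
      have e1 : z.1 = v.1 + 1 := by clear o5 o6 o7 hs; omega
      have e2 : z.2 = v.2 := by clear o5 o6 o7 hs; omega
      have viol : p.b < z.1 + z.2 ∨ p.d < z.1 - z.2 := by
        by_contra hc
        rw [not_or, not_lt, not_lt] at hc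
        apply hz
        refine ⟨by rw [e2]; exact o1, by rw [e2]; exact o2, hc.1, hc.2, ?_, ?_, ?_⟩
        · intro h
          rw [e2] at h
          have := o5 h
          rw [e1, e2]
          constructor
          · linarith [this.1]
          · linarith [this.2]
        · intro h
          rw [e2] at h
          have := o6 h
          rw [e1]
          linarith
        · intro h
          rw [e2] at h
          have := o7 h
          rw [e1, e2]
          constructor
          · linarith [this.1]
          · linarith [this.2]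
      have hrow : ∀ w, Om p w → w.2 = z.2 → w.1 < z.1 := by
        intro w hw e
        obtain ⟨-, -, w3, w4, -, -, -⟩ := hw
        rcases viol with h | h
        · linarith
        · linarith
      have hL := land_right hO D (by linarith) e2 hrow
      clear o5 o6 o7 hs hz hrow
      rcases Int.emod_two_eq_zero_or_one (v.1 + v.2) with hpar | hpar
      · have := hL.2 hpar
        right; right; right; right; right; right; left
        refine ⟨this, ?_⟩
        clear hL
        rcases viol with h | h
        · omega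
        · exact h
      · have := hL.1 hpar
        right; right; right; right; right; left
        refine ⟨this, ?_⟩
        clear hL
        rcases viol with h | h
        · exact h
        · omega
    · -- left landing
      have e1 : v.1 - z.1 = 1 := by clear o5 o6 o7 hs; omega
      have e2 : z.2 = v.2 := by clear o5 o6 o7 hs; omega
      rcases lt_trichotomy z.2 0 with hr | hr | hr
      · have viol : z.1 + z.2 < p.a2 ∨ z.1 - z.2 < p.c1 := by
          by_contra hc
          rw [not_or, not_lt, not_lt] at hc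
          apply hz
          refine ⟨by rw [e2]; exact o1, by rw [e2]; exact o2, by linarith, by linarith, ?_, ?_, ?_⟩
          · intro h; linarith
          · intro h; linarith
          · intro _; exact hc
        have hrow : ∀ w, Om p w → w.2 = z.2 → z.1 < w.1 := by
          intro w hw e
          obtain ⟨-, -, -, -, -, -, w7⟩ := hw
          have := w7 (by linarith)
          rcases viol with h | h
          · linarith [this.1]
          · linarith [this.2]
        have hL := land_left_down hO D e1 e2 (by linarith) hrow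
        have o7' := o7 (by linarith)
        clear o5 o6 o7 hs hz hrow
        rcases Int.emod_two_eq_zero_or_one (v.1 + v.2) with hpar | hpar
        · have := hL.1 hpar
          right; right; right; right; right; right; right; right; left
          refine ⟨this, by linarith, ?_⟩
          clear hL
          rcases viol with h | h
          · exact h
          · omega
        · have := hL.2 hpar
          right; right; right; right; right; right; right; right; right
          refine ⟨this, by linarith, ?_⟩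
          clear hL
          rcases viol with h | h
          · omega
          · exact h
      · exfalso
        apply hz
        refine ⟨by rw [e2]; exact o1, by rw [e2]; exact o2, by linarith, by linarith, ?_, ?_, ?_⟩
        · intro h; linarith
        · intro _
          clear o5 o6 o7
          omega
        · intro h; linarith
      · have viol : z.1 + z.2 < p.a4 ∨ z.1 - z.2 < p.c3 := by
          by_contra hc
          rw [not_or, not_lt, not_lt] at hc
          apply hz
          refine ⟨by rw [e2]; exact o1, by rw [e2]; exact o2, by linarith, by linarith, ?_, ?_, ?_⟩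
          · intro _; exact hc
          · intro h; linarith
          · intro h; linarith
        have hrow : ∀ w, Om p w → w.2 = z.2 → z.1 < w.1 := by
          intro w hw e
          obtain ⟨-, -, -, -, w5, -, -⟩ := hw
          have := w5 (by linarith)
          rcases viol with h | h
          · linarith [this.1]
          · linarith [this.2]
        have hL := land_left_up hO D e1 e2 (by linarith) hrow
        have o5' := o5 (by linarith)
        clear o5 o6 o7 hs hz hrow
        rcases Int.emod_two_eq_zero_or_one (v.1 + v.2) with hpar | hpar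
        · have := hL.1 hpar
          right; right; left
          refine ⟨this, by linarith, ?_⟩
          clear hL
          rcases viol with h | h
          · exact h
          · omega
        · have := hL.2 hpar
          right; right; right; left
          refine ⟨this, by linarith, ?_⟩
          clear hL
          rcases viol with h | h
          · omega
          · exact h
    · -- up landing
      have e1 : z.1 = v.1 := by clear o5 o6 o7 hs; omega
      have e2 : z.2 = v.2 + 1 := by clear o5 o6 o7 hs; omega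
      have e3 : (v.1 + v.2) % 2 = 0 := ha.2.2
      have viol : p.R < z.2 := by
        by_contra hc
        rw [not_lt] at hc
        apply hz
        refine ⟨hc, by linarith, ?_, by linarith, ?_, ?_, ?_⟩
        · clear o5 o6 o7 hs; omega
        · intro h
          rcases (by linarith : 0 ≤ v.2).lt_or_eq with h0 | h0
          · have o5' := o5 (by linarith)
            clear o5 o6 o7 hs
            constructor <;> omega
          · have o6' := o6 h0.symm
            clear o5 o6 o7 hs
            constructor <;> omega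
        · intro h
          clear o5 o6 o7
          omega
        · intro h
          have o7' := o7 (by linarith)
          clear o5 o6 o7 hs
          constructor <;> omega
      have hL := land_up hO D e1 e2 (by linarith) (by
        intro w hw
        have := hw.1
        linarith)
      right; right; right; right; left
      exact ⟨hL, viol⟩
    · -- down landing
      have e1 : z.1 = v.1 := by clear o5 o6 o7 hs; omega
      have e2 : z.2 = v.2 - 1 := by clear o5 o6 o7 hs; omega
      have e3 : (z.1 + z.2) % 2 = 0 := ha.2.2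
      have viol : z.2 < -p.Q := by
        by_contra hc
        rw [not_lt] at hc
        apply hz
        refine ⟨by linarith, hc, by linarith, ?_, ?_, ?_, ?_⟩
        · clear o5 o6 o7 hs; omega
        · intro h
          have o5' := o5 (by linarith)
          clear o5 o6 o7 hs
          constructor <;> omega
        · intro h
          clear o5 o6 o7
          omega
        · intro h
          rcases (by linarith : v.2 ≤ 0).lt_or_eq with h0 | h0
          · have o7' := o7 (by linarith)
            clear o5 o6 o7 hs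
            constructor <;> omega
          · have o6' := o6 h0
            clear o5 o6 o7 hs
            constructor <;> omega
      have hL := land_down hO D e1 e2 (by linarith) (by
        intro w hw
        have := hw.2.1
        linarith)
      right; right; right; right; right; right; right; left
      exact ⟨hL, viol⟩

end H978R2.Hex
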