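import Pool.Agent.H978R2.Hex.ValG
import Pool.Agent.H978R2.Hex.Lasso
import Pool.Agent.H978R2.Hex.WindZero

set_option autoImplicit false

/-! Trapped walks cancel in pairs. -/

namespace H978R2.Hex

open Complex

/-- decomposition of a trapped walk -/
theorem trap_decomp {Om : V → Prop} (hO : ∀ v, Om v → ¬ Slit v) {z : V} {t : List V}
    (h : Good Om z t) (hz : Om z) (hzt : z ∈ t) :
    ∃ e M a q B, t = (e :: (M ++ [a])) ++ z :: q :: B := by
  obtain ⟨A, B', hAB⟩ := List.append_of_mem hzt
  have hB' : B' ≠ [] := by
    rintro rfl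
    have := h.last
    rw [hAB] at this
    simp only [List.getLast?_append, List.getLast?_singleton, Option.some_or,
      Option.some.injEq] at this
    apply hO z hz
    rw [this]
    exact ⟨rfl, le_refl _⟩
  obtain ⟨q, B, rfl⟩ := List.exists_cons_of_ne_nil hB'
  match A, hAB with
  | [], hAB =>
    exfalso
    have hc := h.chain
    rw [hAB, List.nil_append, List.isChain_cons_cons] at hc
    exact adj_ne' hc.1 rfl
  | e :: A', hAB =>
    rcases List.eq_nil_or_concat A' with h1 | ⟨M, a, h1⟩
    · exfalso
      rw [h1] at hAB
      exact h.nb e z (q :: B) hAB rfl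
    · refine ⟨e, M, a, q, B, ?_⟩
      rw [hAB, h1, List.concat_eq_append]

/-- reversing the loop -/
theorem Good.rev {Om : V → Prop} {z e a q : V} {M B : List V}
    (h : Good Om z ((e :: (M ++ [a])) ++ z :: q :: B)) :
    Good Om z ((a :: (M.reverse ++ [e])) ++ z :: q :: B) := by
  have hrev : (a :: (M.reverse ++ [e])) = (e :: (M ++ [a])).reverse := by simp
  refine ⟨?_, ?_, ?_, ?_, ?_⟩
  · have h1 : [((1, 0) : V), (0, 0)] <:+ z :: q :: B := by
      refine List.suffix_of_suffix_length_le h.suff ?_ (by simp)
      rw [← List.cons_append]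
      exact List.suffix_append _ _
    refine h1.trans ?_
    rw [← List.cons_append]
    exact List.suffix_append _ _
  · have hc := h.chain
    rw [← List.cons_append, List.isChain_split] at hc
    rw [← List.cons_append, List.isChain_split]
    refine ⟨?_, hc.2⟩
    have h1 : (z :: (a :: (M.reverse ++ [e]))) ++ [z] = ((z :: (e :: (M ++ [a]))) ++ [z]).reverse := by
      simp
    rw [h1, List.isChain_reverse]
    exact hc.1.imp (fun a b hab => adj_symm' hab)
  · have h1 : ((a :: (M.reverse ++ [e])) ++ z :: q :: B).Perm
        ((e :: (M ++ [a])) ++ z :: q :: B) := by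
      rw [hrev]
      exact (List.reverse_perm _).append_right _
    exact h1.nodup_iff.2 h.nodup
  · intro v hv
    apply h.om
    rw [List.dropLast_append_cons] at hv ⊢
    rw [List.mem_append] at hv ⊢
    rcases hv with hv | hv
    · left
      rw [hrev, List.mem_reverse] at hv
      exact hv
    · right
      exact hv
  · intro y x r h1 h2
    have hz : z ∉ (e :: (M ++ [a])) := by
      intro hz
      have := h.nodup
      rw [List.nodup_append] at this
      exact this.2.2 z hz z (by simp) rfl
    apply hz
    have h3 : x ∈ (a :: (M.reverse ++ [e])) := by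
      simp only [List.cons_append, List.cons.injEq] at h1
      have h4 := h1.2
      cases hM : M.reverse with
      | nil =>
        rw [hM] at h4
        simp only [List.nil_append, List.cons_append, List.cons.injEq] at h4
        rw [← h4.1]
        simp
      | cons u M' =>
        rw [hM] at h4
        simp only [List.cons_append, List.cons.injEq] at h4
        rw [← h4.1]
        simp
    rw [hrev, List.mem_reverse] at h3
    rw [h2]
    exact h3

/-- total turning of a trapped walk -/
theorem W_trap {Om : V → Prop} (hO : ∀ v, Om v → ¬ Slit v) {z e a q : V} {M B : List V}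
    (h : Good Om z ((e :: (M ++ [a])) ++ z :: q :: B)) :
    W (z :: ((e :: (M ++ [a])) ++ z :: q :: B)) = W (z :: q :: B) - 4 * turn q z a := by
  have hc := h.chain
  have hn := h.nodup
  have hn2 := hn
  rw [List.nodup_append] at hn2
  have hc2 := hc
  rw [← List.cons_append, List.isChain_split] at hc2
  have hle : z :: ((e :: (M ++ [a])) ++ z :: q :: B) = (z :: e :: (M ++ [a])) ++ z :: q :: B := by
    simp
  rw [hle, W_append]
  have h1 : (z :: e :: (M ++ [a])) ++ [z, q] = z :: e :: (M ++ [a, z, q]) := by simp
  rw [h1]
  have hce : Adj e z := by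
    have := hc
    simp only [List.cons_append] at this
    rw [List.isChain_cons_cons] at this
    exact this.1
  have hc3 : (e :: (M ++ [a, z, q])).IsChain (fun x y => Adj y x) := by
    have h2 := hc
    have h3 : z :: ((e :: (M ++ [a])) ++ z :: q :: B) = [z] ++ (e :: (M ++ [a, z, q])) ++ B := by
      simp
    rw [h3] at h2
    exact (h2.left_of_append).right_of_append
  have hn3 : (e :: (M ++ [a, z, q])).Nodup := by
    have h3 : ((e :: (M ++ [a])) ++ z :: q :: B) = (e :: (M ++ [a, z, q])) ++ B := by
      simp
    rw [h3] at hn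
    exact hn.of_append_left
  have hl := lasso q z a e M hc3 hn3 hce
  have hloop : wind q (e :: ((M ++ [a]) ++ [z])) + ang q z e = 0 := by
    refine wind_loop_zero e z (M ++ [a]) B q ?_ hce ?_ ?_ ?_ ?_
    · have h3 : e :: (M ++ [a, z, q]) = (e :: ((M ++ [a]) ++ [z])) ++ [q] := by simp
      rw [h3] at hc3
      exact hc3.left_of_append
    · intro v hv
      apply hO
      have h3 : v ∈ ((e :: (M ++ [a])) ++ z :: q :: B).dropLast := by
        rw [List.dropLast_append_cons, List.dropLast_cons_cons]
        simp only [List.mem_cons, List.mem_append, List.not_mem_nil, or_false] at hv ⊢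
        tauto
      exact h.om v h3
    · have h3 := hc2.2
      rw [List.isChain_cons_cons] at h3
      exact h3.2
    · have h3 := h.last
      rw [List.getLast?_append] at h3
      have h4 : (z :: q :: B).getLast? = some ((q :: B).getLast (by simp)) := by
        rw [List.getLast?_cons_cons, List.getLast?_eq_some_getLast (by simp)]
      rw [h4] at h3
      simpa using h3
    · intro v hv hv2
      have h3 := hn2.2.2
      have h4 : z ∉ q :: B := (List.nodup_cons.1 hn2.2.1).1
      simp only [List.mem_cons, List.mem_append, List.not_mem_nil, or_false] at hv2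
      have h5 : v ∈ z :: q :: B := List.mem_cons_of_mem _ hv
      rcases hv2 with hv2 | (hv2 | hv2) | hv2
      · exact h3 v (by simp [hv2]) v h5 rfl
      · exact h3 v (by simp [hv2]) v h5 rfl
      · exact h3 v (by simp [hv2]) v h5 rfl
      · apply h4
        rw [← hv2]
        exact hv
  have h5 : (e :: ((M ++ [a]) ++ [z])) = e :: (M ++ [a, z]) := by simp
  rw [h5] at hloop
  rw [hloop] at hl
  have hpi : Real.pi / 3 ≠ 0 := by positivity
  have h6 : (W (z :: e :: (M ++ [a, z, q])) : ℝ) = ((-4 * turn q z a : ℤ) : ℝ) := by
    have : (W (z :: e :: (M ++ [a, z, q])) : ℝ) * (Real.pi / 3) =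
        ((-4 * turn q z a : ℤ) : ℝ) * (Real.pi / 3) := by
      rw [hl]
      push_cast
      ring
    exact mul_right_cancel₀ hpi this
  have h7 : W (z :: e :: (M ++ [a, z, q])) = -4 * turn q z a := by exact_mod_cast h6
  rw [h7]
  ring

/-- reversing the loop of a trapped walk -/
def inv : List V → List V
  | z :: r => z :: ((r.takeWhile (fun v => decide (v ≠ z))).reverse ++
      r.dropWhile (fun v => decide (v ≠ z)))
  | [] => []

theorem inv_eq {z : V} {A B : List V} (hA : z ∉ A) :
    inv (z :: (A ++ z :: B)) = z :: (A.reverse ++ z :: B) := by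
  have h1 : (A ++ z :: B).takeWhile (fun v => decide (v ≠ z)) = A := by
    rw [List.takeWhile_append_of_pos]
    · simp
    · intro v hv
      simp only [ne_eq, decide_not, Bool.not_eq_eq_eq_not, Bool.not_true, decide_eq_false_iff_not]
      rintro rfl
      exact hA hv
  have h2 : (A ++ z :: B).dropWhile (fun v => decide (v ≠ z)) = z :: B := by
    rw [List.dropWhile_append_of_pos]
    · simp
    · intro v hv
      simp only [ne_eq, decide_not, Bool.not_eq_eq_eq_not, Bool.not_true, decide_eq_false_iff_not]
      rintro rfl
      exact hA hv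
  rw [inv, h1, h2]

/-- everything about the reversal -/
theorem inv_facts (Om : V → Prop) [DecidablePred Om] (hO : ∀ v, Om v → ¬ Slit v) (m : ℕ)
    (l : List V)
    (hl : l ∈ (P Om m).filter (fun l => Om (l.headD (0, 0)) ∧ l.headD (0, 0) ∈ l.tail)) :
    inv l ∈ (P Om m).filter (fun l => Om (l.headD (0, 0)) ∧ l.headD (0, 0) ∈ l.tail) ∧
    inv (inv l) = l ∧
    exp ((W l : ℂ) * (Real.pi / 8) * I) + exp ((W (inv l) : ℂ) * (Real.pi / 8) * I) = 0 := by
  rw [Finset.mem_filter] at hl
  obtain ⟨hl1, hl2, hl3⟩ := hl
  obtain ⟨z, t, rfl, hg, hlen⟩ := good_of_mem hl1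
  simp only [List.headD_cons, List.tail_cons] at hl2 hl3
  obtain ⟨e, M, a, q, B, rfl⟩ := trap_decomp hO hg hl2 hl3
  have hz : z ∉ (e :: (M ++ [a])) := by
    intro hz
    have := hg.nodup
    rw [List.nodup_append] at this
    exact this.2.2 z hz z (by simp) rfl
  have hz2 : z ∉ (a :: (M.reverse ++ [e])) := by
    intro h
    apply hz
    have hrev : (a :: (M.reverse ++ [e])) = (e :: (M ++ [a])).reverse := by simp
    rw [hrev, List.mem_reverse] at h
    exact h
  have hinv : inv (z :: ((e :: (M ++ [a])) ++ z :: q :: B)) =
      z :: ((a :: (M.reverse ++ [e])) ++ z :: q :: B) := by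
    rw [inv_eq hz]
    simp
  have hinv2 : inv (z :: ((a :: (M.reverse ++ [e])) ++ z :: q :: B)) =
      z :: ((e :: (M ++ [a])) ++ z :: q :: B) := by
    rw [inv_eq hz2]
    simp
  have hg2 := hg.rev
  have hM : M.reverse.length = M.length := List.length_reverse
  rw [hinv]
  refine ⟨?_, hinv2, ?_⟩
  · rw [Finset.mem_filter]
    refine ⟨hg2.mem_P ?_, ?_, ?_⟩
    · simp only [List.cons_append, List.length_cons, List.length_append, List.length_nil] at hlen ⊢
      rw [hM]
      exact hlen
    · simpa using hl2
    · simp
  · have hw1 := W_trap hO hg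
    have hg2' : Good Om z ((a :: (M.reverse ++ [e])) ++ z :: q :: B) := hg2
    have hw2 := W_trap hO hg2'
    -- adjacency facts
    have hce : Adj e z := by
      have := hg.chain
      simp only [List.cons_append] at this
      rw [List.isChain_cons_cons] at this
      exact this.1
    have hca : Adj a z := by
      have := hg2.chain
      simp only [List.cons_append] at this
      rw [List.isChain_cons_cons] at this
      exact this.1
    have hqz : Adj q z := by
      have := hg.chain
      rw [← List.cons_append, List.isChain_split] at this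
      have h2 := this.2
      rw [List.isChain_cons_cons] at h2
      exact h2.1
    have hn := hg.nodup
    rw [List.nodup_append] at hn
    have hqa : q ≠ a := by
      intro h
      exact hn.2.2 a (by simp) q (by simp) h.symm
    have hqe : q ≠ e := by
      intro h
      exact hn.2.2 e (by simp) q (by simp) h.symm
    have hea : a ≠ e := by
      intro h
      have h2 := hn.1
      rw [List.nodup_cons] at h2
      apply h2.1
      rw [← h]
      simp
    have ho := turn_other hqz (adj_symm' hca) (adj_symm' hce) hqa hqe hea
    have hpm := turn_pm hqz (adj_symm' hca) hqa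
    have he : W (z :: ((a :: (M.reverse ++ [e])) ++ z :: q :: B)) =
        W (z :: q :: B) + 4 * turn q z a := by
      rw [hw2, ho]
      ring
    rw [hw1, he]
    have key : ∀ (w s : ℤ), (s = 1 ∨ s = -1) →
        exp (((w - 4 * s : ℤ) : ℂ) * (Real.pi / 8) * I) +
          exp (((w + 4 * s : ℤ) : ℂ) * (Real.pi / 8) * I) = 0 := by
      intro w s hs
      have e1 : ((w - 4 * s : ℤ) : ℂ) * (Real.pi / 8) * I =
          (w : ℂ) * (Real.pi / 8) * I - (s : ℂ) * (Real.pi / 2 * I) := by
        push_cast; ring
      have e2 : ((w + 4 * s : ℤ) : ℂ) * (Real.pi / 8) * I =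
          (w : ℂ) * (Real.pi / 8) * I + (s : ℂ) * (Real.pi / 2 * I) := by
        push_cast; ring
      rw [e1, e2, Complex.exp_sub, Complex.exp_add]
      have hI : exp ((Real.pi : ℂ) / 2 * I) = I := Complex.exp_pi_div_two_mul_I
      rcases hs with rfl | rfl
      · simp only [Int.cast_one, one_mul, hI]
        field_simp
        rw [I_sq]
        ring
      · simp only [Int.cast_neg, Int.cast_one, neg_mul, one_mul, Complex.exp_neg, hI]
        field_simp
        rw [I_sq]
        ring
    exact key _ _ hpm

theorem trapped_sum (Om : V → Prop) [DecidablePred Om] (hO : ∀ v, Om v → ¬ Slit v) (m : ℕ) :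
    ∑ l ∈ (P Om m).filter (fun l => Om (l.headD (0, 0)) ∧ l.headD (0, 0) ∈ l.tail),
      exp ((W l : ℂ) * (Real.pi / 8) * I) = 0 := by
  refine Finset.sum_involution (fun l _ => inv l) ?_ ?_ ?_ ?_
  · intro l hl
    exact (inv_facts Om hO m l hl).2.2
  · intro l hl h0 h1
    have h2 := (inv_facts Om hO m l hl).2.2
    rw [h1] at h2
    apply h0
    have h3 : (2 : ℂ) * exp ((W l : ℂ) * (Real.pi / 8) * I) = 0 := by
      rw [two_mul]
      exact h2
    rcases mul_eq_zero.1 h3 with h4 | h4
    · exact absurd h4 (by norm_num)
    · exact h4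
  · intro l hl
    exact (inv_facts Om hO m l hl).1
  · intro l hl
    exact (inv_facts Om hO m l hl).2.1

end H978R2.Hex
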