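import Pool.Agent.H978R2.Hex.ValG
import Pool.Agent.H978R2.Hex.Trap

set_option autoImplicit false

/-! The recursion `mu0 F_m = F_{m+1} + L_{m+1}` and the coefficientwise identity. -/

namespace H978R2.Hex

open Complex

theorem mu0_pos : 0 < mu0 := by
  unfold mu0
  positivity

theorem mu0_cos : mu0 = 2 * Real.cos (Real.pi / 8) := by
  rw [Real.cos_pi_div_eight]
  unfold mu0
  ring

theorem exp_add_exp : exp (((1 : ℤ) : ℂ) * (Real.pi / 8) * I) + exp (((-1 : ℤ) : ℂ) * (Real.pi / 8) * I)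
    = (mu0 : ℂ) := by
  rw [mu0_cos]
  push_cast
  rw [Complex.cos]
  have e1 : (1 : ℂ) * (Real.pi / 8) * I = (Real.pi / 8) * I := by ring
  have e2 : (-1 : ℂ) * (Real.pi / 8) * I = -(Real.pi / 8) * I := by ring
  rw [e1, e2]
  ring

theorem card_nbrs (v : V) : (nbrs v).card = 3 := by
  obtain ⟨a, b⟩ := v
  unfold nbrs
  rw [Finset.card_eq_three]
  refine ⟨_, _, _, ?_, ?_, ?_, rfl⟩
  · simp only [ne_eq, Prod.mk.injEq, not_and]
    omega
  · split_ifs <;> simp only [ne_eq, Prod.mk.injEq, not_and] <;> omega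
  · split_ifs <;> simp only [ne_eq, Prod.mk.injEq, not_and] <;> omega

theorem sum_two (w : ℤ) {y z : V} (h : Adj y z) (t : List V) (hw : w = W (z :: y :: t)) :
    ∑ z' ∈ (nbrs z).erase y, exp ((W (z' :: z :: y :: t) : ℂ) * (Real.pi / 8) * I) =
      (mu0 : ℂ) * exp ((w : ℂ) * (Real.pi / 8) * I) := by
  have hy : y ∈ nbrs z := mem_nbrs'.2 (adj_symm' h)
  have hcard : ((nbrs z).erase y).card = 2 := by
    rw [Finset.card_erase_of_mem hy, card_nbrs]
  obtain ⟨a, b, hab, hE⟩ := Finset.card_eq_two.1 hcard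
  have ha : a ∈ (nbrs z).erase y := by rw [hE]; simp
  have hb : b ∈ (nbrs z).erase y := by rw [hE]; simp
  rw [Finset.mem_erase] at ha hb
  have ha2 := mem_nbrs'.1 ha.2
  have hb2 := mem_nbrs'.1 hb.2
  have ho := turn_other h ha2 hb2 (Ne.symm ha.1) (Ne.symm hb.1) hab
  have hpm := turn_pm h ha2 (Ne.symm ha.1)
  rw [hE, Finset.sum_pair hab]
  have hW : ∀ u : V, W (u :: z :: y :: t) = turn y z u + w := by
    intro u
    rw [W, hw]
  rw [hW, hW]
  have hexp : ∀ s : ℤ, exp (((s + w : ℤ) : ℂ) * (Real.pi / 8) * I) =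
      exp ((s : ℂ) * (Real.pi / 8) * I) * exp ((w : ℂ) * (Real.pi / 8) * I) := by
    intro s
    rw [← Complex.exp_add]
    congr 1
    push_cast
    ring
  rw [hexp, hexp, ← add_mul]
  congr 1
  have hb3 : turn y z b = - turn y z a := by rw [ho]; ring
  rw [hb3]
  rcases hpm with h1 | h1
  · rw [h1]
    exact exp_add_exp
  · rw [h1, add_comm]
    exact exp_add_exp

theorem step_sum (Om : V → Prop) [DecidablePred Om] (m : ℕ) :
    ∑ l ∈ P Om (m + 1), exp ((W l : ℂ) * (Real.pi / 8) * I) =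
      (mu0 : ℂ) * ∑ l ∈ Free Om m, exp ((W l : ℂ) * (Real.pi / 8) * I) := by
  rw [sum_P_succ, Finset.mul_sum]
  refine Finset.sum_congr rfl fun l hl => ?_
  unfold Free at hl
  rw [Finset.mem_filter] at hl
  obtain ⟨z, t, rfl, hg, hlen⟩ := good_of_mem hl.1
  match t, hg, hlen with
  | y :: t, hg, hlen =>
    have hc := hg.chain
    rw [List.isChain_cons_cons] at hc
    exact sum_two _ hc.1 t rfl

theorem split_sum (Om : V → Prop) [DecidablePred Om] (hO : ∀ v, Om v → ¬ Slit v) (m : ℕ) :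
    ∑ l ∈ P Om m, exp ((W l : ℂ) * (Real.pi / 8) * I) =
      ∑ l ∈ Free Om m, exp ((W l : ℂ) * (Real.pi / 8) * I) +
      ∑ l ∈ (P Om m).filter (fun l => ¬ Om (l.headD (0, 0))),
          exp ((W l : ℂ) * (Real.pi / 8) * I) := by
  rw [← Finset.sum_filter_add_sum_filter_not (P Om m) (fun l => Om (l.headD (0, 0)))]
  congr 1
  rw [← Finset.sum_filter_add_sum_filter_not ((P Om m).filter (fun l => Om (l.headD (0, 0))))
    (fun l => l.headD (0, 0) ∉ l.tail)]
  rw [Finset.filter_filter, Finset.filter_filter]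
  have h := trapped_sum Om hO m
  have h2 : (P Om m).filter (fun l => Om (l.headD (0, 0)) ∧ ¬ l.headD (0, 0) ∉ l.tail) =
      (P Om m).filter (fun l => Om (l.headD (0, 0)) ∧ l.headD (0, 0) ∈ l.tail) := by
    refine Finset.filter_congr fun l _ => ?_
    rw [not_not]
  rw [h2, h, add_zero]
  rfl

theorem ident (Om : V → Prop) [DecidablePred Om] (h1 : Om (1, 0)) (hO : ∀ v, Om v → ¬ Slit v)
    (n : ℕ) :
    ∑ l ∈ Free Om n, exp ((W l : ℂ) * (Real.pi / 8) * I) =
      (mu0 : ℂ) ^ n * (1 - ∑ m ∈ Finset.range (n + 1),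
        ∑ l ∈ (P Om m).filter (fun l => ¬ Om (l.headD (0, 0))),
          exp ((W l : ℂ) * (Real.pi / 8) * I) * ((mu0 : ℂ)⁻¹) ^ m) := by
  have hmu : (mu0 : ℂ) ≠ 0 := by
    exact_mod_cast mu0_pos.ne'
  induction n with
  | zero =>
    have e1 : Free Om 0 = {[((1, 0) : V), (0, 0)]} := by
      unfold Free P
      rw [Finset.filter_singleton, if_pos]
      exact ⟨h1, by simp⟩
    have e2 : (P Om 0).filter (fun l => ¬ Om (l.headD (0, 0))) = ∅ := by
      unfold P
      rw [Finset.filter_singleton, if_neg]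
      simpa using h1
    rw [e1, Finset.sum_singleton, zero_add, Finset.sum_range_one, e2, Finset.sum_empty]
    simp [W]
  | succ n ih =>
    have h2 := step_sum Om n
    rw [split_sum Om hO, ih] at h2
    rw [Finset.sum_range_succ]
    have h3 : ∑ l ∈ (P Om (n + 1)).filter (fun l => ¬ Om (l.headD (0, 0))),
          exp ((W l : ℂ) * (Real.pi / 8) * I) * ((mu0 : ℂ)⁻¹) ^ (n + 1) =
        (∑ l ∈ (P Om (n + 1)).filter (fun l => ¬ Om (l.headD (0, 0))),
          exp ((W l : ℂ) * (Real.pi / 8) * I)) * ((mu0 : ℂ)⁻¹) ^ (n + 1) := by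
      rw [Finset.sum_mul]
    rw [h3]
    have h4 := eq_sub_of_add_eq h2
    rw [h4]
    have h5 : (mu0 : ℂ) ^ (n + 1) * ((mu0 : ℂ)⁻¹) ^ (n + 1) = 1 := by
      rw [← mul_pow, mul_inv_cancel₀ hmu, one_pow]
    linear_combination (∑ l ∈ (P Om (n + 1)).filter (fun l => ¬ Om (l.headD (0, 0))),
          exp ((W l : ℂ) * (Real.pi / 8) * I)) * h5

end H978R2.Hex
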