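import Pool.Agent.H978R2.Hex.ValP
import Pool.Agent.H978R2.Hex.Ident
import Pool.Agent.H978R2.Hex.Class

set_option autoImplicit false

/-! Section H1: masses. -/

namespace H978R2.Hex

open Complex

theorem Val_mono {Om Om' : V → Prop} (h : ∀ v, Om v → Om' v) :
    ∀ {l : List V}, Val Om l → Val Om' l
  | [], hl => hl
  | [_], hl => hl
  | [_, _], hl => hl
  | _ :: y :: x :: t, hl => by
    obtain ⟨h1, h2, h3, h4, h5⟩ := hl
    exact ⟨h1, h2, h _ h3, h4, Val_mono h h5⟩

theorem P_mono {Om Om' : V → Prop} [DecidablePred Om] [DecidablePred Om']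
    (h : ∀ v, Om v → Om' v) {m : ℕ} {l : List V} (hl : l ∈ P Om m) : l ∈ P Om' m := by
  rw [mem_P] at hl ⊢
  exact ⟨Val_mono h hl.1, hl.2⟩

theorem Val_tail {Om : V → Prop} : ∀ {l : List V}, Val Om l →
    l.tail.Nodup ∧ ∀ v ∈ l.tail.dropLast, Om v
  | [], hl => hl.elim
  | [_], hl => hl.elim
  | [_, _], _ => by simp
  | z :: y :: x :: t, hl => by
    obtain ⟨h1, h2, h3, h4, h5⟩ := hl
    have ih := Val_tail h5
    simp only [List.tail_cons] at ih ⊢
    refine ⟨List.nodup_cons.mpr ⟨h4, ih.1⟩, ?_⟩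
    intro v hv
    rw [List.dropLast_cons_of_ne_nil (by simp)] at hv
    rcases List.mem_cons.1 hv with rfl | hv
    · exact h3
    · exact ih.2 v hv

theorem om_base {p : Par} (hp : Ok p) : Om p (1, 0) := by
  obtain ⟨hb, hd, ha4, hc3, ha2, hc1, hR, hQ, b1, d2, a42, c31, a20, c11⟩ := hp
  unfold Om
  simp only
  omega

theorem om_not_slit {p : Par} {v : V} (h : Om p v) : ¬ Slit v := by
  unfold Om at h
  unfold Slit
  omega

theorem out_range {p : Par} {k : ℤ} {z : V} (h : Out p k z) : k ∈ Finset.Icc (-4 : ℤ) 5 := by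
  rw [Finset.mem_Icc]
  unfold Out at h
  omega

theorem free_empty {Om : V → Prop} [DecidablePred Om] (S : Finset V) (hS : ∀ v, Om v → v ∈ S)
    (n : ℕ) (hn : S.card ≤ n) : Free Om n = ∅ := by
  rw [Finset.eq_empty_iff_forall_notMem]
  intro l hl
  unfold Free at hl
  rw [Finset.mem_filter, mem_P] at hl
  obtain ⟨⟨hv, hlen⟩, hh, hnt⟩ := hl
  obtain ⟨t1, t2⟩ := Val_tail hv
  match l, hlen with
  | z :: l', hlen =>
    simp only [List.headD_cons, List.tail_cons] at hh hnt t1 t2
    have hlen' : l'.length = n + 1 := by simpa using hlen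
    have hnd : (z :: l'.dropLast).Nodup := by
      rw [List.nodup_cons]
      refine ⟨fun hz => hnt (List.mem_of_mem_dropLast hz), ?_⟩
      exact t1.sublist (List.dropLast_sublist l')
    have hsub : (z :: l'.dropLast).toFinset ⊆ S := by
      intro v hv
      rw [List.mem_toFinset] at hv
      rcases List.mem_cons.1 hv with rfl | hv
      · exact hS _ hh
      · exact hS _ (t2 v hv)
    have hc := Finset.card_le_card hsub
    rw [List.toFinset_card_of_nodup hnd, List.length_cons, List.length_dropLast, hlen'] at hc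
    omega

/-- finite domain: the complex identity -/
theorem mass_identity (p : Par) (hp : Ok p) (S : Finset V) (hS : ∀ v, Om p v → v ∈ S) (n : ℕ)
    (hn : S.card ≤ n) :
    ∑ k ∈ Finset.Icc (-4 : ℤ) 5, exp ((k : ℂ) * (Real.pi / 8) * I) * (Mass (Om p) n k : ℂ) = 1 := by
  have h1 := ident (Om p) (om_base hp) (fun v hv => om_not_slit hv) n
  rw [free_empty S hS n hn, Finset.sum_empty] at h1
  have hmu : (mu0 : ℂ) ^ n ≠ 0 := pow_ne_zero _ (by exact_mod_cast mu0_pos.ne')
  have h2 := (mul_eq_zero.mp h1.symm).resolve_left hmu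
  rw [sub_eq_zero] at h2
  rw [h2]
  unfold Mass
  push_cast
  simp_rw [Finset.mul_sum]
  rw [Finset.sum_comm]
  refine Finset.sum_congr rfl fun m _ => ?_
  rw [← Finset.sum_fiberwise_of_maps_to (s := (P (Om p) m).filter (fun l => ¬ Om p (l.headD (0, 0))))
    (t := Finset.Icc (-4 : ℤ) 5) (g := W)]
  · refine Finset.sum_congr rfl fun k _ => ?_
    have e : ((P (Om p) m).filter (fun l => ¬ Om p (l.headD (0, 0)))).filter (fun l => W l = k) =
        Land (Om p) m k := by
      unfold Land
      rw [Finset.filter_filter]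
    rw [e]
    have : ∀ l ∈ Land (Om p) m k, exp ((W l : ℂ) * (Real.pi / 8) * I) * ((mu0 : ℂ)⁻¹) ^ m =
        exp ((k : ℂ) * (Real.pi / 8) * I) * ((mu0 : ℂ)⁻¹) ^ m := by
      intro l hl
      unfold Land at hl
      rw [(Finset.mem_filter.1 hl).2.2]
    rw [Finset.sum_congr rfl this, Finset.sum_const, nsmul_eq_mul]
    ring
  · intro l hl
    rw [Finset.mem_filter] at hl
    exact out_range (class_om p hp m l hl.1 hl.2)

theorem mass_nonneg (Om : V → Prop) [DecidablePred Om] (n : ℕ) (k : ℤ) : 0 ≤ Mass Om n k := by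
  unfold Mass
  have := mu0_pos
  positivity

theorem mass_le_of_sub {Om Om' : V → Prop} [DecidablePred Om] [DecidablePred Om'] (n : ℕ) (k : ℤ)
    (h : ∀ m, Land Om m k ⊆ Land Om' m k) : Mass Om n k ≤ Mass Om' n k := by
  unfold Mass
  apply Finset.sum_le_sum
  intro m _
  have := mu0_pos
  apply mul_le_mul_of_nonneg_right _ (by positivity)
  exact_mod_cast Finset.card_le_card (h m)

/-- monotonicity: landing walks on side `k` of `Om p` still land in `Om p'` -/
theorem mass_mono (p p' : Par) (hp : Ok p) (hsub : ∀ v, Om p v → Om p' v) (k : ℤ)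
    (hout : ∀ z, Out p k z → ¬ Om p' z) (n : ℕ) : Mass (Om p) n k ≤ Mass (Om p') n k := by
  apply mass_le_of_sub
  intro m l hl
  unfold Land at hl ⊢
  rw [Finset.mem_filter] at hl ⊢
  obtain ⟨h1, h2, h3⟩ := hl
  refine ⟨P_mono hsub h1, ?_, h3⟩
  have := class_om p hp m l h1 h2
  rw [h3] at this
  exact hout _ this

/-- inactive side -/
theorem mass_zero (p : Par) (hp : Ok p) (k : ℤ)
    (h : ∀ v z, Om p v → Adj v z → ¬ Om p z → ¬ Out p k z) (n : ℕ) : Mass (Om p) n k = 0 := by
  unfold Mass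
  apply Finset.sum_eq_zero
  intro m _
  have : Land (Om p) m k = ∅ := by
    rw [Finset.eq_empty_iff_forall_notMem]
    intro l hl
    unfold Land at hl
    rw [Finset.mem_filter] at hl
    obtain ⟨h1, h2, h3⟩ := hl
    have ho := class_om p hp m l h1 h2
    rw [h3] at ho
    rw [mem_P] at h1
    match l, h1.1 with
    | [z, y], hv =>
      obtain ⟨rfl, rfl⟩ := hv
      exact h2 (om_base hp)
    | z :: y :: x :: t, hv =>
      obtain ⟨a1, a2, a3, a4, a5⟩ := hv
      exact h y z a3 a1 h2 ho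
  rw [this]
  simp

theorem mass_le_slit (p : Par) (hp : Ok p) (n : ℕ) : Mass (Om p) n 5 ≤ Mass SlitPlane n 5 := by
  apply mass_le_of_sub
  intro m l hl
  unfold Land at hl ⊢
  rw [Finset.mem_filter] at hl ⊢
  obtain ⟨h1, h2, h3⟩ := hl
  refine ⟨P_mono (fun v hv => om_not_slit hv) h1, ?_, h3⟩
  have := class_om p hp m l h1 h2
  rw [h3] at this
  unfold Out at this
  unfold SlitPlane
  simp only [not_not]
  rcases this with h | h | h | h | h | h | h | h | h | h
  · exact h.2
  all_goals (exfalso; omega)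

end H978R2.Hex
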