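import Pool.Agent.H978R2.Hex.Defs

set_option autoImplicit false

/-! Section H2: trigonometric inequalities for the potential. -/

namespace H978R2.Hex

open Complex

/-- weight ratio, `sin (π/8) / sin (π/4) = 0.5411…` -/
noncomputable def rho : ℝ := Real.sin (Real.pi / 8) / Real.sin (Real.pi / 4)

theorem s2sq : Real.sqrt 2 * Real.sqrt 2 = 2 := Real.mul_self_sqrt (by norm_num)

theorem s2_pos : 0 < Real.sqrt 2 := Real.sqrt_pos.mpr (by norm_num)

theorem s2_lt : Real.sqrt 2 < 3 / 2 := by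
  have h1 := s2sq
  have h2 := s2_pos
  nlinarith

theorem s2_gt : 1.41412 < Real.sqrt 2 := by
  have h1 := s2sq
  have h2 := s2_pos
  nlinarith

theorem sin8_pos : 0 < Real.sin (Real.pi / 8) := by
  apply Real.sin_pos_of_pos_of_lt_pi
  · have := Real.pi_pos; linarith
  · have := Real.pi_pos; linarith

theorem sin8_sq : Real.sin (Real.pi / 8) ^ 2 = (2 - Real.sqrt 2) / 4 := by
  rw [Real.sin_pi_div_eight, div_pow, Real.sq_sqrt]
  · norm_num
  · have := s2_lt; linarith

theorem sin8_lt : Real.sin (Real.pi / 8) < 1 / 2 := by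
  have h1 := sin8_sq
  have h2 := sin8_pos
  have h3 := s2_gt
  nlinarith

theorem sin4_pos : 0 < Real.sin (Real.pi / 4) := by
  rw [Real.sin_pi_div_four]
  have := s2_pos
  positivity

theorem rho_mul : rho * Real.sin (Real.pi / 4) = Real.sin (Real.pi / 8) := by
  unfold rho
  exact div_mul_cancel₀ _ sin4_pos.ne'

theorem rho_pos : 0 < rho := div_pos sin8_pos sin4_pos

theorem rho_sq : rho ^ 2 = (2 - Real.sqrt 2) / 2 := by
  unfold rho
  rw [div_pow, sin8_sq, Real.sin_pi_div_four]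
  have h1 := s2sq
  have h2 := s2_pos
  field_simp
  nlinarith

theorem rho_lt_one : rho < 1 := by
  have h1 := rho_sq
  have h2 := rho_pos
  have h3 := s2_gt
  nlinarith

theorem rho_bound : 1 / 200 ≤ Real.sin (Real.pi / 8) * rho ^ 7 := by
  have h1 : Real.sin (Real.pi / 8) * rho = (2 - Real.sqrt 2) / (2 * Real.sqrt 2) := by
    unfold rho
    rw [mul_div_assoc', ← pow_two, sin8_sq, Real.sin_pi_div_four]
    have h2 := s2_pos
    field_simp
    ring
  have h2 : Real.sin (Real.pi / 8) * rho ^ 7 = (17 * Real.sqrt 2 - 24) / 8 := by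
    calc Real.sin (Real.pi / 8) * rho ^ 7 = (Real.sin (Real.pi / 8) * rho) * (rho ^ 2) ^ 3 := by ring
      _ = (2 - Real.sqrt 2) / (2 * Real.sqrt 2) * ((2 - Real.sqrt 2) / 2) ^ 3 := by
          rw [h1, rho_sq]
      _ = (17 * Real.sqrt 2 - 24) / 8 := by
          have h3 := s2_pos
          have h4 := s2sq
          have h5 : (2 - Real.sqrt 2) ^ 4 = 68 - 48 * Real.sqrt 2 := by
            have e2 : Real.sqrt 2 ^ 2 = 2 := by rw [pow_two]; exact h4
            have e3 : Real.sqrt 2 ^ 3 = 2 * Real.sqrt 2 := by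
              rw [pow_succ, e2]
            have e4 : Real.sqrt 2 ^ 4 = 4 := by
              rw [show (4 : ℕ) = 2 * 2 by norm_num, pow_mul, e2]; norm_num
            ring_nf
            rw [e2, e3, e4]
            ring
          have h6 : (2 - Real.sqrt 2) / (2 * Real.sqrt 2) * ((2 - Real.sqrt 2) / 2) ^ 3 =
              (2 - Real.sqrt 2) ^ 4 / (16 * Real.sqrt 2) := by
            field_simp
            ring
          rw [h6, h5]
          rw [div_eq_div_iff (by positivity) (by norm_num)]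
          linear_combination (-272) * h4
  rw [h2]
  have := s2_gt
  linarith

theorem im_identity (M : ℤ → ℝ) (j : ℤ)
    (h : ∑ k ∈ Finset.Icc (-4 : ℤ) 5, exp ((k : ℂ) * (Real.pi / 8) * I) * (M k : ℂ) = 1) :
    ∑ k ∈ Finset.Icc (-4 : ℤ) 5, Real.sin (((k : ℝ) - j) * (Real.pi / 8)) * M k =
      - Real.sin ((j : ℝ) * (Real.pi / 8)) := by
  have h1 : exp (((-((j : ℝ) * (Real.pi / 8)) : ℝ) : ℂ) * I) *
      ∑ k ∈ Finset.Icc (-4 : ℤ) 5, exp ((k : ℂ) * (Real.pi / 8) * I) * (M k : ℂ) =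
      exp (((-((j : ℝ) * (Real.pi / 8)) : ℝ) : ℂ) * I) := by rw [h, mul_one]
  rw [Finset.mul_sum] at h1
  have h2 := congrArg Complex.im h1
  rw [Complex.im_sum, Complex.exp_ofReal_mul_I_im, Real.sin_neg] at h2
  rw [← h2]
  refine Finset.sum_congr rfl fun k _ => ?_
  rw [← mul_assoc, ← Complex.exp_add]
  have e : (((-((j : ℝ) * (Real.pi / 8)) : ℝ) : ℂ) * I + (k : ℂ) * (Real.pi / 8) * I) =
      ((((k : ℝ) - j) * (Real.pi / 8) : ℝ) : ℂ) * I := by
    push_cast; ring
  rw [e, Complex.im_mul_ofReal, Complex.exp_ofReal_mul_I_im]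

theorem re_identity (M : ℤ → ℝ)
    (h : ∑ k ∈ Finset.Icc (-4 : ℤ) 5, exp ((k : ℂ) * (Real.pi / 8) * I) * (M k : ℂ) = 1) :
    ∑ k ∈ Finset.Icc (-4 : ℤ) 5, Real.cos ((k : ℝ) * (Real.pi / 8)) * M k = 1 := by
  have h2 := congrArg Complex.re h
  rw [Complex.re_sum, Complex.one_re] at h2
  rw [← h2]
  refine Finset.sum_congr rfl fun k _ => ?_
  have e : ((k : ℂ) * (Real.pi / 8) * I) = (((k : ℝ) * (Real.pi / 8) : ℝ) : ℂ) * I := by
    push_cast; ring
  rw [e, Complex.re_mul_ofReal, Complex.exp_ofReal_mul_I_re]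

/-- `ρ^j sin ((j+1)π/8) ≤ sin (π/8)` -/
theorem rho_pow_sin (j : ℕ) (hj : 1 ≤ j) :
    rho ^ j * Real.sin (((j : ℝ) + 1) * (Real.pi / 8)) ≤ Real.sin (Real.pi / 8) := by
  rcases Nat.lt_or_ge j 2 with h | h
  · have : j = 1 := by omega
    subst this
    have e : (((1 : ℕ) : ℝ) + 1) * (Real.pi / 8) = Real.pi / 4 := by push_cast; ring
    rw [e, pow_one, rho_mul]
  · have h1 : rho ^ j ≤ rho ^ 2 := pow_le_pow_of_le_one rho_pos.le rho_lt_one.le h
    have h2 : Real.sin (((j : ℝ) + 1) * (Real.pi / 8)) ≤ 1 := Real.sin_le_one _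
    have h3 : rho ^ 2 ≤ Real.sin (Real.pi / 8) := by
      have e : rho ^ 2 = 2 * Real.sin (Real.pi / 8) ^ 2 := by rw [rho_sq, sin8_sq]; ring
      rw [e]
      have := sin8_lt
      have := sin8_pos
      nlinarith
    have h4 : 0 < rho ^ j := pow_pos rho_pos j
    calc rho ^ j * Real.sin (((j : ℝ) + 1) * (Real.pi / 8)) ≤ rho ^ j * 1 :=
          mul_le_mul_of_nonneg_left h2 h4.le
      _ ≤ _ := by linarith

/-- opening side `k0` does not decrease the potential -/
theorem potential (M M' : ℤ → ℝ) (k0 : ℤ) (h2 : -2 ≤ k0) (h4 : k0 ≤ 4)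
    (h : ∑ k ∈ Finset.Icc (-4 : ℤ) 5, exp ((k : ℂ) * (Real.pi / 8) * I) * (M k : ℂ) = 1)
    (h' : ∑ k ∈ Finset.Icc (-4 : ℤ) 5, exp ((k : ℂ) * (Real.pi / 8) * I) * (M' k : ℂ) = 1)
    (hmono : ∀ k ∈ Finset.Icc (-4 : ℤ) 5, k ≠ k0 → M k ≤ M' k) (hz : M' k0 = 0) :
    ∑ k ∈ Finset.Icc k0 5, rho ^ (5 - k).toNat * M k ≤
      ∑ k ∈ Finset.Icc (k0 + 1) 5, rho ^ (5 - k).toNat * M' k := by
  have i1 := im_identity M (k0 - 1) h
  have i2 := im_identity M' (k0 - 1) h'
  have i3 : ∑ k ∈ Finset.Icc (-4 : ℤ) 5,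
      Real.sin (((k : ℝ) - (k0 - 1 : ℤ)) * (Real.pi / 8)) * (M' k - M k) = 0 := by
    have : ∑ k ∈ Finset.Icc (-4 : ℤ) 5,
        Real.sin (((k : ℝ) - (k0 - 1 : ℤ)) * (Real.pi / 8)) * (M' k - M k) =
        ∑ k ∈ Finset.Icc (-4 : ℤ) 5, Real.sin (((k : ℝ) - (k0 - 1 : ℤ)) * (Real.pi / 8)) * M' k -
        ∑ k ∈ Finset.Icc (-4 : ℤ) 5, Real.sin (((k : ℝ) - (k0 - 1 : ℤ)) * (Real.pi / 8)) * M k := by
      rw [← Finset.sum_sub_distrib]
      exact Finset.sum_congr rfl fun k _ => by ring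
    rw [this, i1, i2, sub_self]
  have ha := sin8_pos
  -- the comparison of the terms
  have hterm : ∀ k ∈ Finset.Icc (-4 : ℤ) 5,
      rho ^ (5 - k0).toNat *
        (Real.sin (((k : ℝ) - (k0 - 1 : ℤ)) * (Real.pi / 8)) * (M' k - M k)) ≤
      Real.sin (Real.pi / 8) * (if k0 < k then rho ^ (5 - k).toNat * (M' k - M k) else
        if k = k0 then -(rho ^ (5 - k0).toNat * M k0) else 0) := by
    intro k hk
    rw [Finset.mem_Icc] at hk
    have hr : 0 < rho ^ (5 - k0).toNat := pow_pos rho_pos _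
    split_ifs with c1 c2
    · -- k0 < k
      have hD : 0 ≤ M' k - M k := by
        have := hmono k (Finset.mem_Icc.mpr hk) (by omega)
        linarith
      obtain ⟨j, hj⟩ : ∃ j : ℕ, k = k0 + j := ⟨(k - k0).toNat, by omega⟩
      have hj1 : 1 ≤ j := by omega
      have e1 : (k : ℝ) - (k0 - 1 : ℤ) = (j : ℝ) + 1 := by
        rw [hj]; push_cast; ring
      have e2 : (5 - k0).toNat = j + (5 - k).toNat := by omega
      rw [e1, e2, pow_add]
      have h5 := rho_pow_sin j hj1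
      have h6 : 0 ≤ rho ^ (5 - k).toNat * (M' k - M k) :=
        mul_nonneg (pow_pos rho_pos _).le hD
      calc rho ^ j * rho ^ (5 - k).toNat *
            (Real.sin (((j : ℝ) + 1) * (Real.pi / 8)) * (M' k - M k))
          = (rho ^ j * Real.sin (((j : ℝ) + 1) * (Real.pi / 8))) *
            (rho ^ (5 - k).toNat * (M' k - M k)) := by ring
        _ ≤ Real.sin (Real.pi / 8) * (rho ^ (5 - k).toNat * (M' k - M k)) :=
            mul_le_mul_of_nonneg_right h5 h6
    · -- k = k0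
      subst c2
      have e1 : (k : ℝ) - (k - 1 : ℤ) = 1 := by push_cast; ring
      rw [e1, one_mul, hz]
      apply le_of_eq
      ring
    · -- k < k0
      have hD : 0 ≤ M' k - M k := by
        have := hmono k (Finset.mem_Icc.mpr hk) c2
        linarith
      rw [mul_zero]
      have hs : Real.sin (((k : ℝ) - (k0 - 1 : ℤ)) * (Real.pi / 8)) ≤ 0 := by
        have b1 : ((k : ℝ) - (k0 - 1 : ℤ)) ≤ 0 := by
          have : k - (k0 - 1) ≤ 0 := by omega
          exact_mod_cast this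
        have b2 : (-8 : ℝ) ≤ ((k : ℝ) - (k0 - 1 : ℤ)) := by
          have : (-8 : ℤ) ≤ k - (k0 - 1) := by omega
          exact_mod_cast this
        have hpi := Real.pi_pos
        apply Real.sin_nonpos_of_nonpos_of_neg_pi_le
        · nlinarith
        · nlinarith
      have := mul_nonpos_of_nonpos_of_nonneg hs hD
      nlinarith
  have hsum := Finset.sum_le_sum hterm
  rw [← Finset.mul_sum, i3, mul_zero, ← Finset.mul_sum] at hsum
  have hsum' : 0 ≤ ∑ k ∈ Finset.Icc (-4 : ℤ) 5,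
      (if k0 < k then rho ^ (5 - k).toNat * (M' k - M k) else
        if k = k0 then -(rho ^ (5 - k0).toNat * M k0) else 0) :=
    nonneg_of_mul_nonneg_right hsum ha
  have e1 : ∑ k ∈ Finset.Icc (-4 : ℤ) 5,
      (if k0 < k then rho ^ (5 - k).toNat * (M' k - M k) else
        if k = k0 then -(rho ^ (5 - k0).toNat * M k0) else 0) =
      ∑ k ∈ Finset.Icc (k0 + 1) 5, rho ^ (5 - k).toNat * (M' k - M k) -
        rho ^ (5 - k0).toNat * M k0 := by
    have s1 : ∀ k ∈ Finset.Icc (-4 : ℤ) 5,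
        (if k0 < k then rho ^ (5 - k).toNat * (M' k - M k) else
        if k = k0 then -(rho ^ (5 - k0).toNat * M k0) else 0) =
        (if k0 < k then rho ^ (5 - k).toNat * (M' k - M k) else 0) +
        (if k = k0 then -(rho ^ (5 - k0).toNat * M k0) else 0) := by
      intro k _
      split_ifs with c1 c2 c2
      · omega
      · ring
      · ring
      · ring
    rw [Finset.sum_congr rfl s1, Finset.sum_add_distrib, Finset.sum_ite_eq' , if_pos, ← Finset.sum_filter]
    · have : Finset.filter (fun k => k0 < k) (Finset.Icc (-4 : ℤ) 5) = Finset.Icc (k0 + 1) 5 := by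
        ext k
        simp only [Finset.mem_filter, Finset.mem_Icc]
        omega
      rw [this]
      ring
    · rw [Finset.mem_Icc]; omega
  rw [e1] at hsum'
  have e2 : Finset.Icc k0 5 = insert k0 (Finset.Icc (k0 + 1) 5) := by
    ext k
    simp only [Finset.mem_insert, Finset.mem_Icc]
    omega
  rw [e2, Finset.sum_insert (by simp)]
  have e3 : ∑ k ∈ Finset.Icc (k0 + 1) 5, rho ^ (5 - k).toNat * (M' k - M k) =
      ∑ k ∈ Finset.Icc (k0 + 1) 5, rho ^ (5 - k).toNat * M' k -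
      ∑ k ∈ Finset.Icc (k0 + 1) 5, rho ^ (5 - k).toNat * M k := by
    rw [← Finset.sum_sub_distrib]
    exact Finset.sum_congr rfl fun k _ => by ring
  rw [e3] at hsum'
  linarith

/-- real part of the identity -/
theorem real_part (M : ℤ → ℝ) (hnn : ∀ k, 0 ≤ M k) (h3 : M (-3) = 0)
    (h : ∑ k ∈ Finset.Icc (-4 : ℤ) 5, exp ((k : ℂ) * (Real.pi / 8) * I) * (M k : ℂ) = 1) :
    1 + Real.sin (Real.pi / 8) * M 5 ≤ ∑ k ∈ Finset.Icc (-2 : ℤ) 4, M k := by
  have i1 := re_identity M h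
  have e1 : Finset.Icc (-4 : ℤ) 5 =
      insert (-4) (insert (-3) (insert 5 (Finset.Icc (-2 : ℤ) 4))) := by
    ext k
    simp only [Finset.mem_insert, Finset.mem_Icc]
    omega
  rw [e1, Finset.sum_insert (by simp), Finset.sum_insert (by simp), Finset.sum_insert (by simp), h3]
    at i1
  have c4 : Real.cos (((-4 : ℤ) : ℝ) * (Real.pi / 8)) = 0 := by
    have : ((-4 : ℤ) : ℝ) * (Real.pi / 8) = -(Real.pi / 2) := by push_cast; ring
    rw [this, Real.cos_neg, Real.cos_pi_div_two]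
  have c5 : Real.cos (((5 : ℤ) : ℝ) * (Real.pi / 8)) = - Real.sin (Real.pi / 8) := by
    have : ((5 : ℤ) : ℝ) * (Real.pi / 8) = Real.pi / 8 + Real.pi / 2 := by push_cast; ring
    rw [this, Real.cos_add_pi_div_two]
  rw [c4, c5] at i1
  have i2 : ∑ k ∈ Finset.Icc (-2 : ℤ) 4, Real.cos ((k : ℝ) * (Real.pi / 8)) * M k ≤
      ∑ k ∈ Finset.Icc (-2 : ℤ) 4, M k := by
    apply Finset.sum_le_sum
    intro k _
    have := Real.cos_le_one ((k : ℝ) * (Real.pi / 8))
    have := hnn k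
    nlinarith
  linarith

end H978R2.Hex
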