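import Pool.Agent.H978R2.Hex.Geo
import Pool.Agent.H978R2.Hex.MassLemmas
import Pool.Agent.H978R2.Hex.Potential

set_option autoImplicit false

/-! Section H3: the scale step and exponential growth of the mass on the upper side of the slit. -/

namespace H978R2.Hex

open Complex

/-- the hexagonal domain of size `N` -/
def hexPar (N : ℤ) : Par where
  a4 := -2 * N
  c3 := -2 * N + 1
  R := N
  b := 2 * N + 1
  d := 2 * N
  Q := N
  a2 := -2 * N
  c1 := -2 * N + 1

/-- intermediate domains: the sides `-2, …, -2 + i - 1` are opened -/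
def stepPar (N : ℤ) (i : ℕ) : Par where
  a4 := if 7 ≤ i then -14 * N - 6 else -2 * N
  c3 := if 6 ≤ i then -14 * N - 7 else -2 * N + 1
  R := if 5 ≤ i then 6 * N + 3 else N
  b := if 4 ≤ i then 10 * N + 5 else 2 * N + 1
  d := if 3 ≤ i then 8 * N + 4 else 2 * N
  Q := if 2 ≤ i then 3 * N + 1 else N
  a2 := if 1 ≤ i then -4 * N else -2 * N
  c1 := -2 * N + 1

theorem stepPar_zero (N : ℤ) : stepPar N 0 = hexPar N := by
  simp [stepPar, hexPar]

theorem ok_hex (N : ℤ) (hN : 4 ≤ N) : Ok (hexPar N) := by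
  constructor <;> simp only [hexPar] <;> omega

theorem ok_step (N : ℤ) (hN : 4 ≤ N) (i : ℕ) : Ok (stepPar N i) := by
  constructor <;> simp only [stepPar] <;> (try split_ifs) <;> omega

theorem om_mono {p p' : Par} (h1 : p.R ≤ p'.R) (h2 : p.Q ≤ p'.Q) (h3 : p.b ≤ p'.b)
    (h4 : p.d ≤ p'.d) (h5 : p'.a4 ≤ p.a4) (h6 : p'.c3 ≤ p.c3) (h7 : p'.a2 ≤ p.a2)
    (h8 : p'.c1 ≤ p.c1) {v : V} (h : Om p v) : Om p' v := by
  obtain ⟨o1, o2, o3, o4, o5, o6, o7⟩ := h
  refine ⟨by linarith, by linarith, by linarith, by linarith, ?_, o6, ?_⟩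
  · intro hv
    obtain ⟨e1, e2⟩ := o5 hv
    exact ⟨by linarith, by linarith⟩
  · intro hv
    obtain ⟨e1, e2⟩ := o7 hv
    exact ⟨by linarith, by linarith⟩

theorem sub_step (N : ℤ) (hN : 4 ≤ N) (i : ℕ) (v : V) (h : Om (stepPar N i) v) :
    Om (stepPar N (i + 1)) v := by
  refine om_mono ?_ ?_ ?_ ?_ ?_ ?_ ?_ ?_ h <;> simp only [stepPar] <;> (try split_ifs) <;> omega

theorem sub_big (N : ℤ) (hN : 4 ≤ N) (i : ℕ) (v : V) (h : Om (stepPar N i) v) :
    Om (hexPar (8 * N)) v := by
  refine om_mono ?_ ?_ ?_ ?_ ?_ ?_ ?_ ?_ h <;> simp only [stepPar, hexPar] <;>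
    (try split_ifs) <;> omega

theorem out_step (N : ℤ) (i : ℕ) (k : ℤ) (hk : k ≠ (i : ℤ) - 2) (z : V)
    (h : Out (stepPar N i) k z) : ¬ Om (stepPar N (i + 1)) z := by
  rintro ⟨o1, o2, o3, o4, o5, o6, o7⟩
  rcases h with h | h | h | h | h | h | h | h | h | h
  · have := h.2.1
    have := h.2.2
    have := o6 h.2.1
    omega
  · have := h.2.1
    have := h.2.2
    have := o6 h.2.1
    omega
  · have e : (stepPar N (i + 1)).a4 = (stepPar N i).a4 := by
      simp only [stepPar]; split_ifs <;> omega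
    rw [e] at o5
    have := o5 h.2.1
    omega
  · have e : (stepPar N (i + 1)).c3 = (stepPar N i).c3 := by
      simp only [stepPar]; split_ifs <;> omega
    rw [e] at o5
    have := o5 h.2.1
    omega
  · have e : (stepPar N (i + 1)).R = (stepPar N i).R := by
      simp only [stepPar]; split_ifs <;> omega
    rw [e] at o1
    omega
  · have e : (stepPar N (i + 1)).b = (stepPar N i).b := by
      simp only [stepPar]; split_ifs <;> omega
    rw [e] at o3
    omega
  · have e : (stepPar N (i + 1)).d = (stepPar N i).d := by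
      simp only [stepPar]; split_ifs <;> omega
    rw [e] at o4
    omega
  · have e : (stepPar N (i + 1)).Q = (stepPar N i).Q := by
      simp only [stepPar]; split_ifs <;> omega
    rw [e] at o2
    omega
  · have e : (stepPar N (i + 1)).a2 = (stepPar N i).a2 := by
      simp only [stepPar]; split_ifs <;> omega
    rw [e] at o7
    have := o7 h.2.1
    omega
  · have e : (stepPar N (i + 1)).c1 = (stepPar N i).c1 := by
      simp only [stepPar]
    rw [e] at o7
    have := o7 h.2.1
    omega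

theorem inactive_step (N : ℤ) (hN : 4 ≤ N) (i : ℕ) (hi : i ≤ 6) (v z : V)
    (hv : Om (stepPar N (i + 1)) v) (ha : Adj v z) (_hz : ¬ Om (stepPar N (i + 1)) z) :
    ¬ Out (stepPar N (i + 1)) ((i : ℤ) - 2) z := by
  rw [adj_iff] at ha
  obtain ⟨o1, o2, o3, o4, o5, o6, o7⟩ := hv
  intro h
  rcases h with h | h | h | h | h | h | h | h | h | h
  · have := h.1; omega
  · have := h.1; omega
  · -- k = 4, i = 6
    have hi' : i = 6 := by have := h.1; omega
    subst hi'
    simp only [stepPar] at *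
    norm_num at *
    rcases lt_trichotomy v.2 0 with c | c | c
    · omega
    · have := o6 c; omega
    · have := o5 (by omega); omega
  · have hi' : i = 5 := by have := h.1; omega
    subst hi'
    simp only [stepPar] at *
    norm_num at *
    rcases lt_trichotomy v.2 0 with c | c | c
    · omega
    · have := o6 c; omega
    · have := o5 (by omega); omega
  · have hi' : i = 4 := by have := h.1; omega
    subst hi'
    simp only [stepPar] at *
    norm_num at *
    rcases lt_trichotomy v.2 0 with c | c | c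
    · omega
    · have := o6 c; omega
    · have := o5 (by omega); omega
  · have hi' : i = 3 := by have := h.1; omega
    subst hi'
    simp only [stepPar] at *
    norm_num at *
    omega
  · have hi' : i = 2 := by have := h.1; omega
    subst hi'
    simp only [stepPar] at *
    norm_num at *
    omega
  · have hi' : i = 1 := by have := h.1; omega
    subst hi'
    simp only [stepPar] at *
    norm_num at *
    rcases lt_trichotomy v.2 0 with c | c | c
    · have := o7 (by omega); omega
    · omega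
    · omega
  · have hi' : i = 0 := by have := h.1; omega
    subst hi'
    simp only [stepPar] at *
    norm_num at *
    rcases lt_trichotomy v.2 0 with c | c | c
    · have := o7 (by omega); omega
    · have := o6 c; omega
    · omega
  · have := h.1; omega

theorem inactive_m3 (N : ℤ) (v z : V)
    (hv : Om (hexPar N) v) (ha : Adj v z) (_hz : ¬ Om (hexPar N) z) :
    ¬ Out (hexPar N) (-3) z := by
  rw [adj_iff] at ha
  obtain ⟨o1, o2, o3, o4, o5, o6, o7⟩ := hv
  intro h
  rcases h with h | h | h | h | h | h | h | h | h | h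
  iterate 9 (have := h.1; omega)
  simp only [hexPar] at *
  rcases lt_trichotomy v.2 0 with c | c | c
  · have := o7 (by omega); omega
  · have := o6 c; omega
  · omega

/-- the potential after opening `i` sides -/
theorem pot_step (N : ℤ) (hN : 4 ≤ N) (n : ℕ) (S : Finset V)
    (hS : ∀ v, Om (hexPar (8 * N)) v → v ∈ S) (hn : S.card ≤ n) (i : ℕ) (hi : i ≤ 6) :
    ∑ k ∈ Finset.Icc ((i : ℤ) - 2) 5, rho ^ (5 - k).toNat * Mass (Om (stepPar N i)) n k ≤
      ∑ k ∈ Finset.Icc (((i + 1 : ℕ) : ℤ) - 2) 5,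
        rho ^ (5 - k).toNat * Mass (Om (stepPar N (i + 1))) n k := by
  have h := potential (fun k => Mass (Om (stepPar N i)) n k)
    (fun k => Mass (Om (stepPar N (i + 1))) n k) ((i : ℤ) - 2) (by omega) (by omega)
    (mass_identity _ (ok_step N hN i) S (fun v hv => hS v (sub_big N hN i v hv)) n hn)
    (mass_identity _ (ok_step N hN (i + 1)) S (fun v hv => hS v (sub_big N hN (i + 1) v hv)) n hn)
    (fun k _ hk => mass_mono _ _ (ok_step N hN i) (sub_step N hN i) k
      (out_step N i k hk) n)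
    (mass_zero _ (ok_step N hN (i + 1)) _ (inactive_step N hN i hi) n)
  have e : ((i + 1 : ℕ) : ℤ) - 2 = (i : ℤ) - 2 + 1 := by push_cast; ring
  rw [e]
  exact h

/-- one scale step (`N ≥ 4`): from the hexagon of size `N` to the hexagon of size `8 N` -/
theorem growth_step (N : ℤ) (hN : 4 ≤ N) (n : ℕ) (S : Finset V)
    (hS : ∀ v, Om (hexPar (8 * N)) v → v ∈ S) (hn : S.card ≤ n) :
    (1 + 1 / 200 : ℝ) * (1 + Real.sin (Real.pi / 8) * Mass (Om (hexPar N)) n 5) ≤
      1 + Real.sin (Real.pi / 8) * Mass (Om (hexPar (8 * N))) n 5 := by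
  have hall : ∀ i : ℕ, i ≤ 7 →
      ∑ k ∈ Finset.Icc (-2 : ℤ) 5, rho ^ (5 - k).toNat * Mass (Om (hexPar N)) n k ≤
      ∑ k ∈ Finset.Icc ((i : ℤ) - 2) 5, rho ^ (5 - k).toNat * Mass (Om (stepPar N i)) n k := by
    intro i
    induction i with
    | zero =>
      intro _
      simp [stepPar_zero]
    | succ i ih =>
      intro hi
      exact (ih (by omega)).trans (pot_step N hN n S hS hn i (by omega))
  have h7 := hall 7 le_rfl
  have e7 : Finset.Icc (((7 : ℕ) : ℤ) - 2) 5 = {5} := by
    ext k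
    simp only [Finset.mem_Icc, Finset.mem_singleton]
    push_cast
    omega
  rw [e7, Finset.sum_singleton] at h7
  have e8 : ((5 : ℤ) - 5).toNat = 0 := rfl
  rw [e8, pow_zero, one_mul] at h7
  have h8 : Mass (Om (stepPar N 7)) n 5 ≤ Mass (Om (hexPar (8 * N))) n 5 := by
    apply mass_mono _ _ (ok_step N hN 7) (sub_big N hN 7) 5
    intro z hz
    unfold Out at hz
    have hz' : Slit z := by
      rcases hz with h | h | h | h | h | h | h | h | h | h
      · exact h.2
      all_goals (exfalso; omega)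
    exact fun ho => om_not_slit ho hz'
  have h3 : Mass (Om (hexPar N)) n (-3) = 0 :=
    mass_zero _ (ok_hex N hN) _ (inactive_m3 N) n
  have hnn : ∀ k, 0 ≤ Mass (Om (hexPar N)) n k := fun k => mass_nonneg _ n k
  have hS0 : ∀ v, Om (hexPar N) v → v ∈ S := by
    intro v hv
    rw [← stepPar_zero] at hv
    exact hS v (sub_big N hN 0 v hv)
  have hr := real_part (fun k => Mass (Om (hexPar N)) n k) hnn h3
    (mass_identity _ (ok_hex N hN) S hS0 n hn)
  beta_reduce at hr
  -- split off the term 5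
  have e9 : Finset.Icc (-2 : ℤ) 5 = insert 5 (Finset.Icc (-2 : ℤ) 4) := by
    ext k
    simp only [Finset.mem_insert, Finset.mem_Icc]
    omega
  rw [e9, Finset.sum_insert (by simp), e8, pow_zero, one_mul] at h7
  have h10 : rho ^ 7 * ∑ k ∈ Finset.Icc (-2 : ℤ) 4, Mass (Om (hexPar N)) n k ≤
      ∑ k ∈ Finset.Icc (-2 : ℤ) 4, rho ^ (5 - k).toNat * Mass (Om (hexPar N)) n k := by
    rw [Finset.mul_sum]
    apply Finset.sum_le_sum
    intro k hk
    rw [Finset.mem_Icc] at hk
    apply mul_le_mul_of_nonneg_right _ (hnn k)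
    exact pow_le_pow_of_le_one rho_pos.le rho_lt_one.le (by omega)
  have hsin := sin8_pos
  have hb := rho_bound
  have hr7 : 0 < rho ^ 7 := pow_pos rho_pos 7
  set m := Mass (Om (hexPar N)) n 5 with hm
  have hm0 : 0 ≤ m := hnn 5
  set s := Real.sin (Real.pi / 8) with hs
  have h11 : m + rho ^ 7 * (1 + s * m) ≤ Mass (Om (hexPar (8 * N))) n 5 := by
    have := mul_le_mul_of_nonneg_left hr hr7.le
    linarith
  have h12 := mul_le_mul_of_nonneg_left h11 hsin.le
  have h13 : 1 / 200 * (1 + s * m) ≤ s * rho ^ 7 * (1 + s * m) :=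
    mul_le_mul_of_nonneg_right hb (by positivity)
  nlinarith

theorem hex_finite (M : ℤ) (v : V) (h : Om (hexPar M) v) :
    v ∈ Finset.Icc (-2 * M + 1) (2 * M) ×ˢ Finset.Icc (-M) M := by
  simp only [Om, hexPar] at h
  rw [Finset.mem_product, Finset.mem_Icc, Finset.mem_Icc]
  omega

theorem growth (j n : ℕ) (hn : 256 * 64 ^ j ≤ n) :
    (1 + 1 / 200 : ℝ) ^ j ≤ 1 + Real.sin (Real.pi / 8) * Mass SlitPlane n 5 := by
  have hsin := sin8_pos
  have key : ∀ j : ℕ, 256 * 64 ^ j ≤ n →
      (1 + 1 / 200 : ℝ) ^ j ≤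
        1 + Real.sin (Real.pi / 8) * Mass (Om (hexPar (4 * 8 ^ j))) n 5 := by
    intro j
    induction j with
    | zero =>
      intro _
      have := mass_nonneg (Om (hexPar (4 * 8 ^ 0))) n 5
      rw [pow_zero]
      nlinarith [mul_nonneg hsin.le this]
    | succ j ih =>
      intro hj
      have hj' : 256 * 64 ^ j ≤ n := by
        rw [pow_succ] at hj
        omega
      have h1 := ih hj'
      have h8 : (1 : ℤ) ≤ 8 ^ j := one_le_pow₀ (by norm_num)
      have h2 := growth_step (4 * 8 ^ j) (by omega) n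
        (Finset.Icc (-2 * (8 * (4 * 8 ^ j)) + 1) (2 * (8 * (4 * 8 ^ j))) ×ˢ
          Finset.Icc (-(8 * (4 * 8 ^ j))) (8 * (4 * 8 ^ j)))
        (hex_finite _) (by
          rw [Finset.card_product, Int.card_Icc, Int.card_Icc]
          have e64 : (64 : ℕ) ^ (j + 1) = 64 * (8 ^ j * 8 ^ j) := by
            rw [pow_succ, ← mul_pow]; norm_num; ring
          rw [e64] at hj
          have e1 : (2 * (8 * (4 * 8 ^ j)) + 1 - (-2 * (8 * (4 * (8 : ℤ) ^ j)) + 1)).toNat =
              128 * 8 ^ j := by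
            have : (2 * (8 * (4 * 8 ^ j)) + 1 - (-2 * (8 * (4 * (8 : ℤ) ^ j)) + 1)) =
                ((128 * 8 ^ j : ℕ) : ℤ) := by push_cast; ring
            rw [this, Int.toNat_natCast]
          have e2 : (8 * (4 * 8 ^ j) + 1 - -(8 * (4 * (8 : ℤ) ^ j))).toNat = 64 * 8 ^ j + 1 := by
            have : (8 * (4 * 8 ^ j) + 1 - -(8 * (4 * (8 : ℤ) ^ j))) =
                ((64 * 8 ^ j + 1 : ℕ) : ℤ) := by push_cast; ring
            rw [this, Int.toNat_natCast]
          rw [e1, e2]
          have h8' : (1 : ℕ) ≤ 8 ^ j := Nat.one_le_pow _ _ (by norm_num)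
          nlinarith)
      have e3 : (8 * (4 * 8 ^ j) : ℤ) = 4 * 8 ^ (j + 1) := by ring
      rw [e3] at h2
      rw [pow_succ]
      calc (1 + 1 / 200 : ℝ) ^ j * (1 + 1 / 200)
          ≤ (1 + Real.sin (Real.pi / 8) * Mass (Om (hexPar (4 * 8 ^ j))) n 5) * (1 + 1 / 200) :=
            mul_le_mul_of_nonneg_right h1 (by norm_num)
        _ = (1 + 1 / 200) * (1 + Real.sin (Real.pi / 8) * Mass (Om (hexPar (4 * 8 ^ j))) n 5) :=
            mul_comm _ _
        _ ≤ _ := h2
  refine (key j hn).trans ?_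
  have h8 : (1 : ℤ) ≤ 8 ^ j := one_le_pow₀ (by norm_num)
  have := mass_le_slit (hexPar (4 * 8 ^ j)) (ok_hex _ (by omega)) n
  have := mul_le_mul_of_nonneg_left this hsin.le
  linarith

end H978R2.Hex
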