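import Pool.Agent.H978R2.Hex.Ident
import Pool.Agent.H978R2.Hex.Growth
import Pool.Agent.H978R2.Hex.Defs2

set_option autoImplicit false

/-! The lower bound for the number of self-avoiding walks. -/

namespace H978R2.Hex

open Complex

theorem adj_box {p q : V} (h : Adj p q) {k : ℤ} (h1 : |p.1| ≤ k) (h2 : |p.2| ≤ k) :
    |q.1| ≤ k + 1 ∧ |q.2| ≤ k + 1 := by
  obtain ⟨a, b⟩ := p
  obtain ⟨c, d⟩ := q
  simp only [Adj, Prod.mk_sub_mk, Prod.mk.injEq] at h h1 h2 ⊢
  rw [abs_le] at h1 h2 ⊢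
  rw [abs_le]
  omega

theorem saws_box {n : ℕ} {f : Fin (n + 1) → V} (hf : f ∈ saws n) (k : ℕ) (hk : k < n + 1) :
    |(f ⟨k, hk⟩).1| ≤ k ∧ |(f ⟨k, hk⟩).2| ≤ k := by
  induction k with
  | zero =>
    have h0 : f ⟨0, hk⟩ = 0 := hf.1
    rw [h0]
    simp
  | succ k ih =>
    have hk' : k < n + 1 := by omega
    have h1 := ih hk'
    have h2 := hf.2.2 ⟨k, by omega⟩
    have h3 := adj_box h2 (k := (k : ℤ)) h1.1 h1.2
    push_cast
    exact h3

theorem saws_finite (n : ℕ) : (saws n).Finite := by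
  have hfin : (Set.univ.pi (fun _ : Fin (n + 1) =>
      (Finset.Icc ((-(n : ℤ), -(n : ℤ)) : V) ((n : ℤ), (n : ℤ)) : Set V))).Finite :=
    Set.Finite.pi (fun _ => Finset.finite_toSet _)
  refine hfin.subset ?_
  intro f hf i _
  have h := saws_box hf i.1 i.2
  rw [abs_le, abs_le] at h
  have hi := i.2
  simp only [Fin.eta] at h
  rw [Finset.mem_coe, Finset.mem_Icc, Prod.le_def, Prod.le_def]
  simp only
  omega

/-- point reflection exchanging `(1,0)` and `(0,0)` -/
def psi (v : V) : V := (1 - v.1, -v.2)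

theorem psi_adj {p q : V} (h : Adj p q) : Adj (psi p) (psi q) := by
  obtain ⟨a, b⟩ := p
  obtain ⟨c, d⟩ := q
  simp only [Adj, psi, Prod.mk_sub_mk, Prod.mk.injEq, Int.even_iff] at h ⊢
  omega

theorem psi_inj {p q : V} (h : psi p = psi q) : p = q := by
  obtain ⟨a, b⟩ := p
  obtain ⟨c, d⟩ := q
  simp only [psi, Prod.mk.injEq] at h ⊢
  omega

theorem card_free_le (n : ℕ) : (Free SlitPlane n).card ≤ (saws n).ncard := by
  classical
  rw [← Set.ncard_coe_finset]
  refine Set.ncard_le_ncard_of_injOn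
    (fun l => fun i : Fin (n + 1) => psi ((l[n - i.1]?).getD 0)) ?_ ?_ (saws_finite n)
  · intro l hl
    rw [Finset.mem_coe] at hl
    unfold Free at hl
    rw [Finset.mem_filter] at hl
    obtain ⟨hl1, hl2, hl3⟩ := hl
    obtain ⟨z, t, rfl, hg, hlen⟩ := good_of_mem hl1
    simp only [List.headD_cons, List.tail_cons] at hl2 hl3
    have hnod : (z :: t).Nodup := List.nodup_cons.2 ⟨hl3, hg.nodup⟩
    have hlen2 : (z :: t).length = n + 2 := by simp [hlen]
    have hget : ∀ k, k < n + 2 → ∃ h : k < (z :: t).length, ((z :: t)[k]?).getD 0 = (z :: t)[k] := by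
      intro k hk
      refine ⟨by omega, ?_⟩
      rw [List.getElem?_eq_getElem (by omega)]
      rfl
    refine ⟨?_, ?_, ?_⟩
    · -- starts at zero
      obtain ⟨s, hs⟩ := hg.suff
      have hs2 : s.length = n := by
        have := congrArg List.length hs
        rw [hlen2, List.length_append] at this
        simpa using this
      have : ((z :: t)[n]?) = some (1, 0) := by
        rw [← hs, List.getElem?_append_right (by omega), hs2, Nat.sub_self]
        rfl
      simp only [Fin.val_zero, Nat.sub_zero]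
      rw [this]
      rfl
    · intro i j hij
      simp only at hij
      have h1 := psi_inj hij
      obtain ⟨h2, h3⟩ := hget (n - i.1) (by omega)
      obtain ⟨h4, h5⟩ := hget (n - j.1) (by omega)
      rw [h3, h5] at h1
      have h6 := (List.Nodup.getElem_inj_iff hnod).1 h1
      ext
      have := i.2
      have := j.2
      omega
    · intro i
      simp only [Fin.val_castSucc, Fin.val_succ]
      apply psi_adj
      have hi := i.2
      obtain ⟨h2, h3⟩ := hget (n - i.1) (by omega)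
      obtain ⟨h4, h5⟩ := hget (n - (i.1 + 1)) (by omega)
      rw [h3, h5]
      have hc := List.isChain_iff_getElem.1 hg.chain (n - (i.1 + 1)) (by omega)
      have e1 : n - (i.1 + 1) + 1 = n - i.1 := by omega
      simp only [e1] at hc
      exact hc
  · intro l hl l' hl' heq
    rw [Finset.mem_coe] at hl hl'
    unfold Free at hl hl'
    rw [Finset.mem_filter] at hl hl'
    obtain ⟨z, t, rfl, hg, hlen⟩ := good_of_mem hl.1
    obtain ⟨z', t', rfl, hg', hlen'⟩ := good_of_mem hl'.1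
    have hlast := hg.last2
    have hlast' := hg'.last2
    rw [List.getLast?_eq_getElem?] at hlast hlast'
    simp only [List.length_cons, hlen, hlen'] at hlast hlast'
    apply List.ext_getElem?
    intro k
    rcases lt_trichotomy k (n + 1) with hk | hk | hk
    · have h1 := congrFun heq ⟨n - k, by omega⟩
      simp only at h1
      have h2 := psi_inj h1
      have e1 : n - (n - k) = k := by omega
      rw [e1] at h2
      rw [List.getElem?_eq_getElem (by simp only [List.length_cons]; omega),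
        List.getElem?_eq_getElem (by simp only [List.length_cons]; omega)] at h2 ⊢
      simp only [Option.getD_some] at h2
      rw [h2]
    · subst hk
      have e2 : n + 1 + 1 - 1 = n + 1 := by omega
      rw [e2] at hlast hlast'
      rw [hlast, hlast']
    · rw [List.getElem?_eq_none (by simp only [List.length_cons]; omega),
        List.getElem?_eq_none (by simp only [List.length_cons]; omega)]

theorem re_exp (w : ℤ) : (exp ((w : ℂ) * (Real.pi / 8) * I)).re = Real.cos (w * (Real.pi / 8)) := by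
  have h : (w : ℂ) * (Real.pi / 8) * I = ((w * (Real.pi / 8) : ℝ) : ℂ) * I := by
    push_cast
    ring
  rw [h, Complex.exp_ofReal_mul_I_re]

theorem lower' (n : ℕ) :
    mu0 ^ n * (1 + Real.sin (Real.pi / 8) * Mass SlitPlane n 5) ≤ (Set.ncard (saws n) : ℝ) := by
  have hid := ident SlitPlane (by unfold SlitPlane Slit; norm_num) (fun v h => h) n
  have hre := congrArg Complex.re hid
  have h1 : (∑ l ∈ Free SlitPlane n, exp ((W l : ℂ) * (Real.pi / 8) * I)).re ≤
      (Set.ncard (saws n) : ℝ) := by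
    rw [Complex.re_sum]
    calc ∑ l ∈ Free SlitPlane n, (exp ((W l : ℂ) * (Real.pi / 8) * I)).re
        ≤ ∑ l ∈ Free SlitPlane n, (1 : ℝ) := by
          refine Finset.sum_le_sum fun l _ => ?_
          rw [re_exp]
          exact Real.cos_le_one _
      _ = ((Free SlitPlane n).card : ℝ) := by simp
      _ ≤ _ := by exact_mod_cast card_free_le n
  refine le_trans (le_of_eq ?_) h1
  rw [hre]
  have h2 : ((mu0 : ℂ) ^ n * (1 - ∑ m ∈ Finset.range (n + 1),
        ∑ l ∈ (P SlitPlane m).filter (fun l => ¬ SlitPlane (l.headD (0, 0))),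
          exp ((W l : ℂ) * (Real.pi / 8) * I) * ((mu0 : ℂ)⁻¹) ^ m)).re =
      mu0 ^ n * (1 - ∑ m ∈ Finset.range (n + 1),
        ∑ l ∈ (P SlitPlane m).filter (fun l => ¬ SlitPlane (l.headD (0, 0))),
          Real.cos (W l * (Real.pi / 8)) * (mu0⁻¹) ^ m) := by
    have e1 : (mu0 : ℂ) ^ n = ((mu0 ^ n : ℝ) : ℂ) := by push_cast; rfl
    rw [e1, Complex.re_ofReal_mul, Complex.sub_re, Complex.one_re, Complex.re_sum]
    congr 2
    refine Finset.sum_congr rfl fun m _ => ?_
    rw [Complex.re_sum]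
    refine Finset.sum_congr rfl fun l _ => ?_
    have e2 : ((mu0 : ℂ)⁻¹) ^ m = (((mu0⁻¹) ^ m : ℝ) : ℂ) := by push_cast; rfl
    rw [e2, Complex.re_mul_ofReal, re_exp]
  rw [h2]
  congr 1
  rw [sub_eq_add_neg]
  congr 1
  unfold Mass
  rw [Finset.mul_sum, ← Finset.sum_neg_distrib]
  refine Finset.sum_congr rfl fun m _ => ?_
  unfold Land
  have h3 : ∀ l ∈ (P SlitPlane m).filter (fun l => ¬ SlitPlane (l.headD (0, 0))),
      Real.cos (W l * (Real.pi / 8)) * (mu0⁻¹) ^ m =
        if W l = 5 then - (Real.sin (Real.pi / 8) * (mu0⁻¹) ^ m) else 0 := by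
    intro l hl
    rw [Finset.mem_filter] at hl
    rcases class_slit m l hl.1 hl.2 with h | h
    · rw [if_pos h, h]
      have : ((5 : ℤ) : ℝ) * (Real.pi / 8) = Real.pi / 8 + Real.pi / 2 := by push_cast; ring
      rw [this, Real.cos_add_pi_div_two]
      ring
    · rw [if_neg (by omega), h]
      have : ((-4 : ℤ) : ℝ) * (Real.pi / 8) = -(Real.pi / 2) := by push_cast; ring
      rw [this, Real.cos_neg, Real.cos_pi_div_two, zero_mul]
  rw [Finset.sum_congr rfl h3, ← Finset.sum_filter, Finset.filter_filter, Finset.sum_const,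
    nsmul_eq_mul]
  ring

theorem rpow_bound {a b : ℝ} (ha : 0 ≤ a) (hb : 0 ≤ b) (h : a ≤ b ^ 1000) :
    a ^ ((1 : ℝ) / 1000) ≤ b := by
  have h1 : a ^ ((1 : ℝ) / 1000) ≤ (b ^ 1000) ^ ((1 : ℝ) / 1000) :=
    Real.rpow_le_rpow ha h (by norm_num)
  have h2 : (b ^ 1000) ^ ((1 : ℝ) / 1000) = b := by
    have := Real.pow_rpow_inv_natCast hb (n := 1000) (by norm_num)
    rw [one_div]
    exact_mod_cast this
  rwa [h2] at h1

theorem num1 : (16384 : ℝ) ≤ (100 / 99) ^ 1000 := by
  have h1 : (27 / 10 : ℝ) ≤ (100 / 99) ^ 100 := by norm_num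
  calc (16384 : ℝ) ≤ (27 / 10) ^ 10 := by norm_num
    _ ≤ ((100 / 99) ^ 100) ^ 10 := pow_le_pow_left₀ (by norm_num) h1 10
    _ = (100 / 99) ^ 1000 := by rw [← pow_mul]

theorem num2 : (64 : ℝ) ≤ (1 + 1 / 200) ^ 1000 := by
  have h1 : (16 / 10 : ℝ) ≤ (1 + 1 / 200) ^ 100 := by norm_num
  calc (64 : ℝ) ≤ (16 / 10) ^ 10 := by norm_num
    _ ≤ ((1 + 1 / 200) ^ 100) ^ 10 := pow_le_pow_left₀ (by norm_num) h1 10
    _ = (1 + 1 / 200) ^ 1000 := by rw [← pow_mul]

theorem sin_pi_div_eight_pos : 0 < Real.sin (Real.pi / 8) :=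
  Real.sin_pos_of_pos_of_lt_pi (by positivity) (by linarith [Real.pi_pos])

theorem lower_power' (n : ℕ) (hn : 1 ≤ n) :
    99 / 100 * mu0 ^ n * (n : ℝ) ^ ((1 : ℝ) / 1000) ≤ (Set.ncard (saws n) : ℝ) := by
  refine le_trans ?_ (lower' n)
  have hmu : 0 < mu0 ^ n := pow_pos mu0_pos n
  have key : 99 / 100 * (n : ℝ) ^ ((1 : ℝ) / 1000) ≤
      1 + Real.sin (Real.pi / 8) * Mass SlitPlane n 5 := by
    have hM : 0 ≤ Real.sin (Real.pi / 8) * Mass SlitPlane n 5 :=
      mul_nonneg sin_pi_div_eight_pos.le (mass_nonneg _ _ _)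
    by_cases h256 : n < 256
    · have h1 : (n : ℝ) ^ ((1 : ℝ) / 1000) ≤ 100 / 99 := by
        apply rpow_bound (by positivity) (by norm_num)
        have : (n : ℝ) ≤ 256 := by exact_mod_cast h256.le
        exact (this.trans (by norm_num)).trans num1
      linarith
    · set j := Nat.log 64 (n / 256) with hj
      have h2 : 64 ^ j ≤ n / 256 := Nat.pow_log_le_self 64 (by omega)
      have h3 : n / 256 < 64 ^ (j + 1) := Nat.lt_pow_succ_log_self (by norm_num) _
      have h4 : 256 * 64 ^ j ≤ n := by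
        have := Nat.mul_div_le n 256
        calc 256 * 64 ^ j ≤ 256 * (n / 256) := Nat.mul_le_mul_left _ h2
          _ ≤ n := this
      have h5 : n < 16384 * 64 ^ j := by
        have h6 : n < 256 * (n / 256 + 1) := by omega
        have h7 : n / 256 + 1 ≤ 64 ^ (j + 1) := h3
        calc n < 256 * (n / 256 + 1) := h6
          _ ≤ 256 * 64 ^ (j + 1) := Nat.mul_le_mul_left _ h7
          _ = 16384 * 64 ^ j := by rw [pow_succ]; ring
      have h8 := growth j n h4
      refine le_trans ?_ h8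
      have h9 : (n : ℝ) ^ ((1 : ℝ) / 1000) ≤
          (16384 : ℝ) ^ ((1 : ℝ) / 1000) * ((64 : ℝ) ^ ((1 : ℝ) / 1000)) ^ j := by
        have e1 : (n : ℝ) ≤ 16384 * 64 ^ j := by exact_mod_cast h5.le
        calc (n : ℝ) ^ ((1 : ℝ) / 1000) ≤ (16384 * 64 ^ j : ℝ) ^ ((1 : ℝ) / 1000) :=
              Real.rpow_le_rpow (by positivity) e1 (by norm_num)
          _ = (16384 : ℝ) ^ ((1 : ℝ) / 1000) * ((64 : ℝ) ^ j) ^ ((1 : ℝ) / 1000) :=
              Real.mul_rpow (by norm_num) (by positivity)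
          _ = _ := by
              congr 1
              rw [← Real.rpow_natCast, ← Real.rpow_mul (by norm_num), ← Real.rpow_natCast,
                ← Real.rpow_mul (by norm_num), mul_comm]
      have h10 : (16384 : ℝ) ^ ((1 : ℝ) / 1000) ≤ 100 / 99 :=
        rpow_bound (by norm_num) (by norm_num) num1
      have h11 : (64 : ℝ) ^ ((1 : ℝ) / 1000) ≤ 1 + 1 / 200 :=
        rpow_bound (by norm_num) (by norm_num) num2
      have h12 : ((64 : ℝ) ^ ((1 : ℝ) / 1000)) ^ j ≤ (1 + 1 / 200) ^ j :=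
        pow_le_pow_left₀ (by positivity) h11 j
      calc 99 / 100 * (n : ℝ) ^ ((1 : ℝ) / 1000)
          ≤ 99 / 100 * ((16384 : ℝ) ^ ((1 : ℝ) / 1000) * ((64 : ℝ) ^ ((1 : ℝ) / 1000)) ^ j) := by
            gcongr
        _ ≤ 99 / 100 * (100 / 99 * (1 + 1 / 200) ^ j) := by
            gcongr
        _ = (1 + 1 / 200) ^ j := by ring
  calc 99 / 100 * mu0 ^ n * (n : ℝ) ^ ((1 : ℝ) / 1000)
      = mu0 ^ n * (99 / 100 * (n : ℝ) ^ ((1 : ℝ) / 1000)) := by ring
    _ ≤ _ := mul_le_mul_of_nonneg_left key hmu.le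

end H978R2.Hex
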