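import Pool.Agent.H978R2.Hex.Disj
import Pool.Agent.H978R2.Hex.Conn

set_option autoImplicit false

/-! The normalised numbers of walks and the non-intersection probabilities. -/

namespace H978R2.Hex

open Filter Topology

/-- `log (a_n / mu0^n)` -/
noncomputable def Rn (n : ℕ) : ℝ := Real.log ((saws n).ncard : ℝ) - n * Real.log mu0

theorem saws_ge (n : ℕ) : mu0 ^ n ≤ ((saws n).ncard : ℝ) := by
  refine le_trans ?_ (lower' n)
  have h2 : 0 ≤ Real.sin (Real.pi / 8) * Mass SlitPlane n 5 :=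
    mul_nonneg sin_pi_div_eight_pos.le (mass_nonneg _ _ _)
  nlinarith [pow_pos mu0_pos n]

theorem saws_pos (n : ℕ) : (0 : ℝ) < ((saws n).ncard : ℝ) := (pow_pos mu0_pos n).trans_le (saws_ge n)

theorem Rn_nonneg (n : ℕ) : 0 ≤ Rn n := by
  unfold Rn
  have h := Real.log_le_log (pow_pos mu0_pos n) (saws_ge n)
  rw [Real.log_pow] at h
  linarith

theorem Rn_lower (n : ℕ) (hn : 1 ≤ n) : 1 / 1000 * Real.log n - 1 / 99 ≤ Rn n := by
  have hn0 : (0 : ℝ) < n := by exact_mod_cast hn
  have h := lower_power' n hn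
  have h0 : 0 < 99 / 100 * mu0 ^ n * (n : ℝ) ^ ((1 : ℝ) / 1000) :=
    mul_pos (mul_pos (by norm_num) (pow_pos mu0_pos n)) (Real.rpow_pos_of_pos hn0 _)
  have h1 := Real.log_le_log h0 h
  rw [Real.log_mul (mul_pos (by norm_num) (pow_pos mu0_pos n)).ne' (Real.rpow_pos_of_pos hn0 _).ne',
    Real.log_mul (by norm_num) (pow_pos mu0_pos n).ne', Real.log_pow, Real.log_rpow hn0] at h1
  have h2 : -(1 / 99) ≤ Real.log (99 / 100) := by
    have h3 := Real.one_sub_inv_le_log_of_pos (show (0 : ℝ) < 99 / 100 by norm_num)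
    norm_num at h3 ⊢
    linarith
  unfold Rn
  linarith

theorem log_subadd : Subadditive (fun n => Real.log ((saws n).ncard : ℝ)) := by
  intro m n
  rw [← Real.log_mul (saws_pos m).ne' (saws_pos n).ne']
  refine Real.log_le_log (saws_pos _) ?_
  exact_mod_cast submul m n

theorem log_lower (n : ℕ) (hn : 1 ≤ n) :
    Real.log mu0 ≤ Real.log ((saws n).ncard : ℝ) / n := by
  have hn0 : (0 : ℝ) < n := by exact_mod_cast hn
  rw [le_div_iff₀ hn0]
  have := Rn_nonneg n
  unfold Rn at this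
  linarith

theorem log_bdd : BddBelow (Set.range fun n : ℕ => Real.log ((saws n).ncard : ℝ) / n) := by
  refine ⟨min 0 (Real.log mu0), ?_⟩
  rintro _ ⟨n, rfl⟩
  simp only
  rcases Nat.eq_zero_or_pos n with rfl | hn
  · simp
  · exact (min_le_right _ _).trans (log_lower n hn)

theorem lim_eq : log_subadd.lim = Real.log mu0 := by
  refine le_antisymm ?_ ?_
  · -- `exp lim` is a lower bound of `a_n^{1/n}`
    have : Nonempty {n : ℕ // 1 ≤ n} := ⟨⟨1, le_refl 1⟩⟩
    have h1 : Real.exp log_subadd.lim ≤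
        (⨅ n : {n : ℕ // 1 ≤ n}, ((Set.ncard (saws n.1) : ℝ) ^ ((1 : ℝ) / (n.1 : ℝ)))) := by
      refine le_ciInf fun n => ?_
      have h2 := log_subadd.lim_le_div log_bdd (n := n.1) (by have := n.2; omega)
      rw [Real.rpow_def_of_pos (saws_pos n.1)]
      refine Real.exp_le_exp.2 (h2.trans (le_of_eq ?_))
      ring
    have h3 := h1.trans connective_le
    rw [← Real.log_exp log_subadd.lim]
    exact Real.log_le_log (Real.exp_pos _) h3
  · refine ge_of_tendsto (log_subadd.tendsto_lim log_bdd) ?_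
    filter_upwards [eventually_ge_atTop 1] with n hn
    exact log_lower n hn

theorem Rn_div : Tendsto (fun n : ℕ => Rn n / n) atTop (𝓝 0) := by
  have h := log_subadd.tendsto_lim log_bdd
  rw [lim_eq] at h
  have h2 := h.sub_const (Real.log mu0)
  rw [sub_self] at h2
  refine h2.congr' ?_
  filter_upwards [eventually_ge_atTop 1] with n hn
  have hn0 : (n : ℝ) ≠ 0 := by
    have : (0 : ℝ) < n := by exact_mod_cast hn
    exact this.ne'
  unfold Rn
  field_simp

/-- probability that two independent uniform walks of length `n` only meet at the origin -/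
noncomputable def Pd (n : ℕ) : ℝ := ((dpairs n).ncard : ℝ) / ((saws n).ncard : ℝ) ^ 2

theorem Pd_pos (n : ℕ) : 0 < Pd n := by
  unfold Pd
  rw [card_dpairs]
  exact div_pos (saws_pos _) (pow_pos (saws_pos _) 2)

theorem log_Pd (n : ℕ) : Real.log (1 / Pd n) = 2 * Rn n - Rn (2 * n) := by
  unfold Pd Rn
  rw [card_dpairs, ← two_mul, one_div, inv_div, Real.log_div (pow_pos (saws_pos _) 2).ne'
    (saws_pos _).ne', Real.log_pow]
  push_cast
  ring

theorem log_Pd_nonneg (n : ℕ) : 0 ≤ Real.log (1 / Pd n) := by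
  rw [log_Pd]
  have h := log_subadd n n
  simp only at h
  unfold Rn
  rw [← two_mul] at h
  push_cast
  linarith

theorem Pd_le_one (n : ℕ) : Pd n ≤ 1 := by
  have h := log_Pd_nonneg n
  rw [one_div, Real.log_inv] at h
  by_contra h2
  push Not at h2
  have := Real.log_pos h2
  linarith

theorem psum_eq (n K : ℕ) :
    ∑ j ∈ Finset.range K, (1 / 2 : ℝ) ^ (j + 1) * Real.log (1 / Pd (2 ^ j * n)) =
      Rn n - (1 / 2) ^ K * Rn (2 ^ K * n) := by
  induction K with
  | zero => simp
  | succ K ih =>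
    rw [Finset.sum_range_succ, ih, log_Pd]
    have e : 2 * (2 ^ K * n) = 2 ^ (K + 1) * n := by ring
    rw [e]
    ring

theorem tendsto_zero (n : ℕ) (hn : 1 ≤ n) :
    Tendsto (fun K : ℕ => (1 / 2 : ℝ) ^ K * Rn (2 ^ K * n)) atTop (𝓝 0) := by
  have hn0 : (n : ℝ) ≠ 0 := by
    have : (0 : ℝ) < n := by exact_mod_cast hn
    exact this.ne'
  have h1 : Tendsto (fun K : ℕ => 2 ^ K * n) atTop atTop := by
    refine Filter.tendsto_atTop_mono (fun K => ?_) (tendsto_pow_atTop_atTop_of_one_lt one_lt_two)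
    exact Nat.le_mul_of_pos_right _ hn
  have h2 := (Rn_div.comp h1).const_mul (n : ℝ)
  rw [mul_zero] at h2
  refine h2.congr fun K => ?_
  simp only [Function.comp]
  push_cast
  have h3 : (2 : ℝ) ^ K ≠ 0 := by positivity
  rw [one_div, inv_pow]
  field_simp

theorem hasSum_Pd (n : ℕ) (hn : 1 ≤ n) :
    HasSum (fun j : ℕ => (1 / 2 : ℝ) ^ (j + 1) * Real.log (1 / Pd (2 ^ j * n))) (Rn n) := by
  rw [hasSum_iff_tendsto_nat_of_nonneg]
  · have h := (tendsto_const_nhds (x := Rn n)).sub (tendsto_zero n hn)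
    rw [sub_zero] at h
    exact h.congr fun K => (psum_eq n K).symm
  · intro j
    exact mul_nonneg (by positivity) (log_Pd_nonneg _)

theorem sum_aux (A B : ℝ) (K : ℕ) :
    ∑ j ∈ Finset.range K, (1 / 2 : ℝ) ^ (j + 1) * (A + j * B) =
      A * (1 - (1 / 2) ^ K) + B * (1 - (K + 1) * (1 / 2) ^ K) := by
  induction K with
  | zero => simp
  | succ K ih =>
    rw [Finset.sum_range_succ, ih]
    push_cast
    ring

theorem exists_small (δ : ℝ) (hδ : δ < 1 / 1000) :
    ∃ N : ℕ, ∀ n : ℕ, N ≤ n → ∃ j : ℕ, Pd (2 ^ j * n) ≤ ((2 ^ j * n : ℕ) : ℝ) ^ (-δ) := by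
  rcases le_or_gt δ 0 with h0 | h0
  · refine ⟨1, fun n hn => ⟨0, (Pd_le_one _).trans ?_⟩⟩
    have : (1 : ℝ) ≤ ((2 ^ 0 * n : ℕ) : ℝ) := by
      rw [pow_zero, one_mul]
      exact_mod_cast hn
    exact Real.one_le_rpow this (by linarith)
  · have hlog : Tendsto (fun n : ℕ => (1 / 1000 - δ) * Real.log n) atTop atTop :=
      (Real.tendsto_log_atTop.comp tendsto_natCast_atTop_atTop).const_mul_atTop (by linarith)
    obtain ⟨N, hN⟩ := Filter.eventually_atTop.1
      (hlog.eventually_gt_atTop (δ * Real.log 2 + 1 / 99))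
    refine ⟨max N 1, fun n hn => ?_⟩
    have hn1 : 1 ≤ n := (le_max_right _ _).trans hn
    have hn0 : (0 : ℝ) < n := by exact_mod_cast hn1
    have hlogn : 0 ≤ Real.log n := Real.log_nonneg (by exact_mod_cast hn1)
    by_contra hcon
    push Not at hcon
    have hlog2 : 0 ≤ Real.log 2 := Real.log_nonneg (by norm_num)
    have h1 : ∀ j : ℕ, Real.log (1 / Pd (2 ^ j * n)) ≤ δ * Real.log n + j * (δ * Real.log 2) := by
      intro j
      have h2 := hcon j
      have hpos : (0 : ℝ) < ((2 ^ j * n : ℕ) : ℝ) := by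
        push_cast
        positivity
      have h3 := Real.log_le_log (Real.rpow_pos_of_pos hpos _) h2.le
      rw [Real.log_rpow hpos] at h3
      rw [one_div, Real.log_inv]
      have h4 : Real.log ((2 ^ j * n : ℕ) : ℝ) = j * Real.log 2 + Real.log n := by
        push_cast
        rw [Real.log_mul (by positivity) hn0.ne', Real.log_pow]
      rw [h4] at h3
      linarith
    have h2 : ∀ K : ℕ, ∑ j ∈ Finset.range K, (1 / 2 : ℝ) ^ (j + 1) *
        Real.log (1 / Pd (2 ^ j * n)) ≤ δ * Real.log n + δ * Real.log 2 := by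
      intro K
      calc ∑ j ∈ Finset.range K, (1 / 2 : ℝ) ^ (j + 1) * Real.log (1 / Pd (2 ^ j * n))
          ≤ ∑ j ∈ Finset.range K, (1 / 2 : ℝ) ^ (j + 1) * (δ * Real.log n + j * (δ * Real.log 2)) :=
            Finset.sum_le_sum fun j _ => mul_le_mul_of_nonneg_left (h1 j) (by positivity)
        _ = _ := sum_aux _ _ K
        _ ≤ _ := by
            have h5 : (0 : ℝ) ≤ (1 / 2) ^ K := by positivity
            have h6 : 0 ≤ δ * Real.log n := mul_nonneg h0.le hlogn
            have h7 : 0 ≤ δ * Real.log 2 := mul_nonneg h0.le hlog2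
            have h8 : 0 ≤ δ * Real.log n * (1 / 2) ^ K := mul_nonneg h6 h5
            have h9 : 0 ≤ δ * Real.log 2 * (((K : ℝ) + 1) * (1 / 2) ^ K) :=
              mul_nonneg h7 (mul_nonneg (by positivity) h5)
            nlinarith
    have h3 : Rn n ≤ δ * Real.log n + δ * Real.log 2 :=
      le_of_tendsto' ((hasSum_iff_tendsto_nat_of_nonneg (fun j =>
        mul_nonneg (by positivity) (log_Pd_nonneg _)) _).1 (hasSum_Pd n hn1)) h2
    have h4 := Rn_lower n hn1
    have h5 := hN n ((le_max_left _ _).trans hn)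
    nlinarith

theorem exponent (α : ℝ)
    (h : Tendsto (fun n : ℕ => Real.log (Pd n) / Real.log n) atTop (𝓝 α)) : α ≤ -(1 / 1000) := by
  by_contra hα
  push Not at hα
  obtain ⟨δ, h1, h2⟩ := exists_between (show -α < 1 / 1000 by linarith)
  obtain ⟨N, hN⟩ := exists_small δ h2
  have h3 := h.eventually_const_lt (show -δ < α by linarith)
  obtain ⟨M, hM⟩ := Filter.eventually_atTop.1 h3
  set n := max (max N M) 2 with hn
  obtain ⟨j, hj⟩ := hN n ((le_max_left _ _).trans (le_max_left _ _))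
  have hnj : n ≤ 2 ^ j * n := Nat.le_mul_of_pos_left _ (by positivity)
  have h4 := hM (2 ^ j * n) (((le_max_right _ _).trans (le_max_left _ _)).trans hnj)
  have hn2 : 2 ≤ 2 ^ j * n := (le_max_right _ _).trans hnj
  have hpos : (1 : ℝ) < ((2 ^ j * n : ℕ) : ℝ) := by exact_mod_cast (by omega : 1 < 2 ^ j * n)
  have hlog : 0 < Real.log ((2 ^ j * n : ℕ) : ℝ) := Real.log_pos hpos
  rw [lt_div_iff₀ hlog] at h4
  have h5 := Real.log_le_log (Pd_pos _) hj
  rw [Real.log_rpow (by linarith)] at h5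
  linarith

end H978R2.Hex
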