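import Mathlib

set_option autoImplicit false

/-!
Honeycomb lattice in brick-wall coordinates, its embedding into the plane, paths as reversed lists
of vertices, winding, slit plane and the domains `Om p`.
-/

namespace H978R2.Hex

/-- vertices of the honeycomb lattice (brick-wall coordinates) -/
abbrev V : Type := ℤ × ℤ

/-- honeycomb adjacency: horizontal neighbours, and `(x,y) ~ (x,y+1)` when `x+y` is even -/
def Adj (p q : V) : Prop :=
  q - p = (1, 0) ∨ q - p = (-1, 0) ∨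
  (q - p = (0, 1) ∧ Even (p.1 + p.2)) ∨
  (q - p = (0, -1) ∧ Even (q.1 + q.2))

instance : DecidableRel Adj := fun p q => by unfold Adj; infer_instance

/-- the three neighbours -/
def nbrs (v : V) : Finset V :=
  {(v.1 + 1, v.2), (v.1 - 1, v.2), if Even (v.1 + v.2) then (v.1, v.2 + 1) else (v.1, v.2 - 1)}

/-- height of a vertex in units of 1/2 -/
def ht (v : V) : ℤ := 3 * v.2 - (v.1 + v.2) % 2

/-- embedding into the plane: edges have length 1 -/
noncomputable def pos (v : V) : ℂ := ⟨Real.sqrt 3 / 2 * (v.1 : ℝ), (ht v : ℝ) / 2⟩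

/-- turn at `y` when walking `x → y → z`: `+1` left, `-1` right -/
def turn (x y z : V) : ℤ :=
  ((y.1 - x.1) * (ht z - ht y) - (ht y - ht x) * (z.1 - y.1)) / 2

/-- total winding (number of left turns minus right turns) of a reversed path -/
def W : List V → ℤ
  | z :: y :: x :: t => turn x y z + W (y :: x :: t)
  | _ => 0

/-- angle under which the step from `q` to `p` is seen from `b` -/
noncomputable def ang (b p q : V) : ℝ := Complex.arg ((pos p - pos b) / (pos q - pos b))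

/-- total angle swept, seen from `b`, along the reversed path -/
noncomputable def wind (b : V) : List V → ℝ
  | p :: q :: t => ang b p q + wind b (q :: t)
  | _ => 0

/-- the slit: row 0, nonpositive abscissa -/
def Slit (v : V) : Prop := v.2 = 0 ∧ v.1 ≤ 0

instance : DecidablePred Slit := fun v => by unfold Slit; infer_instance

/-- Reversed walk `z :: w_m :: … :: w_1 :: w_0` with `w_0 = (0,0)`, `w_1 = (1,0)` in the domain `Om`:
`w_1, …, w_m` are distinct vertices of `Om`, different from `w_0`; `z` is the next vertex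
(no condition on `z` except adjacency and no backtracking). The list `[(1,0),(0,0)]` is the
initial state. -/
def Val (Om : V → Prop) : List V → Prop
  | [] => False
  | [_] => False
  | [z, y] => z = (1, 0) ∧ y = (0, 0)
  | z :: y :: x :: t => Adj y z ∧ z ≠ x ∧ Om y ∧ y ∉ x :: t ∧ Val Om (y :: x :: t)

/-- the finite set of walks with `m` vertices `w_1, …, w_m` (lists of length `m+2`) -/
def P (Om : V → Prop) [DecidablePred Om] : ℕ → Finset (List V)
  | 0 => {[(1, 0), (0, 0)]}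
  | m + 1 => (P Om m).biUnion fun l =>
      match l with
      | z :: y :: t =>
          if Om z ∧ z ∉ y :: t then
            ((nbrs z).erase y).image (fun z' => z' :: z :: y :: t)
          else ∅
      | _ => ∅

/-- `sqrt (2 + sqrt 2)` -/
noncomputable def mu0 : ℝ := Real.sqrt (2 + Real.sqrt 2)

/-- landing walks with winding index `k` and `m` vertices -/
def Land (Om : V → Prop) [DecidablePred Om] (m : ℕ) (k : ℤ) : Finset (List V) :=
  (P Om m).filter (fun l => ¬ Om (l.headD (0, 0)) ∧ W l = k)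

/-- critical mass of the walks with at most `n` vertices landing with winding index `k` -/
noncomputable def Mass (Om : V → Prop) [DecidablePred Om] (n : ℕ) (k : ℤ) : ℝ :=
  ∑ m ∈ Finset.range (n + 1), ((Land Om m k).card : ℝ) * (mu0⁻¹) ^ m

/-- free walks: the next vertex is in the domain and not yet visited -/
def Free (Om : V → Prop) [DecidablePred Om] (m : ℕ) : Finset (List V) :=
  (P Om m).filter (fun l => Om (l.headD (0, 0)) ∧ l.headD (0, 0) ∉ l.tail)

/-- parameters of the domains -/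
structure Par where
  a4 : ℤ
  c3 : ℤ
  R : ℤ
  b : ℤ
  d : ℤ
  Q : ℤ
  a2 : ℤ
  c1 : ℤ

/-- the domain with parameters `p` -/
def Om (p : Par) (v : V) : Prop :=
  v.2 ≤ p.R ∧ -p.Q ≤ v.2 ∧ v.1 + v.2 ≤ p.b ∧ v.1 - v.2 ≤ p.d ∧
  (1 ≤ v.2 → p.a4 ≤ v.1 + v.2 ∧ p.c3 ≤ v.1 - v.2) ∧
  (v.2 = 0 → 1 ≤ v.1) ∧
  (v.2 ≤ -1 → p.a2 ≤ v.1 + v.2 ∧ p.c1 ≤ v.1 - v.2)

instance (p : Par) : DecidablePred (Om p) := fun v => by unfold Om; infer_instance

/-- admissible parameters -/
structure Ok (p : Par) : Prop where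
  hb : p.b % 2 = 1
  hd : p.d % 2 = 0
  ha4 : p.a4 % 2 = 0
  hc3 : p.c3 % 2 = 1
  ha2 : p.a2 % 2 = 0
  hc1 : p.c1 % 2 = 1
  hR : 0 ≤ p.R
  hQ : 0 ≤ p.Q
  b1 : 1 ≤ p.b
  d2 : 2 ≤ p.d
  a42 : p.a4 ≤ 2
  c31 : p.c3 ≤ 1
  a20 : p.a2 ≤ 0
  c11 : p.c1 ≤ 1

/-- position of the landing vertex on side `k` -/
def Out (p : Par) (k : ℤ) (z : V) : Prop :=
  (k = 5 ∧ Slit z) ∨ (k = -4 ∧ Slit z) ∨
  (k = 4 ∧ 1 ≤ z.2 ∧ z.1 + z.2 < p.a4) ∨
  (k = 3 ∧ 1 ≤ z.2 ∧ z.1 - z.2 < p.c3) ∨
  (k = 2 ∧ p.R < z.2) ∨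
  (k = 1 ∧ p.b < z.1 + z.2) ∨
  (k = 0 ∧ p.d < z.1 - z.2) ∨
  (k = -1 ∧ z.2 < -p.Q) ∨
  (k = -2 ∧ z.2 ≤ -1 ∧ z.1 + z.2 < p.a2) ∨
  (k = -3 ∧ z.2 ≤ -1 ∧ z.1 - z.2 < p.c1)

/-- slit plane -/
def SlitPlane (v : V) : Prop := ¬ Slit v

instance : DecidablePred SlitPlane := fun v => by unfold SlitPlane; infer_instance

end H978R2.Hex
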