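import Pool.Agent.H978R2.Hex.Defs

set_option autoImplicit false

/-! Section A: planar embedding of the brick wall (angles). -/

namespace H978R2.Hex

open Complex

theorem adj_iff {p q : V} : Adj p q ↔
    (q.1 - p.1 = 1 ∧ q.2 - p.2 = 0) ∨ (q.1 - p.1 = -1 ∧ q.2 - p.2 = 0) ∨
    (q.1 - p.1 = 0 ∧ q.2 - p.2 = 1 ∧ (p.1 + p.2) % 2 = 0) ∨
    (q.1 - p.1 = 0 ∧ q.2 - p.2 = -1 ∧ (q.1 + q.2) % 2 = 0) := by
  unfold Adj
  simp only [Prod.ext_iff, Prod.fst_sub, Prod.snd_sub, Int.even_iff]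
  tauto

theorem mem_nbrs {p q : V} : q ∈ nbrs p ↔ Adj p q := by
  rw [adj_iff]
  unfold nbrs
  obtain ⟨a, b⟩ := p
  obtain ⟨c, d⟩ := q
  simp only [Finset.mem_insert, Finset.mem_singleton, Prod.mk.injEq, Int.even_iff]
  split_ifs with h
  · simp only [Prod.mk.injEq]
    omega
  · simp only [Prod.mk.injEq]
    omega

theorem adj_symm {p q : V} (h : Adj p q) : Adj q p := by
  rw [adj_iff] at h ⊢
  omega

theorem adj_ne {p q : V} (h : Adj p q) : p ≠ q := by
  rw [adj_iff] at h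
  rintro rfl
  omega

theorem v_ext {p q : V} (h1 : p.1 = q.1) (h2 : ht p = ht q) : p = q := by
  unfold ht at h2
  apply Prod.ext h1
  omega

/-- the steps from an even and from an odd vertex -/
theorem adj_delta {p q : V} (h : Adj p q) :
    ((p.1 + p.2) % 2 = 0 ∧ (q.1 + q.2) % 2 = 1 ∧
      ((q.1 - p.1 = 1 ∧ ht q - ht p = -1) ∨ (q.1 - p.1 = -1 ∧ ht q - ht p = -1) ∨
        (q.1 - p.1 = 0 ∧ ht q - ht p = 2))) ∨
    ((p.1 + p.2) % 2 = 1 ∧ (q.1 + q.2) % 2 = 0 ∧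
      ((q.1 - p.1 = 1 ∧ ht q - ht p = 1) ∨ (q.1 - p.1 = -1 ∧ ht q - ht p = 1) ∨
        (q.1 - p.1 = 0 ∧ ht q - ht p = -2))) := by
  rw [adj_iff] at h
  unfold ht
  omega

theorem pos_sub_re (p q : V) : (pos p - pos q).re = Real.sqrt 3 / 2 * ((p.1 - q.1 : ℤ) : ℝ) := by
  unfold pos
  simp only [Complex.sub_re]
  push_cast
  ring

theorem pos_sub_im (p q : V) : (pos p - pos q).im = ((ht p - ht q : ℤ) : ℝ) / 2 := by
  unfold pos
  simp only [Complex.sub_im]
  push_cast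
  ring

theorem sq3 : Real.sqrt 3 * Real.sqrt 3 = 3 := Real.mul_self_sqrt (by norm_num)

theorem normSq_pos_sub (p q : V) : Complex.normSq (pos p - pos q) =
    ((3 * (p.1 - q.1) ^ 2 + (ht p - ht q) ^ 2 : ℤ) : ℝ) / 4 := by
  rw [Complex.normSq_apply, pos_sub_re, pos_sub_im]
  push_cast
  have := sq3
  linear_combination (((p.1 : ℝ) - q.1) ^ 2 / 4) * this

theorem norm_of_adj {p q : V} (h : Adj p q) : ‖pos p - pos q‖ = 1 := by
  have h1 : Complex.normSq (pos p - pos q) = 1 := by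
    rw [normSq_pos_sub]
    have : (3 * (p.1 - q.1) ^ 2 + (ht p - ht q) ^ 2 : ℤ) = 4 := by
      rcases adj_delta h with ⟨-, -, h⟩ | ⟨-, -, h⟩ <;> rcases h with ⟨e1, e2⟩ | ⟨e1, e2⟩ | ⟨e1, e2⟩
      all_goals
        have f1 : p.1 - q.1 = -(q.1 - p.1) := by ring
        have f2 : ht p - ht q = -(ht q - ht p) := by ring
        rw [f1, f2, e1, e2]
        norm_num
    rw [this]
    norm_num
  rw [Complex.normSq_eq_norm_sq] at h1
  have h2 : 0 ≤ ‖pos p - pos q‖ := norm_nonneg _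
  nlinarith

theorem one_le_norm {p q : V} (h : p ≠ q) : 1 ≤ ‖pos p - pos q‖ := by
  have h1 : 1 ≤ Complex.normSq (pos p - pos q) := by
    rw [normSq_pos_sub]
    have : (4 : ℤ) ≤ (3 * (p.1 - q.1) ^ 2 + (ht p - ht q) ^ 2 : ℤ) := by
      set a := p.1 - q.1 with ha
      set k := ht p - ht q with hk
      have hc : (a = 0 ∧ (2 ≤ k ∨ k ≤ -2)) ∨ ((1 ≤ a ∨ a ≤ -1) ∧ (1 ≤ k ∨ k ≤ -1)) ∨
          (2 ≤ a ∨ a ≤ -2) := by
        have hne : ¬ (p.1 = q.1 ∧ p.2 = q.2) := fun e => h (Prod.ext e.1 e.2)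
        unfold ht at hk
        omega
      rcases hc with ⟨h0, h1 | h1⟩ | ⟨h0 | h0, h1 | h1⟩ | (h0 | h0) <;> nlinarith
    have h2 : ((4 : ℤ) : ℝ) ≤ ((3 * (p.1 - q.1) ^ 2 + (ht p - ht q) ^ 2 : ℤ) : ℝ) := by
      exact_mod_cast this
    have h3 : ((4 : ℤ) : ℝ) = 4 := by norm_num
    rw [h3] at h2
    linarith
  rw [Complex.normSq_eq_norm_sq] at h1
  have h2 : 0 ≤ ‖pos p - pos q‖ := norm_nonneg _
  nlinarith

/-- turn and scalar product of two consecutive steps -/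
theorem turn_aux {x y z : V} (h1 : Adj x y) (h2 : Adj y z) (h3 : x ≠ z) :
    (turn x y z = 1 ∨ turn x y z = -1) ∧
    (y.1 - x.1) * (ht z - ht y) - (ht y - ht x) * (z.1 - y.1) = 2 * turn x y z ∧
    3 * ((z.1 - y.1) * (y.1 - x.1)) + (ht z - ht y) * (ht y - ht x) = 2 := by
  unfold turn
  rcases adj_delta h1 with ⟨p1, p2, h⟩ | ⟨p1, p2, h⟩ <;>
  rcases adj_delta h2 with ⟨p3, p4, h'⟩ | ⟨p3, p4, h'⟩ <;>
  first
  | (exfalso; omega)
  | (rcases h with ⟨e1, e2⟩ | ⟨e1, e2⟩ | ⟨e1, e2⟩ <;>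
     rcases h' with ⟨e3, e4⟩ | ⟨e3, e4⟩ | ⟨e3, e4⟩ <;>
     first
     | (exfalso; exact h3 (v_ext (by omega) (by omega)))
     | (rw [e1, e2, e3, e4]; norm_num))

theorem turn_pm {x y z : V} (h1 : Adj x y) (h2 : Adj y z) (h3 : x ≠ z) :
    turn x y z = 1 ∨ turn x y z = -1 := (turn_aux h1 h2 h3).1

theorem turn_rev {x y z : V} (h1 : Adj x y) (h2 : Adj y z) (h3 : x ≠ z) :
    turn z y x = - turn x y z := by
  have a := (turn_aux h1 h2 h3).2.1
  have b := (turn_aux (adj_symm h2) (adj_symm h1) h3.symm).2.1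
  have : 2 * turn z y x = -(2 * turn x y z) := by
    rw [← a, ← b]; ring
  linarith

theorem turn_other {q c a b : V} (hq : Adj q c) (ha : Adj c a) (hb : Adj c b)
    (hqa : q ≠ a) (hqb : q ≠ b) (hab : a ≠ b) : turn q c a = - turn q c b := by
  have h1 := (turn_aux hq ha hqa).2.1
  have h2 := (turn_aux hq hb hqb).2.1
  have key : (c.1 - q.1) * (ht a - ht c) - (ht c - ht q) * (a.1 - c.1) =
      -((c.1 - q.1) * (ht b - ht c) - (ht c - ht q) * (b.1 - c.1)) := by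
    rcases adj_delta hq with ⟨p1, p2, h⟩ | ⟨p1, p2, h⟩ <;>
    rcases adj_delta ha with ⟨p3, p4, h'⟩ | ⟨p3, p4, h'⟩ <;>
    rcases adj_delta hb with ⟨p5, p6, h''⟩ | ⟨p5, p6, h''⟩ <;>
    first
    | (exfalso; omega)
    | (rcases h with ⟨e1, e2⟩ | ⟨e1, e2⟩ | ⟨e1, e2⟩ <;>
       rcases h' with ⟨e3, e4⟩ | ⟨e3, e4⟩ | ⟨e3, e4⟩ <;>
       rcases h'' with ⟨e5, e6⟩ | ⟨e5, e6⟩ | ⟨e5, e6⟩ <;>
       first
       | (exfalso; exact hqa (v_ext (by omega) (by omega)))
       | (exfalso; exact hqb (v_ext (by omega) (by omega)))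
       | (exfalso; exact hab (v_ext (by omega) (by omega)))
       | (rw [e1, e2, e3, e4, e5, e6]; norm_num))
  have : 2 * turn q c a = -(2 * turn q c b) := by
    rw [← h1, ← h2]; exact key
  linarith

theorem arg_turn {x y z : V} (h1 : Adj x y) (h2 : Adj y z) (h3 : x ≠ z) :
    arg ((pos z - pos y) / (pos y - pos x)) = (turn x y z : ℝ) * (Real.pi / 3) := by
  obtain ⟨ht1, ht2, ht3⟩ := turn_aux h1 h2 h3
  have hn : Complex.normSq (pos y - pos x) = 1 := by
    have := norm_of_adj (adj_symm h1)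
    rw [Complex.normSq_eq_norm_sq, this]; norm_num
  have hr : (pos z - pos y) / (pos y - pos x) =
      ((Real.cos ((turn x y z : ℝ) * (Real.pi / 3)) : ℝ) : ℂ) +
        ((Real.sin ((turn x y z : ℝ) * (Real.pi / 3)) : ℝ) : ℂ) * I := by
    have hc : Real.cos ((turn x y z : ℝ) * (Real.pi / 3)) = 1 / 2 := by
      rcases ht1 with h | h <;> rw [h] <;> push_cast
      · rw [one_mul, Real.cos_pi_div_three]
      · rw [neg_mul, one_mul, Real.cos_neg, Real.cos_pi_div_three]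
    have hs : Real.sin ((turn x y z : ℝ) * (Real.pi / 3)) =
        (turn x y z : ℝ) * (Real.sqrt 3 / 2) := by
      rcases ht1 with h | h <;> rw [h] <;> push_cast
      · rw [one_mul, one_mul, Real.sin_pi_div_three]
      · rw [neg_mul, one_mul, Real.sin_neg, Real.sin_pi_div_three]; ring
    have e2 : (((y.1 - x.1 : ℤ) : ℝ) * ((ht z - ht y : ℤ) : ℝ) -
        ((ht y - ht x : ℤ) : ℝ) * ((z.1 - y.1 : ℤ) : ℝ)) = 2 * (turn x y z : ℝ) := by
      exact_mod_cast ht2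
    have e3 : 3 * (((z.1 - y.1 : ℤ) : ℝ) * ((y.1 - x.1 : ℤ) : ℝ)) +
        ((ht z - ht y : ℤ) : ℝ) * ((ht y - ht x : ℤ) : ℝ) = 2 := by
      exact_mod_cast ht3
    have hq := sq3
    apply Complex.ext
    · rw [Complex.div_re, hn, pos_sub_re, pos_sub_re, pos_sub_im, pos_sub_im, hc, hs]
      simp only [Complex.add_re, Complex.ofReal_re, Complex.mul_re, Complex.I_re, Complex.I_im,
        Complex.ofReal_im]
      linear_combination (1 / 4) * e3 +
        (((z.1 - y.1 : ℤ) : ℝ) * ((y.1 - x.1 : ℤ) : ℝ) / 4) * hq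
    · rw [Complex.div_im, hn, pos_sub_re, pos_sub_re, pos_sub_im, pos_sub_im, hc, hs]
      simp only [Complex.add_im, Complex.ofReal_re, Complex.mul_im, Complex.I_re, Complex.I_im,
        Complex.ofReal_im]
      linear_combination (Real.sqrt 3 / 4) * e2
  rw [hr, Complex.ofReal_cos, Complex.ofReal_sin]
  apply Complex.arg_cos_add_sin_mul_I
  have hpi := Real.pi_pos
  constructor <;> rcases ht1 with h | h <;> rw [h] <;> push_cast <;> linarith

theorem re_div_pos {A B : ℂ} (hA : 1 ≤ ‖A‖) (hB : 1 ≤ ‖B‖) (hAB : ‖A - B‖ = 1) :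
    0 < (A / B).re := by
  have hA' : 1 ≤ Complex.normSq A := by
    rw [Complex.normSq_eq_norm_sq]; nlinarith
  have hB' : 1 ≤ Complex.normSq B := by
    rw [Complex.normSq_eq_norm_sq]; nlinarith
  have hAB' : Complex.normSq (A - B) = 1 := by
    rw [Complex.normSq_eq_norm_sq, hAB]; norm_num
  rw [Complex.normSq_apply] at hA' hAB'
  have hB'' := hB'
  rw [Complex.normSq_apply] at hB''
  simp only [Complex.sub_re, Complex.sub_im] at hAB'
  rw [Complex.div_re, ← add_div]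
  apply div_pos
  · nlinarith
  · linarith

theorem abs_arg_div_lt {A B : ℂ} (hA : 1 ≤ ‖A‖) (hB : 1 ≤ ‖B‖) (hAB : ‖A - B‖ = 1) :
    |arg (A / B)| < Real.pi / 2 := by
  rw [Complex.abs_arg_lt_pi_div_two_iff]
  exact Or.inl (re_div_pos hA hB hAB)

theorem abs_ang_lt {b p q : V} (h : Adj p q) (hp : p ≠ b) (hq : q ≠ b) :
    |ang b p q| < Real.pi / 2 := by
  unfold ang
  apply abs_arg_div_lt (one_le_norm hp) (one_le_norm hq)
  rw [sub_sub_sub_cancel_right]
  exact norm_of_adj h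

theorem abs_base_lt {b b' p : V} (h : Adj b b') (hp : p ≠ b) (hp' : p ≠ b') :
    |arg ((pos p - pos b') / (pos p - pos b))| < Real.pi / 2 := by
  apply abs_arg_div_lt (one_le_norm hp') (one_le_norm hp)
  rw [sub_sub_sub_cancel_left]
  exact norm_of_adj h

theorem pos_sub_ne {p q : V} (h : p ≠ q) : pos p - pos q ≠ 0 := by
  intro e
  have := one_le_norm h
  rw [e, norm_zero] at this
  linarith

/-- change of the base point to a neighbour -/
theorem ang_base {b b' p q : V} (hb : Adj b b') (h : Adj p q) (h1 : p ≠ b) (h2 : q ≠ b)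
    (h3 : p ≠ b') (h4 : q ≠ b') :
    ang b' p q = ang b p q + arg ((pos p - pos b') / (pos p - pos b))
      - arg ((pos q - pos b') / (pos q - pos b)) := by
  have a1 := abs_ang_lt h h1 h2
  have a2 := abs_ang_lt h h3 h4
  have a3 := abs_base_lt hb h1 h3
  have a4 := abs_base_lt hb h2 h4
  unfold ang at *
  have n1 := pos_sub_ne h1
  have n2 := pos_sub_ne h2
  have n3 := pos_sub_ne h3
  have n4 := pos_sub_ne h4
  rw [abs_lt] at a1 a2 a3 a4
  have e1 := Complex.arg_mul (x := (pos p - pos b') / (pos q - pos b'))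
    (y := (pos q - pos b') / (pos q - pos b)) (div_ne_zero n3 n4) (div_ne_zero n4 n2)
    ⟨by linarith, by linarith⟩
  have e2 := Complex.arg_mul (x := (pos p - pos b') / (pos p - pos b))
    (y := (pos p - pos b) / (pos q - pos b)) (div_ne_zero n3 n1) (div_ne_zero n1 n2)
    ⟨by linarith, by linarith⟩
  have e3 : (pos p - pos b') / (pos q - pos b') * ((pos q - pos b') / (pos q - pos b)) =
      (pos p - pos b') / (pos p - pos b) * ((pos p - pos b) / (pos q - pos b)) := by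
    field_simp
  rw [e3] at e1
  linarith

end H978R2.Hex
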