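import Pool.Agent.H978R2.Hex.Defs2

set_option autoImplicit false

/-! Basic facts on adjacency and the height `h v = v.1 - v.2`, used for the upper bound. -/

namespace H978R2.Hex
namespace HP

/-- the linear height -/
def hh (v : V) : ℤ := v.1 - v.2

theorem adj_iff {p q : V} : Adj p q ↔
    (q.1 = p.1 + 1 ∧ q.2 = p.2) ∨ (q.1 = p.1 - 1 ∧ q.2 = p.2) ∨
    (q.1 = p.1 ∧ q.2 = p.2 + 1 ∧ (p.1 + p.2) % 2 = 0) ∨
    (q.1 = p.1 ∧ q.2 = p.2 - 1 ∧ (p.1 + p.2) % 2 = 1) := by
  obtain ⟨a, b⟩ := p
  obtain ⟨c, d⟩ := q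
  simp only [Adj, Prod.mk_sub_mk, Prod.mk.injEq, Int.even_iff]
  omega

theorem adj_symm' {p q : V} (h : Adj p q) : Adj q p := by
  rw [adj_iff] at *
  omega

theorem mem_nbrs' {p q : V} : q ∈ nbrs p ↔ Adj p q := by
  obtain ⟨a, b⟩ := p
  obtain ⟨c, d⟩ := q
  rw [adj_iff]
  simp only [nbrs, Finset.mem_insert, Finset.mem_singleton]
  by_cases he : Even (a + b)
  · have h2 := Int.even_iff.1 he
    simp only [he, if_true, Prod.mk.injEq]
    omega
  · have h2 := Int.not_even_iff.1 he
    simp only [he, if_false, Prod.mk.injEq]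
    omega

theorem card_nbrs (v : V) : (nbrs v).card ≤ 3 := by
  unfold nbrs
  exact Finset.card_le_three

/-- reversed path relation -/
abbrev Ch (l : List V) : Prop := l.IsChain (fun x y => Adj y x)

theorem Ch.rev {l : List V} (h : Ch l) : Ch l.reverse := by
  unfold Ch
  rw [List.isChain_reverse]
  exact h.imp (fun a b hab => adj_symm' hab)

/-- point reflection through an odd vertex is an automorphism -/
theorem adj_refl {c p q : V} (hc : (c.1 + c.2) % 2 = 1) (h : Adj p q) : Adj (c - p) (c - q) := by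
  rw [adj_iff] at *
  simp only [Prod.fst_sub, Prod.snd_sub]
  omega

/-- even translations are automorphisms -/
theorem adj_trans {c p q : V} (hc : (c.1 + c.2) % 2 = 0) (h : Adj p q) : Adj (p + c) (q + c) := by
  rw [adj_iff] at *
  simp only [Prod.fst_add, Prod.snd_add]
  omega

theorem Ch.map_refl {c : V} (hc : (c.1 + c.2) % 2 = 1) {l : List V} (h : Ch l) :
    Ch (l.map (fun v => c - v)) := by
  unfold Ch
  rw [List.isChain_map]
  exact h.imp (fun a b hab => adj_refl hc hab)

theorem Ch.map_trans {c : V} (hc : (c.1 + c.2) % 2 = 0) {l : List V} (h : Ch l) :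
    Ch (l.map (fun v => v + c)) := by
  unfold Ch
  rw [List.isChain_map]
  exact h.imp (fun a b hab => adj_trans hc hab)

end HP
end H978R2.Hex
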