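import Pool.Agent.H978R2.Hex.HPSum

set_option autoImplicit false

/-! Decomposition of half-plane walks at the last visit of the top line. -/

namespace H978R2.Hex
namespace HP

theorem hh_sub (c v : V) : hh (c - v) = hh c - hh v := by
  unfold hh
  simp only [Prod.fst_sub, Prod.snd_sub]
  ring

theorem hh_add (c v : V) : hh (c + v) = hh c + hh v := by
  unfold hh
  simp only [Prod.fst_add, Prod.snd_add]
  ring

theorem chain_split {l1 l2 : List V} {a b : V} (h : Ch (l1 ++ a :: b :: l2)) : Adj b a := by
  have h1 : Ch (a :: b :: l2) := (List.isChain_append.1 h).2.1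
  have h2 : Adj b a ∧ Ch (b :: l2) := by
    simpa [Ch, List.isChain_cons_cons] using h1
  exact h2.1

/-- an odd line at the top is never visited -/
theorem no_odd_top (l : List V) (hch : Ch l) (hnd : l.Nodup) (K : ℤ) (hodd : K % 2 = 1)
    (hle : ∀ v ∈ l, hh v ≤ K) (hhead : ∀ v, l.head? = some v → hh v ≠ K)
    (hlast : ∀ v, l.getLast? = some v → hh v ≠ K) : ∀ v ∈ l, hh v ≠ K := by
  intro v hv hK
  obtain ⟨l1, l2, rfl⟩ := List.append_of_mem hv
  rcases List.eq_nil_or_concat l1 with rfl | ⟨l3, u, rfl⟩
  · exact hhead v (by simp) hK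
  · match l2, hch, hnd, hle, hlast with
    | [], hch, hnd, hle, hlast => exact hlast v (by simp) hK
    | w :: l4, hch, hnd, hle, hlast =>
      have e1 : l3.concat u ++ v :: w :: l4 = l3 ++ u :: v :: w :: l4 := by simp
      have e2 : l3.concat u ++ v :: w :: l4 = (l3 ++ [u]) ++ v :: w :: l4 := by simp
      have huv : Adj v u := chain_split (l1 := l3) (by rw [← e1]; exact hch)
      have hwv : Adj v w := adj_symm' (chain_split (l1 := l3 ++ [u]) (by rw [← e2]; exact hch))
      have hu : hh u ≤ K := hle u (by simp)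
      have hw : hh w ≤ K := hle w (by simp)
      have hu2 : u = v - (1, 0) := by
        refine hh_odd huv (by omega) ?_
        rcases hh_adj huv with h | h <;> omega
      have hw2 : w = v - (1, 0) := by
        refine hh_odd hwv (by omega) ?_
        rcases hh_adj hwv with h | h <;> omega
      have huw : u = w := hu2.trans hw2.symm
      subst huw
      rw [e1] at hnd
      rw [List.nodup_append] at hnd
      have h3 := hnd.2.1
      simp at h3

theorem HPL.suffix {l1 : List V} {a : V} {t : List V} (h : HPL (l1 ++ a :: t)) : HPL (a :: t) := by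
  refine ⟨(List.isChain_append.1 h.ch).2.1, (List.nodup_append.1 h.nd).2.1,
    fun v hv => h.pos v (List.mem_append_right _ hv), ?_⟩
  have := h.last
  rwa [List.getLast?_append_of_ne_nil _ (by simp)] at this

theorem mem_BR {S n : ℕ} {a : V} {t : List V} (h : HPL (a :: t))
    (hle : ∀ v ∈ a :: t, hh v ≤ 2 * ((S : ℤ) + 1)) (ha : hh a = 2 * ((S : ℤ) + 1))
    (hlen : (a :: t).length ≤ n) : a :: t ∈ BR (S + 1) n := by
  unfold BR
  rw [Finset.mem_image]
  refine ⟨(a + (1, 0)) :: a :: (t ++ [(0, 0)]), ?_, ?_⟩
  · rw [Finset.mem_biUnion]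
    refine ⟨t.length + 1, by simp at hlen ⊢; omega, ?_⟩
    have hz : hh (a + (1, 0)) = 2 * ((S : ℤ) + 1) + 1 := by
      rw [hh_add, ha]
      simp [hh]
    rw [Finset.mem_filter]
    refine ⟨memP (by omega) t a h (by push_cast; exact hle) _ ?_ ?_, ?_⟩
    · rw [adj_iff]
      left
      constructor
      · simp
      · simp
    · intro heq
      rw [heq] at hz
      match t, hle, hz with
      | [], _, hz =>
        simp [hh] at hz
        omega
      | c :: t', hle, hz =>
        simp only [List.cons_append, List.headD_cons] at hz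
        have := hle c (by simp)
        omega
    · simp only [List.headD_cons]
      unfold hh at hz
      push_cast
      omega
  · simp only [List.tail_cons]
    rw [← List.cons_append, List.dropLast_concat]

theorem decomp {S n : ℕ} {l : List V} (hl : l ∈ ET (S + 1) n) (hl' : l ∉ ET S n) :
    ∃ R Bd, l = R ++ Bd ∧ Bd ∈ BR (S + 1) n ∧
      (R = [] ∨ ∃ c ∈ nbrs (Bd.headD (0, 0)), ∃ R' ∈ OT S n,
        R = R'.map (fun v => c - v) ++ [c]) := by
  rw [ET, Finset.mem_filter, mem_HL] at hl
  obtain ⟨⟨hlen, h⟩, hle, hev⟩ := hl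
  push_cast at hle
  have hne : l ≠ [] := by
    rintro rfl
    exact absurd h.last (by simp)
  -- the top line is visited
  have htop : ∃ v ∈ l, hh v = 2 * ((S : ℤ) + 1) := by
    by_contra hno
    push Not at hno
    have hle2 : ∀ v ∈ l, hh v ≤ 2 * (S : ℤ) + 1 := fun v hv => by
      have h1 := hle v hv
      have h2 := hno v hv
      omega
    obtain ⟨a, t, rfl⟩ := List.exists_cons_of_ne_nil hne
    rcases Nat.eq_zero_or_pos S with h0 | hS
    · subst h0
      have h1 := hle2 a (by simp)
      have h2 := h.pos a (by simp)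
      simp only [List.headD_cons] at hev
      push_cast at h1
      omega
    · have h3 := no_odd_top (a :: t) h.ch h.nd (2 * (S : ℤ) + 1) (by omega) hle2 (by
        intro v hv
        simp only [List.head?_cons, Option.some.injEq] at hv
        subst hv
        simp only [List.headD_cons] at hev
        omega) (by
        intro v hv
        rw [h.last] at hv
        simp only [Option.some.injEq] at hv
        subst hv
        simp only [hh, sub_zero, ne_eq]
        omega)
      apply hl'
      rw [ET, Finset.mem_filter, mem_HL]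
      refine ⟨⟨hlen, h⟩, fun v hv => ?_, hev⟩
      have h4 := hle2 v hv
      have h5 := h3 v hv
      omega
  -- split at the first element of the list on the top line
  obtain ⟨R, a, t, hlist, ha, hR⟩ : ∃ R a t, l = R ++ a :: t ∧ hh a = 2 * ((S : ℤ) + 1) ∧
      ∀ v ∈ R, hh v ≠ 2 * ((S : ℤ) + 1) := by
    obtain ⟨v0, hv0, hv1⟩ := htop
    refine ⟨l.takeWhile (fun v => hh v ≠ 2 * ((S : ℤ) + 1)), ?_⟩
    have h1 : l.dropWhile (fun v => hh v ≠ 2 * ((S : ℤ) + 1)) ≠ [] := by
      intro h0
      rw [List.dropWhile_eq_nil_iff] at h0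
      have := h0 v0 hv0
      simp at this
      exact this hv1
    obtain ⟨a, t, hat⟩ := List.exists_cons_of_ne_nil h1
    refine ⟨a, t, ?_, ?_, ?_⟩
    · rw [← hat]
      exact (List.takeWhile_append_dropWhile).symm
    · have := List.head_dropWhile_not (fun v => decide (hh v ≠ 2 * ((S : ℤ) + 1))) h1
      simp only [hat, List.head_cons] at this
      simpa using this
    · intro v hv
      have := List.mem_takeWhile_imp hv
      simpa using this
  subst hlist
  have hBd : HPL (a :: t) := h.suffix
  refine ⟨R, a :: t, rfl, ?_, ?_⟩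
  · refine mem_BR hBd (fun v hv => hle v (List.mem_append_right _ hv)) ha ?_
    rw [List.length_append] at hlen
    omega
  rcases List.eq_nil_or_concat R with rfl | ⟨R0, c, rfl⟩
  · exact Or.inl rfl
  right
  rw [List.concat_eq_append] at *
  have hca : Adj a c := by
    have e : (R0 ++ [c]) ++ a :: t = R0 ++ c :: a :: t := by simp
    exact chain_split (l1 := R0) (by rw [← e]; exact h.ch)
  have hc : hh c = 2 * (S : ℤ) + 1 := by
    have h1 := hle c (by simp)
    rcases hh_adj hca with h2 | h2 <;> omega
  refine ⟨c, by simpa using mem_nbrs'.2 hca, R0.map (fun v => c - v), ?_, ?_⟩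
  swap
  · rw [List.map_map]
    congr 1
    have : ((fun v => c - v) ∘ fun v => c - v) = (id : V → V) := by
      funext v
      simp
    rw [this, List.map_id]
  -- the rest
  have hR0 : R0 ≠ [] := by
    rintro rfl
    simp only [List.nil_append, List.cons_append, List.headD_cons] at hev
    omega
  rcases List.eq_nil_or_concat R0 with rfl | ⟨R1, d, rfl⟩
  · exact absurd rfl hR0
  rw [List.concat_eq_append] at *
  have hdc : Adj c d := by
    have e : ((R1 ++ [d]) ++ [c]) ++ a :: t = R1 ++ d :: c :: (a :: t) := by simp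
    exact chain_split (l1 := R1) (by rw [← e]; exact h.ch)
  have hd : hh d = 2 * (S : ℤ) := by
    have h1 := hle d (by simp)
    have h3 := hR d (by simp)
    rcases hh_adj hdc with h2 | h2 <;> omega
  have hd2 : d = c - (1, 0) := hh_odd hdc (by omega) (by omega)
  have hsplit : Ch (R1 ++ [d]) ∧ (R1 ++ [d]).Nodup := by
    constructor
    · have e : ((R1 ++ [d]) ++ [c]) ++ a :: t = (R1 ++ [d]) ++ (c :: a :: t) := by simp
      have := h.ch
      rw [e] at this
      exact (List.isChain_append.1 this).1
    · have e : ((R1 ++ [d]) ++ [c]) ++ a :: t = (R1 ++ [d]) ++ (c :: a :: t) := by simp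
      have := h.nd
      rw [e] at this
      exact (List.nodup_append.1 this).1
  have hRle : ∀ v ∈ R1 ++ [d], hh v ≤ 2 * (S : ℤ) := by
    have h1 : ∀ v ∈ R1 ++ [d], hh v ≤ 2 * (S : ℤ) + 1 := by
      intro v hv
      have h1 := hle v (by simp only [List.mem_append] at hv ⊢; tauto)
      have h2 := hR v (by simp only [List.mem_append] at hv ⊢; tauto)
      omega
    have h2 := no_odd_top (R1 ++ [d]) hsplit.1 hsplit.2 (2 * (S : ℤ) + 1) (by omega) h1 (by
      intro v hv
      have h3 : (R1 ++ [d] ++ [c] ++ a :: t).headD (0, 0) = v := by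
        match R1, hv with
        | [], hv => simpa using hv
        | r :: R2, hv => simpa using hv
      rw [h3] at hev
      omega) (by
      intro v hv
      simp only [List.getLast?_append, List.getLast?_singleton, Option.some_or,
        Option.some.injEq] at hv
      subst hv
      omega)
    intro v hv
    have h3 := h1 v hv
    have h4 := h2 v hv
    omega
  have hodd : (c.1 + c.2) % 2 = 1 := by
    unfold hh at hc
    omega
  rw [OT, Finset.mem_filter, mem_HL]
  refine ⟨⟨?_, ⟨hsplit.1.map_refl hodd, ?_, ?_, ?_⟩⟩, ?_, ?_⟩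
  · rw [List.length_map]
    simp only [List.length_append, List.length_cons] at hlen ⊢
    omega
  · exact hsplit.2.map (fun x y hxy => sub_right_injective hxy)
  · intro v hv
    rw [List.mem_map] at hv
    obtain ⟨w, hw, rfl⟩ := hv
    have := hRle w hw
    rw [hh_sub]
    omega
  · rw [List.getLast?_map]
    simp only [List.getLast?_append, List.getLast?_singleton, Option.some_or, Option.map_some,
      Option.some.injEq]
    rw [hd2]
    simp
  · intro v hv
    rw [List.mem_map] at hv
    obtain ⟨w, hw, rfl⟩ := hv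
    have h1 := h.pos w (by simp only [List.mem_append] at hw ⊢; tauto)
    rw [hh_sub]
    omega
  · have h3 : ((R1 ++ [d]).map (fun v => c - v)).headD (0, 0) =
        c - (R1 ++ [d] ++ [c] ++ a :: t).headD (0, 0) := by
      match R1 with
      | [] => simp
      | r :: R2 => simp
    rw [h3, hh_sub]
    omega

theorem ET_step {x : ℝ} (hx : 0 ≤ x) (S n : ℕ) : wt x (ET (S + 1) n) ≤
    wt x (ET S n) + wt x (BR (S + 1) n) * (1 + 3 * x * wt x (OT S n)) := by
  classical
  have hsub : ET (S + 1) n ⊆ ET S n ∪ (BR (S + 1) n).biUnion (fun Bd =>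
      (({[]} : Finset (List V)) ∪ (nbrs (Bd.headD (0, 0))).biUnion (fun c =>
        (OT S n).image (fun R' => R'.map (fun v => c - v) ++ [c]))).image (fun R => R ++ Bd)) := by
    intro l hl
    rw [Finset.mem_union]
    by_cases hl' : l ∈ ET S n
    · exact Or.inl hl'
    right
    obtain ⟨R, Bd, rfl, h1, h2⟩ := decomp hl hl'
    rw [Finset.mem_biUnion]
    refine ⟨Bd, h1, ?_⟩
    rw [Finset.mem_image]
    refine ⟨R, ?_, rfl⟩
    rw [Finset.mem_union]
    rcases h2 with h2 | ⟨c, hc, R', hR', h3⟩
    · left
      simp [h2]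
    · right
      rw [Finset.mem_biUnion]
      refine ⟨c, hc, ?_⟩
      rw [Finset.mem_image]
      exact ⟨R', hR', h3.symm⟩
  refine (wt_mono hx hsub).trans ((wt_union hx _ _).trans ?_)
  refine add_le_add le_rfl ?_
  unfold wt
  refine (sum_biUnion_le _ _ _ (fun b => pow_nonneg hx _)).trans ?_
  rw [Finset.sum_mul]
  refine Finset.sum_le_sum fun Bd _ => ?_
  refine (sum_image_le' _ _ _ (fun b => pow_nonneg hx _)).trans ?_
  have e1 : ∀ R : List V, x ^ (R ++ Bd).length = x ^ Bd.length * x ^ R.length := by
    intro R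
    rw [List.length_append, pow_add, mul_comm]
  simp only [e1]
  rw [← Finset.mul_sum]
  refine mul_le_mul_of_nonneg_left ?_ (pow_nonneg hx _)
  have h5 := wt_union hx ({[]} : Finset (List V)) ((nbrs (Bd.headD (0, 0))).biUnion (fun c =>
        (OT S n).image (fun R' => R'.map (fun v => c - v) ++ [c])))
  unfold wt at h5
  refine h5.trans ?_
  have e2 : ∑ l ∈ ({[]} : Finset (List V)), x ^ l.length = 1 := by simp
  rw [e2]
  refine add_le_add le_rfl ?_
  refine (sum_biUnion_le _ _ _ (fun b => pow_nonneg hx _)).trans ?_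
  have h6 : ∀ c ∈ nbrs (Bd.headD (0, 0)), ∑ b ∈ (OT S n).image (fun R' =>
      R'.map (fun v => c - v) ++ [c]), x ^ b.length ≤ x * ∑ l ∈ OT S n, x ^ l.length := by
    intro c _
    refine (sum_image_le' _ _ _ (fun b => pow_nonneg hx _)).trans ?_
    rw [Finset.mul_sum]
    refine Finset.sum_le_sum fun R _ => le_of_eq ?_
    rw [List.length_append, List.length_map, List.length_singleton, pow_succ, mul_comm]
  refine (Finset.sum_le_sum h6).trans ?_
  rw [Finset.sum_const, nsmul_eq_mul]
  have h7 : ((nbrs (Bd.headD (0, 0))).card : ℝ) ≤ 3 := by exact_mod_cast card_nbrs _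
  have h8 : 0 ≤ x * ∑ l ∈ OT S n, x ^ l.length :=
    mul_nonneg hx (wt_nonneg hx _)
  calc _ ≤ 3 * (x * ∑ l ∈ OT S n, x ^ l.length) := mul_le_mul_of_nonneg_right h7 h8
    _ = _ := by ring

end HP
end H978R2.Hex
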