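import Pool.Agent.H978R2.Hex.HPDecomp

set_option autoImplicit false

/-! Product bound, assuming the bridge mass bound. -/

namespace H978R2.Hex
namespace HP

theorem hh_le_length : ∀ (l : List V), HPL l → ∀ v ∈ l, hh v ≤ l.length
  | [], _, v, hv => by simp at hv
  | [a], h, v, hv => by
    have := h.last
    simp only [List.getLast?_singleton, Option.some.injEq] at this
    subst this
    simp only [List.mem_singleton] at hv
    subst hv
    simp [hh]
  | a :: b :: t, h, v, hv => by
    have ih := hh_le_length (b :: t) h.tail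
    rw [List.mem_cons] at hv
    rcases hv with rfl | hv
    · have h1 := ih b (by simp)
      have h2 := hh_adj h.adj
      simp only [List.length_cons] at h1 ⊢
      push_cast at h1 ⊢
      omega
    · have h1 := ih v hv
      simp only [List.length_cons] at h1 ⊢
      push_cast at h1 ⊢
      omega

theorem half_plane_sum_of (hB : ∀ T n : ℕ, 1 ≤ T →
    ∑ m ∈ Finset.range (n + 1), (((P (Strip T) m).filter
      (fun l => 2 * (T : ℤ) < (l.headD (0, 0)).1 - (l.headD (0, 0)).2)).card : ℝ) * (mu0⁻¹) ^ m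
        ≤ 1) (x : ℝ) (hx : 0 < x) (hx1 : x * mu0 < 1) :
    ∃ K : ℝ, ∀ n : ℕ, ∑ m ∈ Finset.range (n + 1), ((HPset m).ncard : ℝ) * x ^ m ≤ K := by
  have hmu : 1 ≤ mu0 := by
    unfold mu0
    rw [Real.one_le_sqrt]
    have := Real.sqrt_nonneg 2
    linarith
  have hxle : x ≤ 1 := by nlinarith
  obtain ⟨q, hq⟩ : ∃ q, q = (x * mu0) ^ 2 := ⟨_, rfl⟩
  have hq0 : 0 ≤ q := by rw [hq]; positivity
  have hq1 : q < 1 := by
    rw [hq]
    have : 0 ≤ x * mu0 := by positivity
    nlinarith
  have key : ∀ n T : ℕ, 1 + wt x (ET T n) ≤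
      Real.exp (9 * ∑ k ∈ Finset.range T, q ^ (k + 1)) := by
    intro n T
    induction T with
    | zero =>
      have h0 : ET 0 n = ∅ := by
        rw [ET, Finset.filter_eq_empty_iff]
        rintro l hl ⟨h1, _⟩
        rw [mem_HL] at hl
        match l, hl, h1 with
        | [], hl, _ => exact absurd hl.2.last (by simp)
        | a :: t, hl, h1 =>
          have h2 := h1 a (by simp)
          have h3 := hl.2.pos a (by simp)
          simp only [Nat.cast_zero, mul_zero] at h2
          omega
      rw [h0]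
      simp [wt]
    | succ T ih =>
      have h1 := ET_step hx.le T n
      have h2 := wt_BR_le hx hx1.le (T + 1) n (hB (T + 1) n (by omega))
      have h3 := OT_le hx.le T n
      have hS := wt_nonneg hx.le (ET T n)
      have hO := wt_nonneg hx.le (OT T n)
      have hBn := wt_nonneg hx.le (BR (T + 1) n)
      have h4 : (x * mu0) ^ (2 * (T + 1)) = q ^ (T + 1) := by rw [hq, pow_mul]
      rw [h4] at h2
      have h5 : 1 + 3 * x * wt x (OT T n) ≤ 9 * (1 + wt x (ET T n)) := by
        have h6 : x * wt x (OT T n) ≤ x * (x + 3 * x * wt x (ET T n)) :=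
          mul_le_mul_of_nonneg_left h3 hx.le
        have h7 : x * x ≤ 1 := by nlinarith
        have h8 : x * x * wt x (ET T n) ≤ 1 * wt x (ET T n) := mul_le_mul_of_nonneg_right h7 hS
        nlinarith
      have h9 : wt x (BR (T + 1) n) * (1 + 3 * x * wt x (OT T n)) ≤
          q ^ (T + 1) * (9 * (1 + wt x (ET T n))) := by
        refine mul_le_mul h2 h5 ?_ (by positivity)
        positivity
      have h10 : 1 + wt x (ET (T + 1) n) ≤ (1 + wt x (ET T n)) * (1 + 9 * q ^ (T + 1)) := by
        nlinarith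
      have h11 : 1 + 9 * q ^ (T + 1) ≤ Real.exp (9 * q ^ (T + 1)) := by
        have := Real.add_one_le_exp (9 * q ^ (T + 1))
        linarith
      rw [Finset.sum_range_succ, mul_add, Real.exp_add]
      refine h10.trans (mul_le_mul ih h11 (by positivity) (Real.exp_pos _).le)
  have hgeo : ∀ T : ℕ, ∑ k ∈ Finset.range T, q ^ (k + 1) ≤ (1 - q)⁻¹ := by
    intro T
    have h1 : Summable (fun k : ℕ => q ^ k) := summable_geometric_of_lt_one hq0 hq1
    have h2 : ∑ k ∈ Finset.range T, q ^ k ≤ ∑' k : ℕ, q ^ k :=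
      h1.sum_le_tsum _ (fun k _ => pow_nonneg hq0 _)
    rw [tsum_geometric_of_lt_one hq0 hq1] at h2
    refine le_trans (Finset.sum_le_sum fun k _ => ?_) h2
    rw [pow_succ]
    have := pow_nonneg hq0 k
    nlinarith
  refine ⟨4 * Real.exp (9 * (1 - q)⁻¹), fun n => ?_⟩
  rw [sum_HF]
  have hsub : HL n ⊆ ET n n ∪ OT n n := by
    intro l hl
    rw [Finset.mem_union, ET, OT, Finset.mem_filter, Finset.mem_filter]
    have h1 : ∀ v ∈ l, hh v ≤ 2 * (n : ℤ) := by
      intro v hv
      have h2 := mem_HL.1 hl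
      have h3 := hh_le_length l h2.2 v hv
      have h4 : (l.length : ℤ) ≤ n := by exact_mod_cast h2.1
      have h5 : (0 : ℤ) ≤ n := by positivity
      omega
    rcases Int.emod_two_eq_zero_or_one (hh (l.headD (0, 0))) with h2 | h2
    · exact Or.inl ⟨hl, h1, h2⟩
    · exact Or.inr ⟨hl, h1, h2⟩
  have h1 := (wt_mono hx.le hsub).trans (wt_union hx.le _ _)
  have h2 := OT_le hx.le n n
  have h3 := key n n
  have h4 : Real.exp (9 * ∑ k ∈ Finset.range n, q ^ (k + 1)) ≤ Real.exp (9 * (1 - q)⁻¹) :=
    Real.exp_le_exp.2 (mul_le_mul_of_nonneg_left (hgeo n) (by norm_num))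
  have hS := wt_nonneg hx.le (ET n n)
  nlinarith

end HP
end H978R2.Hex
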