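import Pool.Agent.H978R2.Hex.HPBasic

set_option autoImplicit false

/-! Hammersley–Welsh product bound for half-plane walks on the honeycomb lattice. -/

namespace H978R2.Hex

/-- half-plane walks with `m` vertices, reversed lists ending with `(1,0)` -/
def HPset (m : ℕ) : Set (List V) :=
  {l | l.length = m ∧ l.IsChain (fun x y => Adj y x) ∧ l.Nodup ∧ (∀ v ∈ l, 1 ≤ v.1 - v.2) ∧
    l.getLast? = some (1, 0)}

namespace HP

/-! ### sums over unions and images -/

theorem sum_biUnion_le {α β : Type*} [DecidableEq α] [DecidableEq β] (S : Finset α)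
    (F : α → Finset β) (w : β → ℝ) (hw : ∀ b, 0 ≤ w b) :
    ∑ b ∈ S.biUnion F, w b ≤ ∑ a ∈ S, ∑ b ∈ F a, w b := by
  induction S using Finset.induction_on with
  | empty => simp
  | insert a s ha ih =>
    rw [Finset.biUnion_insert, Finset.sum_insert ha]
    have h1 : ∑ b ∈ F a ∪ s.biUnion F, w b + ∑ b ∈ F a ∩ s.biUnion F, w b
        = ∑ b ∈ F a, w b + ∑ b ∈ s.biUnion F, w b := Finset.sum_union_inter
    have h2 : 0 ≤ ∑ b ∈ F a ∩ s.biUnion F, w b := Finset.sum_nonneg fun b _ => hw b
    linarith

theorem sum_image_le' {α β : Type*} [DecidableEq α] [DecidableEq β] (S : Finset α)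
    (f : α → β) (w : β → ℝ) (hw : ∀ b, 0 ≤ w b) :
    ∑ b ∈ S.image f, w b ≤ ∑ a ∈ S, w (f a) := by
  have h := sum_biUnion_le S (fun a => {f a}) w hw
  have e : S.biUnion (fun a => ({f a} : Finset β)) = S.image f := by
    ext b
    simp [eq_comm]
  rw [e] at h
  simpa using h

/-- the weight of a finite set of lists -/
noncomputable def wt (x : ℝ) (A : Finset (List V)) : ℝ := ∑ l ∈ A, x ^ l.length

theorem wt_nonneg {x : ℝ} (hx : 0 ≤ x) (A : Finset (List V)) : 0 ≤ wt x A :=
  Finset.sum_nonneg fun _ _ => pow_nonneg hx _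

theorem wt_mono {x : ℝ} (hx : 0 ≤ x) {A B : Finset (List V)} (h : A ⊆ B) : wt x A ≤ wt x B :=
  Finset.sum_le_sum_of_subset_of_nonneg h fun _ _ _ => pow_nonneg hx _

theorem wt_union {x : ℝ} (hx : 0 ≤ x) (A B : Finset (List V)) : wt x (A ∪ B) ≤ wt x A + wt x B := by
  have h1 : ∑ b ∈ A ∪ B, x ^ b.length + ∑ b ∈ A ∩ B, x ^ b.length
        = ∑ b ∈ A, x ^ b.length + ∑ b ∈ B, x ^ b.length := Finset.sum_union_inter
  have h2 : 0 ≤ ∑ b ∈ A ∩ B, x ^ b.length := Finset.sum_nonneg fun b _ => pow_nonneg hx _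
  unfold wt
  linarith

/-! ### finite sets of paths -/

/-- all reversed paths with `m` vertices ending at `(1,0)` -/
def Q : ℕ → Finset (List V)
  | 0 => ∅
  | 1 => {[(1, 0)]}
  | m + 2 => (Q (m + 1)).biUnion fun l => (nbrs (l.headD (0, 0))).image (fun z => z :: l)

theorem mem_Q : ∀ (m : ℕ) (l : List V), l.length = m → Ch l → l.getLast? = some (1, 0) → l ∈ Q m
  | 0, l, hl, _, hlast => by
    rw [List.length_eq_zero_iff] at hl
    subst hl
    simp at hlast
  | 1, l, hl, _, hlast => by
    rw [List.length_eq_one_iff] at hl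
    obtain ⟨a, rfl⟩ := hl
    simp only [List.getLast?_singleton, Option.some.injEq] at hlast
    subst hlast
    simp [Q]
  | m + 2, l, hl, hc, hlast => by
    match l, hl with
    | a :: b :: t, hl =>
      have hc' : Adj b a ∧ Ch (b :: t) := by
        simpa [Ch, List.isChain_cons_cons] using hc
      have h1 : b :: t ∈ Q (m + 1) := by
        refine mem_Q (m + 1) (b :: t) (by simpa using hl) hc'.2 ?_
        simpa [List.getLast?_cons_cons] using hlast
      rw [Q, Finset.mem_biUnion]
      refine ⟨b :: t, h1, ?_⟩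
      rw [Finset.mem_image]
      exact ⟨a, mem_nbrs'.2 hc'.1, rfl⟩

theorem HPset_sub_Q (m : ℕ) : HPset m ⊆ (Q m : Set (List V)) := by
  rintro l ⟨h1, h2, _, _, h5⟩
  exact mem_Q m l h1 h2 h5

end HP

theorem HPset_finite (m : ℕ) : (HPset m).Finite :=
  (HP.Q m).finite_toSet.subset (HP.HPset_sub_Q m)

namespace HP

/-- half-plane walks of length `m` as a finset -/
noncomputable def HF (m : ℕ) : Finset (List V) := (HPset_finite m).toFinset

theorem mem_HF {m : ℕ} {l : List V} : l ∈ HF m ↔ l ∈ HPset m := by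
  simp [HF]

theorem card_HF (m : ℕ) : ((HF m).card : ℝ) = ((HPset m).ncard : ℝ) := by
  rw [HF, Set.ncard_eq_toFinset_card _ (HPset_finite m)]

/-- the half-plane walks of length at most `n` -/
noncomputable def HL (n : ℕ) : Finset (List V) := (Finset.range (n + 1)).biUnion HF

/-- description of half-plane lists -/
structure HPL (l : List V) : Prop where
  ch : Ch l
  nd : l.Nodup
  pos : ∀ v ∈ l, 1 ≤ hh v
  last : l.getLast? = some (1, 0)

theorem mem_HL {n : ℕ} {l : List V} : l ∈ HL n ↔ l.length ≤ n ∧ HPL l := by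
  unfold HL
  rw [Finset.mem_biUnion]
  constructor
  · rintro ⟨m, hm, hl⟩
    rw [mem_HF] at hl
    obtain ⟨h1, h2, h3, h4, h5⟩ := hl
    rw [Finset.mem_range] at hm
    exact ⟨by omega, ⟨h2, h3, h4, h5⟩⟩
  · rintro ⟨h1, h⟩
    exact ⟨l.length, Finset.mem_range.2 (by omega), mem_HF.2 ⟨rfl, h.ch, h.nd, h.pos, h.last⟩⟩

theorem sum_HF (x : ℝ) (n : ℕ) :
    ∑ m ∈ Finset.range (n + 1), ((HPset m).ncard : ℝ) * x ^ m = wt x (HL n) := by
  unfold wt HL
  rw [Finset.sum_biUnion]
  · refine Finset.sum_congr rfl fun m _ => ?_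
    rw [← card_HF]
    have : ∀ l ∈ HF m, x ^ l.length = x ^ m := by
      intro l hl
      rw [mem_HF] at hl
      rw [hl.1]
    rw [Finset.sum_congr rfl this, Finset.sum_const, nsmul_eq_mul]
  · intro i _ j _ hij
    simp only [Function.onFun]
    rw [Finset.disjoint_left]
    intro l h1 h2
    rw [mem_HF] at h1 h2
    exact hij (h1.1.symm.trans h2.1)

theorem HPL.tail {a b : V} {t : List V} (h : HPL (a :: b :: t)) : HPL (b :: t) := by
  obtain ⟨h1, h2, h3, h4⟩ := h
  have hc' : Adj b a ∧ Ch (b :: t) := by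
    simpa [Ch, List.isChain_cons_cons] using h1
  refine ⟨hc'.2, (List.nodup_cons.1 h2).2, fun v hv => h3 v (List.mem_cons_of_mem _ hv), ?_⟩
  simpa [List.getLast?_cons_cons] using h4

theorem HPL.adj {a b : V} {t : List V} (h : HPL (a :: b :: t)) : Adj b a := by
  have hc' : Adj b a ∧ Ch (b :: t) := by
    simpa [Ch, List.isChain_cons_cons] using h.ch
  exact hc'.1

theorem hh_adj {p q : V} (h : Adj p q) : hh q = hh p + 1 ∨ hh q = hh p - 1 := by
  rw [adj_iff] at h
  unfold hh
  omega

/-- an even vertex has a unique neighbour above -/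
theorem hh_even {p q : V} (h : Adj p q) (he : hh p % 2 = 0) (hq : hh q = hh p + 1) :
    q = p + (1, 0) := by
  rw [adj_iff] at h
  unfold hh at *
  ext
  · simp only [Prod.fst_add]; omega
  · simp only [Prod.snd_add]; omega

/-- an odd vertex has a unique neighbour below -/
theorem hh_odd {p q : V} (h : Adj p q) (he : hh p % 2 = 1) (hq : hh q = hh p - 1) :
    q = p - (1, 0) := by
  rw [adj_iff] at h
  unfold hh at *
  ext
  · simp only [Prod.fst_sub]; omega
  · simp only [Prod.snd_sub]; omega

/-- half-plane walks below `2T` whose last vertex is even -/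
noncomputable def ET (T n : ℕ) : Finset (List V) :=
  (HL n).filter (fun l => (∀ v ∈ l, hh v ≤ 2 * T) ∧ hh (l.headD (0, 0)) % 2 = 0)

/-- half-plane walks below `2T` whose last vertex is odd -/
noncomputable def OT (T n : ℕ) : Finset (List V) :=
  (HL n).filter (fun l => (∀ v ∈ l, hh v ≤ 2 * T) ∧ hh (l.headD (0, 0)) % 2 = 1)

theorem OT_le {x : ℝ} (hx : 0 ≤ x) (T n : ℕ) : wt x (OT T n) ≤ x + 3 * x * wt x (ET T n) := by
  have hsub : OT T n ⊆ {[(1, 0)]} ∪
      (ET T n).biUnion (fun l => (nbrs (l.headD (0, 0))).image (fun z => z :: l)) := by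
    intro l hl
    rw [OT, Finset.mem_filter, mem_HL] at hl
    obtain ⟨⟨h1, h2⟩, h3, h4⟩ := hl
    match l, h1, h2, h3, h4 with
    | [], _, h2, _, _ => exact absurd h2.last (by simp)
    | [a], _, h2, _, _ =>
      have := h2.last
      simp only [List.getLast?_singleton, Option.some.injEq] at this
      subst this
      simp
    | a :: b :: t, h1, h2, h3, h4 =>
      rw [Finset.mem_union]
      right
      rw [Finset.mem_biUnion]
      refine ⟨b :: t, ?_, ?_⟩
      · rw [ET, Finset.mem_filter, mem_HL]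
        refine ⟨⟨by simp at h1 ⊢; omega, h2.tail⟩, fun v hv => h3 v (List.mem_cons_of_mem _ hv), ?_⟩
        simp only [List.headD_cons] at h4 ⊢
        rcases hh_adj h2.adj with h | h <;> omega
      · rw [Finset.mem_image]
        exact ⟨a, mem_nbrs'.2 h2.adj, rfl⟩
  calc wt x (OT T n) ≤ _ := wt_mono hx hsub
    _ ≤ _ := wt_union hx _ _
    _ ≤ x + 3 * x * wt x (ET T n) := by
      have e1 : wt x {[((1 : ℤ), (0 : ℤ))]} = x := by simp [wt]
      rw [e1]
      have e2 : wt x ((ET T n).biUnion (fun l => (nbrs (l.headD (0, 0))).image (fun z => z :: l)))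
          ≤ 3 * x * wt x (ET T n) := by
        unfold wt
        refine (sum_biUnion_le _ _ _ (fun b => pow_nonneg hx _)).trans ?_
        rw [Finset.mul_sum]
        refine Finset.sum_le_sum fun l _ => ?_
        refine (sum_image_le' _ _ _ (fun b => pow_nonneg hx _)).trans ?_
        simp only [List.length_cons]
        rw [Finset.sum_const, nsmul_eq_mul]
        have h3 : ((nbrs (l.headD (0, 0))).card : ℝ) ≤ 3 := by exact_mod_cast card_nbrs _
        have h4 : 0 ≤ x ^ (l.length + 1) := pow_nonneg hx _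
        calc ((nbrs (l.headD (0, 0))).card : ℝ) * x ^ (l.length + 1) ≤ 3 * x ^ (l.length + 1) :=
              mul_le_mul_of_nonneg_right h3 h4
          _ = 3 * x * x ^ l.length := by ring
      linarith

/-! ### membership in `P` -/

theorem mem_P_succ (Om : V → Prop) [DecidablePred Om] {m : ℕ} {z a y : V} {u : List V}
    (h : a :: y :: u ∈ P Om m) (hO : Om a) (ha : a ∉ y :: u) (hz : Adj a z) (hzy : z ≠ y) :
    z :: a :: y :: u ∈ P Om (m + 1) := by
  rw [P, Finset.mem_biUnion]
  refine ⟨a :: y :: u, h, ?_⟩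
  simp only [hO, ha, not_false_eq_true, and_self, if_true, Finset.mem_image, Finset.mem_erase]
  exact ⟨z, ⟨hzy, mem_nbrs'.2 hz⟩, rfl⟩

theorem P_length (Om : V → Prop) [DecidablePred Om] : ∀ (m : ℕ) (l : List V), l ∈ P Om m →
    l.length = m + 2 ∧ hh (l.headD (0, 0)) ≤ m + 1
  | 0, l, hl => by
    simp only [P, Finset.mem_singleton] at hl
    subst hl
    simp [hh]
  | m + 1, l, hl => by
    rw [P, Finset.mem_biUnion] at hl
    obtain ⟨l', h1, h2⟩ := hl
    have ih := P_length Om m l' h1
    match l', ih, h2 with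
    | [], ih, _ => simp at ih
    | [_], ih, _ => simp at ih
    | z :: y :: t, ih, h2 =>
      simp only at h2
      split_ifs at h2 with h3
      · rw [Finset.mem_image] at h2
        obtain ⟨z', h4, rfl⟩ := h2
        rw [Finset.mem_erase, mem_nbrs'] at h4
        have h5 := hh_adj h4.2
        simp only [List.headD_cons, List.length_cons] at ih ⊢
        push_cast
        omega
      · simp at h2

theorem memP {T : ℕ} (hT : 1 ≤ T) : ∀ (t : List V) (a : V), HPL (a :: t) →
    (∀ v ∈ a :: t, hh v ≤ 2 * T) → ∀ z, Adj a z → z ≠ (t ++ [(0, 0)]).headD (0, 0) →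
    z :: a :: (t ++ [(0, 0)]) ∈ P (Strip T) (t.length + 1)
  | [], a, h, hle, z, haz, hz => by
    have ha := h.last
    simp only [List.getLast?_singleton, Option.some.injEq] at ha
    subst ha
    refine mem_P_succ (Strip T) (m := 0) (by simp [P]) ?_ (by simp) haz (by simpa using hz)
    unfold Strip
    constructor
    · norm_num
    · show (1 : ℤ) - 0 ≤ 2 * (T : ℤ)
      omega
  | b :: s, a, h, hle, z, haz, hz => by
    have h1 : 1 ≤ hh a := h.pos a (by simp)
    have ha0 : a ≠ (0, 0) := by
      rintro rfl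
      simp [hh] at h1
    have hnd := h.nd
    have ih := memP hT s b h.tail (fun v hv => hle v (List.mem_cons_of_mem _ hv)) a h.adj ?_
    · have h2 := hle a (by simp)
      refine mem_P_succ (Strip T) (m := s.length + 1) (by simpa using ih) ?_ ?_ haz ?_
      · unfold Strip
        unfold hh at h1 h2
        exact ⟨h1, h2⟩
      · simp only [List.nodup_cons, List.mem_cons] at hnd
        intro hmem
        have hmem' : a ∈ (b :: s) ++ [(0, 0)] := hmem
        rw [List.mem_append, List.mem_cons, List.mem_singleton] at hmem'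
        rcases hmem' with (h5 | h5) | h5
        · exact hnd.1 (Or.inl h5)
        · exact hnd.1 (Or.inr h5)
        · exact ha0 h5
      · simpa using hz
    · match s, hnd with
      | [], _ => simpa using ha0
      | c :: s', hnd =>
        simp only [List.nodup_cons, List.mem_cons] at hnd
        push Not at hnd
        simpa using hnd.1.2.1

/-- the bridges of width `T` with at most `n` vertices -/
noncomputable def BR (T n : ℕ) : Finset (List V) :=
  ((Finset.range (n + 1)).biUnion (fun i => (P (Strip T) i).filter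
    (fun l => 2 * (T : ℤ) < (l.headD (0, 0)).1 - (l.headD (0, 0)).2))).image
      (fun l => l.tail.dropLast)

theorem wt_BR {x : ℝ} (hx : 0 ≤ x) (T n : ℕ) : wt x (BR T n) ≤
    ∑ m ∈ Finset.range (n + 1), (((P (Strip T) m).filter
      (fun l => 2 * (T : ℤ) < (l.headD (0, 0)).1 - (l.headD (0, 0)).2)).card : ℝ) * x ^ m := by
  unfold wt BR
  refine (sum_image_le' _ _ _ (fun b => pow_nonneg hx _)).trans ?_
  refine (sum_biUnion_le _ _ (fun l : List V => x ^ (l.tail.dropLast).length)
    (fun b => pow_nonneg hx _)).trans ?_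
  refine Finset.sum_le_sum fun m _ => ?_
  rw [← nsmul_eq_mul, ← Finset.sum_const]
  refine Finset.sum_le_sum fun l hl => ?_
  rw [Finset.mem_filter] at hl
  have := (P_length _ m l hl.1).1
  rw [List.length_dropLast, List.length_tail, this]
  simp

/-- mass bound at the subcritical parameter -/
theorem wt_BR_le {x : ℝ} (hx : 0 < x) (hx1 : x * mu0 ≤ 1) (T n : ℕ)
    (hB : ∑ m ∈ Finset.range (n + 1), (((P (Strip T) m).filter
      (fun l => 2 * (T : ℤ) < (l.headD (0, 0)).1 - (l.headD (0, 0)).2)).card : ℝ) * (mu0⁻¹) ^ m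
        ≤ 1) : wt x (BR T n) ≤ (x * mu0) ^ (2 * T) := by
  have hmu : 0 < mu0 := by
    unfold mu0
    positivity
  refine (wt_BR hx.le T n).trans ?_
  calc _ ≤ ∑ m ∈ Finset.range (n + 1), (x * mu0) ^ (2 * T) * ((((P (Strip T) m).filter
      (fun l => 2 * (T : ℤ) < (l.headD (0, 0)).1 - (l.headD (0, 0)).2)).card : ℝ) *
        (mu0⁻¹) ^ m) := by
        refine Finset.sum_le_sum fun m _ => ?_
        by_cases hm : 2 * T ≤ m
        · have h1 : x ^ m = (x * mu0) ^ m * (mu0⁻¹) ^ m := by
            rw [← mul_pow, mul_assoc, mul_inv_cancel₀ hmu.ne', mul_one]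
          have h2 : (x * mu0) ^ m ≤ (x * mu0) ^ (2 * T) :=
            pow_le_pow_of_le_one (by positivity) hx1 hm
          rw [h1]
          have h3 : 0 ≤ (((P (Strip T) m).filter
            (fun l => 2 * (T : ℤ) < (l.headD (0, 0)).1 - (l.headD (0, 0)).2)).card : ℝ) *
              (mu0⁻¹) ^ m := by positivity
          nlinarith
        · have h0 : (P (Strip T) m).filter
            (fun l => 2 * (T : ℤ) < (l.headD (0, 0)).1 - (l.headD (0, 0)).2) = ∅ := by
            rw [Finset.filter_eq_empty_iff]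
            intro l hl h
            have := (P_length _ m l hl).2
            unfold hh at this
            omega
          rw [h0]
          simp
    _ = (x * mu0) ^ (2 * T) * _ := by rw [← Finset.mul_sum]
    _ ≤ (x * mu0) ^ (2 * T) * 1 := mul_le_mul_of_nonneg_left hB (by positivity)
    _ = _ := mul_one _

end HP
end H978R2.Hex
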