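import Pool.Agent.H978R2.Hex.Geo

set_option autoImplicit false

/-! Hopf rotation formula for lattice paths. -/

namespace H978R2.Hex

open Complex

theorem arg_mul_small {u v : ℂ} (hu : u ≠ 0) (hv : v ≠ 0) (h1 : |arg u| < Real.pi / 2)
    (h2 : |arg v| < Real.pi / 2) : arg (u * v) = arg u + arg v := by
  apply Complex.arg_mul hu hv
  rw [abs_lt] at h1 h2
  constructor <;> linarith [h1.1, h1.2, h2.1, h2.2]

/-- the angles in a triangle `x → y → z` -/
theorem arg_triangle {x y z : V} (h1 : Adj x y) (h2 : Adj y z) (h3 : x ≠ z) :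
    arg ((pos z - pos y) / (pos y - pos x)) =
      ang z y x + arg ((pos x - pos z) / (pos x - pos y)) := by
  have hxy : x ≠ y := adj_ne h1
  have hyz : y ≠ z := adj_ne h2
  have e1 : (pos z - pos y) / (pos y - pos x) =
      ((pos y - pos z) / (pos x - pos z)) * ((pos x - pos z) / (pos x - pos y)) := by
    rw [div_mul_div_cancel₀ (pos_sub_ne h3), ← neg_div_neg_eq, neg_sub, neg_sub]
  have e2 : arg ((pos x - pos z) / (pos x - pos y)) = ang x z y := by
    unfold ang
    rw [← neg_div_neg_eq, neg_sub, neg_sub]
  rw [e1, arg_mul_small (div_ne_zero (pos_sub_ne hyz) (pos_sub_ne h3))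
    (div_ne_zero (pos_sub_ne h3) (pos_sub_ne hxy))]
  · rfl
  · exact abs_ang_lt (b := z) (p := y) (q := x) (adj_symm h1) hyz h3
  · rw [e2]
    exact abs_ang_lt (b := x) (p := z) (q := y) (adj_symm h2) (Ne.symm h3) (Ne.symm hxy)

theorem wind_base_change {b b' : V} (hb : Adj b b') (p : V) (L : List V)
    (hL : (p :: L).IsChain (fun x y => Adj y x)) (h1 : b ∉ p :: L) (h2 : b' ∉ p :: L) :
    wind b' (p :: L) = wind b (p :: L) + arg ((pos p - pos b') / (pos p - pos b))
      - arg ((pos ((p :: L).getLast (by simp)) - pos b') /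
          (pos ((p :: L).getLast (by simp)) - pos b)) := by
  induction L generalizing p with
  | nil => simp [wind]
  | cons q L ih =>
    have hL' := List.isChain_cons_cons.mp hL
    have hq1 : b ∉ q :: L := fun h => h1 (List.mem_cons_of_mem _ h)
    have hq2 : b' ∉ q :: L := fun h => h2 (List.mem_cons_of_mem _ h)
    have h := ih q hL'.2 hq1 hq2
    have hp1 : p ≠ b := fun h => h1 (by rw [h]; exact List.mem_cons_self)
    have hp2 : p ≠ b' := fun h => h2 (by rw [h]; exact List.mem_cons_self)
    have hr1 : q ≠ b := fun h => hq1 (by rw [h]; exact List.mem_cons_self)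
    have hr2 : q ≠ b' := fun h => hq2 (by rw [h]; exact List.mem_cons_self)
    have h3 := ang_base hb (adj_symm hL'.1) hp1 hr1 hp2 hr2
    have e1 : wind b' (p :: q :: L) = ang b' p q + wind b' (q :: L) := rfl
    have e2 : wind b (p :: q :: L) = ang b p q + wind b (q :: L) := rfl
    have e3 : (p :: q :: L).getLast (by simp) = (q :: L).getLast (by simp) :=
      List.getLast_cons (by simp)
    rw [e1, e2, e3, h, h3]
    ring

theorem hopf (z s : V) (L : List V)
    (hc : (z :: (L ++ [s])).IsChain (fun x y => Adj y x)) (hn : (z :: (L ++ [s])).Nodup) :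
    (W (z :: (L ++ [s])) : ℝ) * (Real.pi / 3) = wind s (z :: L) + wind z (L ++ [s]) := by
  induction L generalizing z with
  | nil => simp [W, wind]
  | cons y L ih =>
    obtain ⟨x, t, hxt⟩ : ∃ x t, L ++ [s] = x :: t := by
      cases L with
      | nil => exact ⟨s, [], rfl⟩
      | cons a L => exact ⟨a, L ++ [s], rfl⟩
    have hlast : (x :: t).getLast (by simp) = s := by
      have : (L ++ [s]).getLast (by simp) = s := List.getLast_append_singleton L
      simpa only [hxt] using this
    rw [List.cons_append] at hc hn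
    have hc' := List.isChain_cons_cons.mp hc
    have hn' := List.nodup_cons.mp hn
    have h := ih y hc'.2 hn'.2
    rw [hxt] at hc' hn' h
    rw [List.cons_append, hxt]
    have hc2 := List.isChain_cons_cons.mp hc'.2
    have hn2 := List.nodup_cons.mp hn'.2
    have hxz : x ≠ z := fun h => hn'.1 (by rw [← h]; simp)
    have e1 : W (z :: y :: x :: t) = turn x y z + W (y :: x :: t) := rfl
    have e2 : wind s (z :: y :: L) = ang s z y + wind s (y :: L) := rfl
    have e3 : wind z (y :: x :: t) = ang z y x + wind z (x :: t) := rfl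
    have hzt : z ∉ x :: t := fun h => hn'.1 (List.mem_cons_of_mem _ h)
    have h4 := wind_base_change (b := y) (b' := z) hc'.1 x t hc2.2 hn2.1 hzt
    rw [hlast] at h4
    have h5 := arg_turn hc2.1 hc'.1 hxz
    have h6 := arg_triangle hc2.1 hc'.1 hxz
    have h7 : ang s z y = arg ((pos s - pos z) / (pos s - pos y)) := by
      unfold ang
      rw [← neg_div_neg_eq, neg_sub, neg_sub]
    rw [e1, e2, e3, h4, h7]
    push_cast
    rw [add_mul, h, ← h5, h6]
    ring

end H978R2.Hex
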