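import Pool.Agent.H978R2.Hex.HPFinal

set_option autoImplicit false

/-! Decomposition of a self-avoiding walk into at most three half-plane walks. -/

namespace H978R2.Hex
namespace HP

/-- self-avoiding walks from the origin as reversed lists -/
def SL (n : ℕ) : Set (List V) :=
  {l | l.length = n + 1 ∧ Ch l ∧ l.Nodup ∧ l.getLast? = some (0, 0)}

/-- translate a path so that its first vertex is the origin -/
def nrm (p : List V) : List V := p.map (fun v => v - p.getLastD (0, 0))

theorem nrm_map {l : List V} {τ : V} (h : l.getLast? = some (0, 0)) :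
    nrm (l.map (fun v => v + τ)) = l := by
  unfold nrm
  have h1 : (l.map (fun v => v + τ)).getLastD (0, 0) = τ := by
    rw [List.getLastD_eq_getLast?, List.getLast?_map, h]
    simp
  rw [h1, List.map_map]
  have : ((fun v => v - τ) ∘ fun v => v + τ) = (id : V → V) := by
    funext v
    simp
  rw [this, List.map_id]

theorem first_split {α : Type*} (p : α → Prop) [DecidablePred p] : ∀ (l : List α),
    (∃ v ∈ l, p v) → ∃ R a t, l = R ++ a :: t ∧ p a ∧ ∀ v ∈ R, ¬ p v
  | [], h => by simp at h
  | a :: t, h => by
    by_cases ha : p a
    · exact ⟨[], a, t, rfl, ha, by simp⟩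
    · obtain ⟨v, hv, hpv⟩ := h
      rw [List.mem_cons] at hv
      have hv' : v ∈ t := by
        rcases hv with rfl | hv
        · exact absurd hpv ha
        · exact hv
      obtain ⟨R, b, s, h1, h2, h3⟩ := first_split p t ⟨v, hv', hpv⟩
      refine ⟨a :: R, b, s, by rw [h1]; rfl, h2, ?_⟩
      intro w hw
      rw [List.mem_cons] at hw
      rcases hw with rfl | hw
      · exact ha
      · exact h3 w hw

/-- rebuild a walk from three half-plane pieces -/
def bld (d : List V × List V × List V) : List V :=
  nrm (d.1.map (fun v => v + (2, 0)) ++ d.2.1.dropLast.reverse ++ d.2.2.reverse)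

theorem ch_concat {l : List V} {a b : V} (h : Ch (l ++ [a])) (hab : Adj b a) :
    Ch ((l ++ [a]) ++ [b]) := by
  unfold Ch at *
  rw [List.isChain_append]
  refine ⟨h, List.isChain_singleton _, ?_⟩
  intro x hx y hy
  simp only [List.getLast?_append, List.getLast?_singleton, Option.some_or, Option.mem_def,
    Option.some.injEq, List.head?_cons] at hx hy
  subst hx
  subst hy
  exact hab

theorem saw_decomp {n : ℕ} {l : List V} (hl : l ∈ SL n) :
    ∃ R b c : List V, (R = [] ∨ HPL R) ∧ HPL b ∧ (c = [] ∨ HPL c) ∧
      R.length + b.length + c.length = n + 2 ∧ l = bld (R, b, c) := by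
  obtain ⟨hlen, hch, hnd, hlast⟩ := hl
  have hne : l ≠ [] := by
    rintro rfl
    simp at hlast
  -- minimal row
  obtain ⟨v0, hv0, hmin⟩ := Finset.exists_min_image l.toFinset (fun v => (hh v + 1) / 2)
    ⟨l.head hne, by simp⟩
  simp only [List.mem_toFinset] at hv0 hmin
  obtain ⟨j, hj⟩ : ∃ j, j = (hh v0 + 1) / 2 := ⟨_, rfl⟩
  rw [← hj] at hmin
  obtain ⟨R0, a, t, hlist, ha, hR0⟩ := first_split (fun v => (hh v + 1) / 2 = j) l ⟨v0, hv0, hj.symm⟩
  subst hlist
  have hlow : ∀ v ∈ R0 ++ a :: t, 2 * j - 1 ≤ hh v := by
    intro v hv
    have := hmin v hv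
    omega
  have hhigh : ∀ v ∈ R0, 2 * j + 1 ≤ hh v := by
    intro v hv
    have h1 := hmin v (List.mem_append_left _ hv)
    have h2 := hR0 v hv
    omega
  have hchF : Ch (a :: t) := (List.isChain_append.1 hch).2.1
  have hndF : (a :: t).Nodup := (List.nodup_append.1 hnd).2.1
  rcases Int.emod_two_eq_zero_or_one (hh a) with hpar | hpar
  · -- even vertex
    have ha2 : hh a = 2 * j := by omega
    obtain ⟨τ, hτ⟩ : ∃ τ : V, τ = (2, 0) - a := ⟨_, rfl⟩
    have hτh : hh τ = 2 - 2 * j := by
      rw [hτ, hh_sub, ha2]
      simp [hh]
    have hτe : (τ.1 + τ.2) % 2 = 0 := by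
      unfold hh at hτh
      omega
    have haτ : a + τ = (2, 0) := by rw [hτ]; abel
    have hae : ((-a).1 + (-a).2) % 2 = 0 := by
      simp only [Prod.fst_neg, Prod.snd_neg]
      unfold hh at hpar
      omega
    -- split the first part at the left neighbour
    obtain ⟨F1, G, hFG, hF1, hno, hG⟩ : ∃ F1 G : List V, a :: t = F1 ++ G ∧
        (∃ F2, F1 = a :: F2) ∧ (a - (1, 0)) ∉ F1 ∧
          (G = [] ∨ ∃ G1, G = (a - (1, 0)) :: G1) := by
      by_cases hmem : (a - (1, 0)) ∈ a :: t
      · obtain ⟨s1, s2, hs⟩ := List.append_of_mem hmem
        refine ⟨s1, (a - (1, 0)) :: s2, hs, ?_, ?_, Or.inr ⟨s2, rfl⟩⟩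
        · match s1, hs with
          | [], hs =>
            simp only [List.nil_append, List.cons.injEq] at hs
            exact absurd (congrArg Prod.fst hs.1) (by simp only [Prod.fst_sub]; omega)
          | r :: s1', hs =>
            simp only [List.cons_append, List.cons.injEq] at hs
            exact ⟨s1', by rw [hs.1]⟩
        · rw [hs] at hndF
          rw [List.nodup_append] at hndF
          intro h1
          exact hndF.2.2 _ h1 _ (by simp) rfl
      · exact ⟨a :: t, [], by simp, ⟨t, rfl⟩, hmem, Or.inl rfl⟩
    obtain ⟨F2, rfl⟩ := hF1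
    have hchF1 : Ch (a :: F2) := by
      rw [hFG] at hchF
      exact (List.isChain_append.1 hchF).1
    have hndF1 : (a :: F2).Nodup := by
      rw [hFG] at hndF
      exact (List.nodup_append.1 hndF).1
    have hmemF : ∀ v ∈ (a :: F2) ++ G, v ∈ R0 ++ a :: t := by
      intro v hv
      rw [hFG]
      exact List.mem_append_right _ hv
    refine ⟨R0.map (fun v => v + (-a)), (((a :: F2).map (fun v => v + τ)).reverse ++ [(1, 0)]),
      (G.map (fun v => v + τ)).reverse, ?_, ?_, ?_, ?_, ?_⟩
    · -- R
      rcases List.eq_nil_or_concat R0 with h0 | ⟨R1, u, h0⟩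
      · left; rw [h0]; rfl
      right
      rw [List.concat_eq_append] at h0
      have hu : Adj a u := by
        have e : R0 ++ a :: t = R1 ++ u :: a :: t := by rw [h0]; simp
        exact chain_split (l1 := R1) (by rw [← e]; exact hch)
      have hu2 : u = a + (1, 0) := by
        have h1 := hhigh u (by rw [h0]; simp)
        refine hh_even hu hpar ?_
        rcases hh_adj hu with h | h <;> omega
      have hchR : Ch R0 := (List.isChain_append.1 hch).1
      have hndR : R0.Nodup := (List.nodup_append.1 hnd).1
      refine ⟨hchR.map_trans hae, hndR.map (fun x y hxy => add_left_injective _ hxy), ?_, ?_⟩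
      · intro v hv
        rw [List.mem_map] at hv
        obtain ⟨w, hw, rfl⟩ := hv
        have h1 := hhigh w hw
        have h2 : hh (w + -a) = hh w - hh a := by
          rw [← sub_eq_add_neg, hh_sub]
        rw [h2]
        omega
      · rw [List.getLast?_map, h0]
        simp [hu2]
    · -- b
      refine ⟨?_, ?_, ?_, ?_⟩
      · have h1 : Ch (((a :: F2).map (fun v => v + τ)).reverse) := (hchF1.map_trans hτe).rev
        rw [List.map_cons, List.reverse_cons] at h1 ⊢
        refine ch_concat h1 ?_
        rw [haτ, adj_iff]
        left
        constructor <;> norm_num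
      · rw [List.nodup_append]
        refine ⟨?_, by simp, ?_⟩
        · rw [List.nodup_reverse]
          exact hndF1.map (fun x y hxy => add_left_injective _ hxy)
        · intro x hx y hy
          rw [List.mem_singleton] at hy
          subst hy
          rintro rfl
          rw [List.mem_reverse, List.mem_map] at hx
          obtain ⟨w, hw, hw2⟩ := hx
          apply hno
          have : w = a - (1, 0) := by
            have h3 : w = (1, 0) - τ := by rw [← hw2]; abel
            rw [h3, hτ]
            ext <;> simp <;> ring
          rw [← this]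
          exact hw
      · intro v hv
        rw [List.mem_append, List.mem_reverse, List.mem_map, List.mem_singleton] at hv
        rcases hv with ⟨w, hw, rfl⟩ | rfl
        · have h1 := hlow w (hmemF w (List.mem_append_left _ hw))
          rw [hh_add]
          omega
        · simp [hh]
      · simp
    · -- c
      rcases hG with rfl | ⟨G1, rfl⟩
      · left; rfl
      right
      have hchG : Ch ((a - (1, 0)) :: G1) := by
        rw [hFG] at hchF
        exact (List.isChain_append.1 hchF).2.1
      have hndG : ((a - (1, 0)) :: G1).Nodup := by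
        rw [hFG] at hndF
        exact (List.nodup_append.1 hndF).2.1
      refine ⟨(hchG.map_trans hτe).rev, ?_, ?_, ?_⟩
      · rw [List.nodup_reverse]
        exact hndG.map (fun x y hxy => add_left_injective _ hxy)
      · intro v hv
        rw [List.mem_reverse, List.mem_map] at hv
        obtain ⟨w, hw, rfl⟩ := hv
        have h1 := hlow w (hmemF w (List.mem_append_right _ hw))
        rw [hh_add]
        omega
      · rw [List.getLast?_reverse, List.map_cons, List.head?_cons, hτ]
        congr 1
        ext <;> simp
    · have h1 : (R0 ++ a :: t).length = R0.length + ((a :: F2) ++ G).length := by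
        rw [List.length_append, hFG]
      rw [hlen] at h1
      simp only [List.length_append, List.length_cons, List.length_map, List.length_reverse,
        List.length_nil] at h1 ⊢
      omega
    · unfold bld
      simp only
      rw [List.dropLast_concat, List.reverse_reverse, List.reverse_reverse, List.map_map,
        List.append_assoc, ← List.map_append, ← hFG]
      have e : ((fun v => v + ((2 : ℤ), (0 : ℤ))) ∘ fun v => v + -a) = (fun v => v + τ) := by
        funext v
        simp only [Function.comp, hτ]
        abel
      rw [e, ← List.map_append, nrm_map hlast]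
  · -- odd vertex
    have ha2 : hh a = 2 * j - 1 := by omega
    have hR0nil : R0 = [] := by
      rcases List.eq_nil_or_concat R0 with h0 | ⟨R1, u, h0⟩
      · exact h0
      exfalso
      rw [List.concat_eq_append] at h0
      have hu : Adj a u := by
        have e : R0 ++ a :: t = R1 ++ u :: a :: t := by rw [h0]; simp
        exact chain_split (l1 := R1) (by rw [← e]; exact hch)
      have h1 := hhigh u (by rw [h0]; simp)
      rcases hh_adj hu with h | h <;> omega
    subst hR0nil
    obtain ⟨τ, hτ⟩ : ∃ τ : V, τ = (1, 0) - a := ⟨_, rfl⟩
    have hτh : hh τ = 2 - 2 * j := by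
      rw [hτ, hh_sub, ha2]
      simp [hh]
      ring
    have hτe : (τ.1 + τ.2) % 2 = 0 := by
      unfold hh at hτh
      omega
    refine ⟨[], [(1, 0)], ((a :: t).map (fun v => v + τ)).reverse, Or.inl rfl, ?_, Or.inr ?_, ?_, ?_⟩
    · exact ⟨List.isChain_singleton _, by simp, by simp [hh], by simp⟩
    · refine ⟨(hchF.map_trans hτe).rev, ?_, ?_, ?_⟩
      · rw [List.nodup_reverse]
        exact hndF.map (fun x y hxy => add_left_injective _ hxy)
      · intro v hv
        rw [List.mem_reverse, List.mem_map] at hv
        obtain ⟨w, hw, rfl⟩ := hv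
        have h1 := hlow w (by simpa using hw)
        rw [hh_add]
        omega
      · rw [List.getLast?_reverse, List.map_cons, List.head?_cons, hτ]
        congr 1
        ext <;> simp
    · simp only [List.nil_append] at hlen
      simp only [List.length_reverse, List.length_map, hlen, List.length_nil,
        List.length_singleton]
      omega
    · unfold bld
      simp only [List.map_nil, List.nil_append, List.dropLast_singleton, List.reverse_nil,
        List.reverse_reverse]
      rw [nrm_map (by simpa using hlast)]

end HP
end H978R2.Hex
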