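import Pool.Agent.H978R2.Hex.ValP

set_option autoImplicit false

/-! Characterisation of `Val` and splitting of `W`. -/

namespace H978R2.Hex

/-- explicit description of valid walks -/
structure Good (Om : V → Prop) (z : V) (t : List V) : Prop where
  suff : [((1, 0) : V), (0, 0)] <:+ z :: t
  chain : (z :: t).IsChain (fun x y => Adj y x)
  nodup : t.Nodup
  om : ∀ v ∈ t.dropLast, Om v
  nb : ∀ y x r, t = y :: x :: r → z ≠ x

theorem adj_10 : Adj ((0, 0) : V) (1, 0) := by
  unfold Adj
  left
  rfl

theorem val_iff {Om : V → Prop} (z : V) (t : List V) : Val Om (z :: t) ↔ Good Om z t := by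
  induction t generalizing z with
  | nil =>
    constructor
    · intro h
      exact absurd h (by simp [Val])
    · intro h
      have := h.suff.length_le
      simp at this
  | cons y t ih =>
    match t, ih with
    | [], _ =>
      constructor
      · rintro ⟨rfl, rfl⟩
        refine ⟨List.suffix_refl _, ?_, by simp, by simp, ?_⟩
        · simp only [List.isChain_cons_cons, List.isChain_singleton, and_true]
          exact adj_10
        · intro y x r h
          simp at h
      · intro h
        have h1 := h.suff
        have h2 : [((1, 0) : V), (0, 0)] = [z, y] := h1.eq_of_length (by simp)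
        simp only [List.cons.injEq, and_true] at h2
        exact ⟨h2.1.symm, h2.2.symm⟩
    | x :: t, ih =>
      constructor
      · rintro ⟨h1, h2, h3, h4, h5⟩
        have h6 := (ih y).1 h5
        refine ⟨h6.suff.trans (List.suffix_cons _ _), ?_, ?_, ?_, ?_⟩
        · rw [List.isChain_cons_cons]
          exact ⟨h1, h6.chain⟩
        · rw [List.nodup_cons]
          exact ⟨h4, h6.nodup⟩
        · intro v hv
          rw [List.dropLast_cons_cons, List.mem_cons] at hv
          rcases hv with rfl | hv
          · exact h3
          · exact h6.om v hv
        · intro y' x' r' h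
          simp only [List.cons.injEq] at h
          rw [← h.2.1]
          exact h2
      · intro h
        have h1 := h.chain
        rw [List.isChain_cons_cons] at h1
        have h2 := h.nodup
        rw [List.nodup_cons] at h2
        refine ⟨h1.1, h.nb y x t rfl, ?_, h2.1, (ih y).2 ⟨?_, h1.2, h2.2, ?_, ?_⟩⟩
        · exact h.om y (by rw [List.dropLast_cons_cons]; exact List.mem_cons_self)
        · exact List.suffix_of_suffix_length_le h.suff (List.suffix_cons _ _) (by simp)
        · intro v hv
          exact h.om v (by rw [List.dropLast_cons_cons]; exact List.mem_cons_of_mem _ hv)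
        · intro y' x' r h3
          rw [h3] at h2
          intro h4
          exact h2.1 (by rw [h4]; simp)

theorem W_append (X : List V) (y x : V) (t : List V) :
    W (X ++ y :: x :: t) = W (X ++ [y, x]) + W (y :: x :: t) := by
  induction X with
  | nil => simp [W]
  | cons u X ih =>
    match X, ih with
    | [], _ => simp [W]
    | [v], ih =>
      simp only [List.cons_append, List.nil_append] at ih ⊢
      rw [W, ih]
      conv_rhs => rw [W]
      ring
    | v :: w :: X, ih =>
      simp only [List.cons_append] at ih ⊢
      rw [W, ih]
      conv_rhs => rw [W]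
      ring

theorem Good.mem_P {Om : V → Prop} [DecidablePred Om] {m : ℕ} {z : V} {t : List V}
    (h : Good Om z t) (hl : t.length = m + 1) : z :: t ∈ P Om m := by
  rw [H978R2.Hex.mem_P, val_iff]
  exact ⟨h, by simp [hl]⟩

theorem good_of_mem {Om : V → Prop} [DecidablePred Om] {m : ℕ} {l : List V} (h : l ∈ P Om m) :
    ∃ z t, l = z :: t ∧ Good Om z t ∧ t.length = m + 1 := by
  rw [H978R2.Hex.mem_P] at h
  match l, h with
  | z :: t, h =>
    exact ⟨z, t, rfl, (val_iff z t).1 h.1, by simpa using h.2⟩

theorem Good.last {Om : V → Prop} {z : V} {t : List V} (h : Good Om z t) :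
    t.getLast? = some (0, 0) := by
  obtain ⟨s, hs⟩ := h.suff
  match s, hs with
  | [], hs =>
    simp only [List.nil_append, List.cons.injEq] at hs
    rw [← hs.2]
    rfl
  | u :: s, hs =>
    simp only [List.cons_append, List.cons.injEq] at hs
    rw [← hs.2]
    simp

theorem Good.last2 {Om : V → Prop} {z : V} {t : List V} (h : Good Om z t) :
    (z :: t).getLast? = some (0, 0) := by
  obtain ⟨s, hs⟩ := h.suff
  rw [← hs]
  simp

end H978R2.Hex
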