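import Pool.Agent.H978R2.Hex.Defs

set_option autoImplicit false

/-! Membership in `P` and basic facts on `Val`. -/

namespace H978R2.Hex

theorem mem_nbrs' {p q : V} : q ∈ nbrs p ↔ Adj p q := by
  obtain ⟨a, b⟩ := p
  obtain ⟨c, d⟩ := q
  simp only [nbrs, Finset.mem_insert, Finset.mem_singleton, Adj, Prod.mk.injEq, Prod.mk_sub_mk,
    Int.even_iff]
  split_ifs with h <;> simp only [Prod.mk.injEq] <;> omega

theorem adj_symm' {p q : V} (h : Adj p q) : Adj q p := by
  obtain ⟨a, b⟩ := p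
  obtain ⟨c, d⟩ := q
  simp only [Adj, Prod.mk.injEq, Prod.mk_sub_mk, Int.even_iff] at h ⊢
  omega

theorem adj_ne' {p q : V} (h : Adj p q) : p ≠ q := by
  obtain ⟨a, b⟩ := p
  obtain ⟨c, d⟩ := q
  simp only [Adj, Prod.mk.injEq, Prod.mk_sub_mk, Int.even_iff, ne_eq] at h ⊢
  omega

variable {Om : V → Prop} [DecidablePred Om]

theorem mem_P_succ {m : ℕ} {l : List V} :
    l ∈ P Om (m + 1) ↔ ∃ z' z y t, l = z' :: z :: y :: t ∧ (z :: y :: t) ∈ P Om m ∧
      Om z ∧ z ∉ y :: t ∧ Adj z z' ∧ z' ≠ y := by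
  rw [P, Finset.mem_biUnion]
  constructor
  · rintro ⟨l', hl', h⟩
    match l', hl', h with
    | z :: y :: t, hl', h =>
      by_cases hc : Om z ∧ z ∉ y :: t
      · change l ∈ (if Om z ∧ z ∉ y :: t then
            ((nbrs z).erase y).image (fun z' => z' :: z :: y :: t) else ∅) at h
        rw [if_pos hc] at h
        obtain ⟨z', h12, h3⟩ := Finset.mem_image.1 h
        obtain ⟨h1, h2⟩ := Finset.mem_erase.1 h12
        exact ⟨z', z, y, t, h3.symm, hl', hc.1, hc.2, mem_nbrs'.1 h2, h1⟩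
      · change l ∈ (if Om z ∧ z ∉ y :: t then
            ((nbrs z).erase y).image (fun z' => z' :: z :: y :: t) else ∅) at h
        rw [if_neg hc] at h
        exact absurd h (Finset.notMem_empty _)
    | [_], hl', h => exact absurd h (Finset.notMem_empty _)
    | [], hl', h => exact absurd h (Finset.notMem_empty _)
  · rintro ⟨z', z, y, t, rfl, h1, h2, h3, h4, h5⟩
    refine ⟨z :: y :: t, h1, ?_⟩
    have hc : Om z ∧ z ∉ y :: t := ⟨h2, h3⟩
    change z' :: z :: y :: t ∈ (if Om z ∧ z ∉ y :: t then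
            ((nbrs z).erase y).image (fun z' => z' :: z :: y :: t) else ∅)
    rw [if_pos hc]
    exact Finset.mem_image.2 ⟨z', Finset.mem_erase.2 ⟨h5, mem_nbrs'.2 h4⟩, rfl⟩

theorem mem_P {m : ℕ} {l : List V} : l ∈ P Om m ↔ Val Om l ∧ l.length = m + 2 := by
  induction m generalizing l with
  | zero =>
    simp only [P, Finset.mem_singleton]
    constructor
    · rintro rfl
      exact ⟨⟨rfl, rfl⟩, rfl⟩
    · rintro ⟨h1, h2⟩
      match l, h1, h2 with
      | [z, y], h1, _ =>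
        obtain ⟨rfl, rfl⟩ := h1
        rfl
  | succ m ih =>
    rw [mem_P_succ]
    constructor
    · rintro ⟨z', z, y, t, rfl, h1, h2, h3, h4, h5⟩
      have := ih.1 h1
      exact ⟨⟨h4, h5, h2, h3, this.1⟩, by simpa using this.2⟩
    · rintro ⟨h1, h2⟩
      match l, h1, h2 with
      | z' :: z :: y :: t, h1, h2 =>
        obtain ⟨h4, h5, h6, h7, h8⟩ := h1
        exact ⟨z', z, y, t, rfl, ih.2 ⟨h8, by simpa using h2⟩, h6, h7, h4, h5⟩
      | [z, y], _, h2 => simp at h2

/-- the sum over the walks with one more vertex -/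
theorem sum_P_succ {M : Type*} [AddCommMonoid M] (f : List V → M) (m : ℕ) :
    ∑ l ∈ P Om (m + 1), f l =
      ∑ l ∈ Free Om m, ∑ z' ∈ (nbrs (l.headD (0, 0))).erase (l.tail.headD (0, 0)), f (z' :: l) := by
  classical
  have h0 : P Om (m + 1) = (Free Om m).biUnion
      (fun l => ((nbrs (l.headD (0, 0))).erase (l.tail.headD (0, 0))).image (fun z' => z' :: l)) := by
    ext l
    rw [mem_P_succ]
    simp only [Finset.mem_biUnion, Free, Finset.mem_filter, Finset.mem_image, Finset.mem_erase]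
    constructor
    · rintro ⟨z', z, y, t, rfl, h1, h2, h3, h4, h5⟩
      exact ⟨z :: y :: t, ⟨h1, h2, h3⟩, z', ⟨h5, mem_nbrs'.2 h4⟩, rfl⟩
    · rintro ⟨l', ⟨h1, h2, h3⟩, z', ⟨h4, h5⟩, rfl⟩
      have hlen := (mem_P.1 h1).2
      match l', h1, h2, h3, h4, h5, hlen with
      | z :: y :: t, h1, h2, h3, h4, h5, _ =>
        exact ⟨z', z, y, t, rfl, h1, h2, h3, mem_nbrs'.1 h5, h4⟩
  rw [h0, Finset.sum_biUnion]
  · refine Finset.sum_congr rfl fun l _ => ?_
    rw [Finset.sum_image]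
    intro a _ b _ h
    simpa using h
  · intro l1 _ l2 _ hne
    simp only [Function.onFun]
    rw [Finset.disjoint_left]
    intro l h1 h2
    simp only [Finset.mem_image] at h1 h2
    obtain ⟨a, _, ha⟩ := h1
    obtain ⟨b, _, hb⟩ := h2
    apply hne
    have := ha.trans hb.symm
    simpa using (List.cons.inj this).2

end H978R2.Hex
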